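import Pool.Agent.MP_fbbd83_al.Pl.Phase

/-! The upper bound for every sequence, by run-length coding of the lightest letter. -/

namespace Pool.Agent.MP_fbbd83_al.Pl

/-- a concatenation of `m` single symbols and `n` pairs `p q` -/
inductive Cd {β : Type} (p q : β) : List β → ℕ → ℕ → Prop
  | nil : Cd p q [] 0 0
  | raw (x : β) {e : List β} {m n : ℕ} : Cd p q e m n → Cd p q (x :: e) (m + 1) n
  | pair {e : List β} {m n : ℕ} : Cd p q e m n → Cd p q (p :: q :: e) m (n + 1)

theorem Cd.append {β : Type} {p q : β} {e e' : List β} {m n m' n' : ℕ} (h : Cd p q e m n)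
    (h' : Cd p q e' m' n') : Cd p q (e ++ e') (m + m') (n + n') := by
  induction h with
  | nil => simpa using h'
  | raw x _ ih => rw [add_right_comm]; exact ih.raw x
  | pair _ ih => rw [add_right_comm]; exact ih.pair

def dec {β : Type} (p q : β) {R : ℕ} : List (Fin (R + 1) × Option β) → List β
  | [] => []
  | t :: l => (List.replicate t.1 [p, q]).flatten ++ (t.2.toList ++ dec p q l)

theorem Cd.tokens {β : Type} {p q : β} {R : ℕ} (hR : 0 < R) {e : List β} {m n : ℕ}
    (h : Cd p q e m n) : ∃ (t : Fin (R + 1) × Option β) (l : List (Fin (R + 1) × Option β)),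
      dec p q (t :: l) = e ∧ R * l.length + t.1 ≤ R * m + n := by
  induction h with
  | nil => exact ⟨(0, none), [], rfl, by simp⟩
  | raw x _ ih =>
    obtain ⟨t, l, h1, h2⟩ := ih
    refine ⟨(0, some x), t :: l, by rw [← h1]; rfl, ?_⟩
    simp only [List.length_cons, mul_add, Fin.val_zero]; omega
  | pair _ ih =>
    obtain ⟨t, l, h1, h2⟩ := ih
    by_cases h : (t.1 : ℕ) < R
    · refine ⟨(⟨t.1 + 1, by omega⟩, t.2), l, by rw [← h1]; rfl, ?_⟩
      simp only; omega
    · refine ⟨(⟨1, by omega⟩, none), t :: l, by rw [← h1]; rfl, ?_⟩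
      simp only [List.length_cons, mul_add]; omega

theorem cd_alt (s : Fin 3) : ∀ w : Word, Alt (some 0 :: w) → ∃ m n,
    Cd (some none) (some (some s)) (w.map some) m n ∧ m ≤ 2 * cB s w + 1 ∧ n + cB s w ≤ cntS w
  | [], _ => ⟨0, 0, .nil, by simp, by simp [cB]⟩
  | [x], h => by
    cases x with
    | none => exact ⟨1, 0, .raw _ .nil, by simp, by simp [cB]⟩
    | some t => simp [Alt] at h
  | x :: y :: w, h => by
    cases x with
    | some t => simp [Alt] at h
    | none =>
      cases y with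
      | none => simp [Alt] at h
      | some t =>
        obtain ⟨m, n, h1, h2, h3⟩ := cd_alt s w (by
          cases w with
          | nil => trivial
          | cons z w => exact ⟨by simpa using h.2.2.1, h.2.2.2⟩)
        by_cases ht : t = s
        · subst ht
          exact ⟨m, n + 1, h1.pair, by simpa [cB] using h2, by simp [cB, cntS]; omega⟩
        · exact ⟨m + 1 + 1, n, (h1.raw _).raw _, by simp [cB, ht]; omega,
            by simp [cB, cntS, ht]; omega⟩

theorem cd_word (s : Fin 3) (w : Word) (h : Alt w) : ∃ m n,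
    Cd (some none) (some (some s)) (w.map some) m n ∧ m ≤ 2 * cB s w + 2 ∧ n + cB s w ≤ cntS w := by
  match w, h with
  | [], _ => exact ⟨0, 0, .nil, by simp, by simp [cB]⟩
  | none :: w, h =>
    obtain ⟨m, n, h1, h2, h3⟩ := cd_alt s (none :: w) ⟨by simp, h⟩
    exact ⟨m, n, h1, by omega, h3⟩
  | some t :: w, h =>
    obtain ⟨m, n, h1, h2, h3⟩ := cd_alt s w (by
      cases w with
      | nil => trivial
      | cons z w => exact ⟨by simpa using h.1, h.2⟩)
    refine ⟨m + 1, n, h1.raw _, ?_, ?_⟩ <;> simp only [cB, cntS] <;> split_ifs <;> omega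

variable (ω : ℕ → Fin 3)

theorem Q_ge (n : ℕ) (s : Fin 3) (μ : ℤ) (hμ : ∀ t, t ≠ s → μ ≤ ell ω n t) (w : Word) :
    μ * cB s w + ell ω n s * ((cntS w : ℤ) - cB s w) ≤ Q ω n w := by
  induction w with
  | nil => simp [cntS, Q, cB]
  | cons x w ih =>
    rcases x with _ | t
    · simpa [cntS, Q, cB] using ih
    · by_cases h : t = s
      · subst h; simp only [cntS, Q, cB, if_true]; push_cast; linarith
      · have := hμ t h
        simp only [cntS, Q, cB, if_neg h]; push_cast; linarith

theorem enc_cd (s : Fin 3) (μ : ℤ) (h0 : 0 ≤ μ) (k : ℕ) : ∀ (n : ℕ) (w : Word), Alt w →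
    (∀ t, t ≠ s → μ ≤ ell ω (n + k) t) → ∃ m r, Cd (some none) (some (some s)) (enc ω k n w) m r ∧
      μ * m + 2 * (ell ω (n + k) s * r) ≤
        2 * 2 ^ k * (Q ω n w + lenSum ω (n + k) - lenSum ω n) + μ * (4 * 2 ^ k - 1) := by
  induction k with
  | zero =>
    intro n w ha hμ
    obtain ⟨m, r, h1, h2, h3⟩ := cd_word s w ha
    refine ⟨m + 1, r, h1.append (.raw _ .nil), ?_⟩
    have h4 := Q_ge ω n s μ hμ w
    have h5 := mul_le_mul_of_nonneg_left (show (m : ℤ) ≤ 2 * cB s w + 2 by exact_mod_cast h2) h0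
    have h6 := mul_le_mul_of_nonneg_left (show (r : ℤ) ≤ (cntS w : ℤ) - cB s w by omega)
      (Int.natCast_nonneg (ell ω n s))
    simp only [add_zero, pow_zero]; push_cast; linarith
  | succ k ih =>
    intro n w ha hμ
    have e : n + (k + 1) = n + 1 + k := by ring
    rw [e] at hμ ⊢
    obtain ⟨m1, r1, c1, h1⟩ := ih (n + 1) _ (alt_red (sec (ω n) w false)) hμ
    obtain ⟨m2, r2, c2, h2⟩ := ih (n + 1) _ (alt_red (sec (ω n) w true)) hμ
    refine ⟨m1 + m2 + 1, r1 + r2, (c1.append c2).raw _, ?_⟩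
    have h3 := Q_sec ω n w
    have h4 : (0 : ℤ) < 2 ^ k := by positivity
    have h5 : (0 : ℤ) ≤ lenSum ω n := by positivity
    unfold wA at h3
    push_cast
    have h6 := mul_le_mul_of_nonneg_left h3 h4.le
    have h7 := mul_nonneg h4.le h5
    rw [pow_succ]
    linarith

theorem growth_le_log (n K : ℕ) (hK : n ≤ lenSum ω K) :
    growth (gens ω) n ≤ (6 * (K + 4) + 1) ^ (24 * 2 ^ K) := by
  classical
  obtain ⟨s, hs⟩ : ∃ s, ∀ t, ell ω K s ≤ ell ω K t := Finite.exists_min _
  have a1 := lenSum_eq ω K s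
  have a2 := ell_tri ω K (s + 1)
  have a3 := ell_tri ω K (s + 2)
  have a4 := hs (s + 1)
  have a5 := hs (s + 2)
  have a6 := lenSum_ratio ω K s
  have a7 := ell_pos ω K s
  obtain ⟨μ, hμ⟩ : ∃ μ, μ = min (ell ω K (s + 1)) (ell ω K (s + 2)) := ⟨_, rfl⟩
  have key : ∀ g, InBall ω n g → ∃ (w : Word) (l : List (Fin (K + 3 + 1) × Option _)),
      (∀ v, run ω w v = g v) ∧ dec (some none) (some (some s)) l = enc ω K 0 w ∧
        l.length ≤ 24 * 2 ^ K := by
    rintro g ⟨w, hw, rfl⟩
    obtain ⟨m, r, c, h1⟩ := enc_cd ω s μ (by positivity) K 0 (red w) (alt_red w) (fun t ht => by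
      have : t = s + 1 ∨ t = s + 2 := by clear * - ht; revert t s; decide
      rw [zero_add]
      rcases this with rfl | rfl <;> omega)
    obtain ⟨t, l, h2, h3⟩ := c.tokens (R := K + 3) (by omega)
    refine ⟨red w, t :: l, fun v => by rw [run_red, evP_apply], h2, ?_⟩
    rw [Q_zero, zero_add] at h1
    have b1 := length_eq_cnt (red w)
    have b2 := length_red w
    have b3 : (0 : ℤ) < 2 ^ K := by positivity
    have b4 := mul_le_mul_of_nonneg_left
      (show (cntS (red w) : ℤ) + lenSum ω K - lenSum ω 0 ≤ 2 * lenSum ω K by omega) b3.le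
    have b5 : (μ : ℤ) * m + 2 * (ell ω K s * r) ≤ 4 * (2 ^ K * lenSum ω K) + 4 * (μ * 2 ^ K) := by
      have : (0 : ℤ) ≤ μ := by positivity
      linarith
    have b6 : μ * m + 2 * (ell ω K s * r) ≤ 4 * (2 ^ K * lenSum ω K) + 4 * (μ * 2 ^ K) := by
      exact_mod_cast b5
    have d4 : 0 < 2 ^ K := by positivity
    clear b3 b4 b5 h1
    generalize 2 ^ K = N at *
    have d1 : m ≤ 20 * N := by
      have := Nat.mul_le_mul_left N (show lenSum ω K ≤ 4 * μ by omega)
      exact Nat.le_of_mul_le_mul_left (c := μ) (by nlinarith) (by omega)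
    have d2 : r ≤ 3 * ((K + 3) * N) := by
      have := Nat.mul_le_mul_left N (show 2 * μ ≤ lenSum ω K by omega)
      have := Nat.mul_le_mul_left N a6
      exact Nat.le_of_mul_le_mul_left (c := ell ω K s) (by nlinarith) (by omega)
    have d3 : l.length ≤ 23 * N := by
      have := Nat.mul_le_mul_left (K + 3) d1
      exact Nat.le_of_mul_le_mul_left (c := K + 3) (by nlinarith) (by omega)
    simp only [List.length_cons]; omega
  choose! wd cd k1 k2 k3 using key
  rw [growth_eq]
  refine (ncard_le_of_code {g | InBall ω n g} cd (24 * 2 ^ K) (fun g hg g' hg' e => ?_) k3).trans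
    (le_of_eq ?_)
  · have e1 : enc ω K 0 (wd g) = enc ω K 0 (wd g') := by rw [← k2 g hg, ← k2 g' hg', e]
    have := (enc_inj ω K 0 (wd g) (wd g') [] [] (by simpa using e1)).1
    ext1 v
    rw [← k1 g hg, ← k1 g' hg']
    exact this v
  · simp; ring

end Pool.Agent.MP_fbbd83_al.Pl
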