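import Pool.Agent.MP_fbbd83_al.Pl.Transfer
import Pool.Agent.MP_fbbd83_al.Pl.UpLog

/-! Comparison of the growth function with the model function for all sequences. -/

namespace Pool.Agent.MP_fbbd83_al.Pl

theorem exists_pow (K : ℕ) (hK : 0 < K) : ∃ c, K ≤ 2 ^ c ∧ 2 ^ c ≤ 2 * K :=
  ⟨Nat.log 2 K + 1, (Nat.lt_pow_succ_log_self (by norm_num) K).le, by
    have := Nat.pow_log_le_self 2 hK.ne'
    rw [pow_succ]; omega⟩

theorem le_log {ω : ℕ → Fin 3} {k n : ℕ} (h : lenSum ω k ≤ n) : k ≤ Nat.log 2 n := by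
  have := lenSum_ge ω k
  have h2 : 0 < 2 ^ k := by positivity
  exact Nat.le_log_of_pow_le (by norm_num) (by omega)

theorem model_le {ω : ℕ → Fin 3} (h : NC ω) (n : ℕ) :
    model ω n ≤ growth (gens ω) (3 ^ 170 * n * (Nat.log 2 n + 1) ^ 46) := by
  rw [model_eq]
  rcases Nat.eq_zero_or_pos (kap ω n) with h0 | h0
  · rw [h0]; simpa using growth_pos ω _
  obtain ⟨k, hk⟩ : ∃ k, kap ω n = k + 1 := ⟨kap ω n - 1, by omega⟩
  have a1 := (kap_spec ω n k).2 (by omega)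
  have a2 := le_log a1
  obtain ⟨c, c1, c2⟩ := exists_pow (k + 3) (by omega)
  have c3 : c ≤ 2 ^ c := Nat.lt_two_pow_self.le
  have a3 := lower_all h (K := k + 3) (Λ := 4 * c + 11) (by
    calc 2048 * (k + 3) ^ 4 ≤ 2048 * (2 ^ c) ^ 4 :=
          Nat.mul_le_mul_left _ (Nat.pow_le_pow_left c1 4)
      _ = _ := by ring)
  generalize Nat.log 2 n = l at *
  have a4 : lenSum ω (k + 3 + (7 * (4 * c + 11) + 4)) ≤ 3 ^ 84 * (6 * (l + 1)) ^ 45 * n := by
    have b1 := lenSum_three_pow ω k (28 * c + 84)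
    have b2 : 3 ^ (28 * c) ≤ (6 * (l + 1)) ^ 45 := by
      calc 3 ^ (28 * c) = (3 ^ 28) ^ c := by rw [pow_mul]
        _ ≤ (2 ^ 45) ^ c := Nat.pow_le_pow_left (by norm_num) c
        _ = (2 ^ c) ^ 45 := by rw [← pow_mul, ← pow_mul, mul_comm]
        _ ≤ _ := Nat.pow_le_pow_left (by omega) 45
    rw [show k + 3 + (7 * (4 * c + 11) + 4) = k + (28 * c + 84) by ring]
    refine b1.trans ?_
    rw [pow_add, mul_comm (3 ^ (28 * c))]
    exact Nat.mul_le_mul (Nat.mul_le_mul_left _ b2) a1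
  have a5 : (3 * (17 * (28 * (k + 3) + (7 * (4 * c + 11) + 4) + 9)) + 9 * (k + 3)) *
      lenSum ω (k + 3 + (7 * (4 * c + 11) + 4)) ≤ 3 ^ 170 * n * (l + 1) ^ 46 := by
    calc _ ≤ (3 ^ 9 * (l + 1)) * (3 ^ 84 * (6 * (l + 1)) ^ 45 * n) := Nat.mul_le_mul (by omega) a4
      _ = (3 ^ 93 * 6 ^ 45) * (n * (l + 1) ^ 46) := by rw [mul_pow]; ring
      _ ≤ 3 ^ 170 * (n * (l + 1) ^ 46) := Nat.mul_le_mul_right _ (by norm_num)
      _ = _ := by rw [mul_assoc]
  refine le_trans ?_ (growth_mono ω a5)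
  have a6 : ((2 ^ (2 ^ (k + 1)) : ℕ) : ℝ) ≤ Real.exp (2 ^ (k + 3) / 4) := by
    have : ((2 ^ (2 ^ (k + 1)) : ℕ) : ℝ) = Real.exp (((2 ^ (k + 1) : ℕ) : ℝ) * Real.log 2) := by
      rw [Real.exp_nat_mul, Real.exp_log (by norm_num)]; push_cast; rfl
    rw [this, Real.exp_le_exp]
    push_cast
    have b1 : (0 : ℝ) < 2 ^ k := by positivity
    have := mul_le_mul_of_nonneg_left Real.log_two_lt_d9.le b1.le
    rw [pow_add, pow_add]
    linarith
  rw [hk]
  exact (Nat.pow_le_pow_right (by norm_num) (Nat.sub_le _ _)).trans (by exact_mod_cast a6.trans a3)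

theorem le_model (ω : ℕ → Fin 3) (n : ℕ) :
    growth (gens ω) n ≤ model ω (3 ^ 170 * n * (Nat.log 2 (Nat.log 2 n) + 1) ^ 2) := by
  rcases Nat.eq_zero_or_pos n with rfl | hn
  · rw [growth_eq]
    have : {g | InBall ω 0 g} = {1} := by
      ext g
      simp only [Set.mem_ofPred_eq, InBall, Set.mem_singleton_iff]
      constructor
      · rintro ⟨w, hw, rfl⟩
        have : w = [] := List.length_eq_zero_iff.1 (by omega)
        subst this; rfl
      · rintro rfl; exact ⟨[], le_rfl, rfl⟩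
    rw [this, Set.ncard_singleton, model_eq]
    exact Nat.one_le_two_pow
  set K := kap ω n with hKdef
  have h1 : n ≤ lenSum ω K := by
    by_contra hc
    have := (kap_spec ω n K).1 (by omega)
    omega
  have h2 : lenSum ω K ≤ 3 * n ∧ K ≤ Nat.log 2 n + 1 := by
    rcases Nat.eq_zero_or_pos K with h0 | h0
    · rw [h0, lenSum_zero]; omega
    · have h3 := (kap_spec ω n (K - 1)).2 (by omega)
      have h4 := lenSum_three ω (K - 1)
      have h5 := le_log h3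
      rw [show K - 1 + 1 = K by omega] at h4
      omega
  have h3 := Nat.lt_pow_succ_log_self (b := 2) (by norm_num) (Nat.log 2 n)
  generalize Nat.log 2 (Nat.log 2 n) = l at *
  obtain ⟨c, c1, c2⟩ := exists_pow (l + 1) (by omega)
  have h4 : lenSum ω (K + (c + 8)) ≤ 3 ^ 170 * n * (l + 1) ^ 2 := by
    calc _ ≤ 3 ^ (c + 8) * lenSum ω K := lenSum_three_pow ω K _
      _ ≤ (2 ^ 2) ^ (c + 8) * (3 * n) := Nat.mul_le_mul (Nat.pow_le_pow_left (by norm_num) _) h2.1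
      _ = (2 ^ c) ^ 2 * (2 ^ 16 * 3 * n) := by rw [← pow_mul]; ring
      _ ≤ (2 * (l + 1)) ^ 2 * (2 ^ 16 * 3 * n) :=
          Nat.mul_le_mul_right _ (Nat.pow_le_pow_left c2 2)
      _ = (2 ^ 18 * 3) * (n * (l + 1) ^ 2) := by ring
      _ ≤ 3 ^ 170 * (n * (l + 1) ^ 2) := Nat.mul_le_mul_right _ (by norm_num)
      _ = _ := by rw [mul_assoc]
  have h5 := (kap_spec ω _ _).1 h4
  rw [model_eq]
  have h6 := Nat.pow_le_pow_right (show 0 < 2 by norm_num) (Nat.succ_le_of_lt h5)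
  have h7 : 0 < 2 ^ K := by positivity
  have h8 : (l + 6) * (24 * 2 ^ K) ≤ 2 ^ kap ω (3 ^ 170 * n * (l + 1) ^ 2) - 1 := by
    have e : 2 ^ (K + (c + 8)).succ = 512 * (2 ^ c * 2 ^ K) := by rw [Nat.succ_eq_add_one]; ring
    have := Nat.mul_le_mul_right (2 ^ K) c1
    have e2 : (l + 6) * (24 * 2 ^ K) ≤ 144 * ((l + 1) * 2 ^ K) := by nlinarith
    have e3 : 0 < (l + 1) * 2 ^ K := by positivity
    omega
  calc _ ≤ (6 * (K + 4) + 1) ^ (24 * 2 ^ K) := growth_le_log ω n K h1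
    _ ≤ (2 ^ (l + 6)) ^ (24 * 2 ^ K) := Nat.pow_le_pow_left (by
        rw [show l + 6 = l.succ + 5 by omega, pow_add]; omega) _
    _ = 2 ^ ((l + 6) * (24 * 2 ^ K)) := by rw [← pow_mul]
    _ ≤ _ := Nat.pow_le_pow_right (by norm_num) h8

end Pool.Agent.MP_fbbd83_al.Pl
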