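import Pool.Agent.MP_fbbd83_al.Pl.Double

/-! Commutators of a section with an inactive letter. -/

namespace Pool.Agent.MP_fbbd83_al.Pl

variable {ω : ℕ → Fin 3}

theorem letP_sq (ω : ℕ → Fin 3) (x : Option (Fin 3)) : letP ω x * letP ω x = 1 := by
  ext1 v
  simp [letP_apply, letFun_invol]

theorem letP_inv (ω : ℕ → Fin 3) (x : Option (Fin 3)) : (letP ω x)⁻¹ = letP ω x :=
  inv_eq_of_mul_eq_one_right (letP_sq ω x)

theorem evP_reverse (ω : ℕ → Fin 3) (w : Word) : evP ω w.reverse = (evP ω w)⁻¹ := by
  induction w with
  | nil => simp [evP]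
  | cons x w ih => simp [evP, evP_append, ih, letP_inv]

theorem third_comm (s t : Fin 3) : third s t = third t s := by simp [third, add_comm]

theorem genS_comm (ω : ℕ → Fin 3) (s t : Fin 3) :
    letP ω (some s) * letP ω (some t) = letP ω (some t) * letP ω (some s) := by
  by_cases h : s = t
  · rw [h]
  · ext1 v
    simp only [Equiv.Perm.mul_apply, letP_apply, letFun]
    rw [genFun_third t s (Ne.symm h), genFun_third s t h, third_comm]

theorem run_ext (ω : ℕ → Fin 3) {w w' : Word} (h0 : par w = par w')
    (h : ∀ δ v, run (shift ω) (sec (ω 0) w δ) v = run (shift ω) (sec (ω 0) w' δ) v) (v : Vx) :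
    run ω w v = run ω w' v := by
  cases v with
  | nil => rw [run_nil, run_nil]
  | cons δ v => rw [run_cons, run_cons, h0, h]

theorem az_comm (ω : ℕ → Fin 3) {z : Fin 3} (hz : inact (ω 0) = z) :
    evP ω [none, some z, none, some z] = evP ω [some z, none, some z, none] := by
  have hc : col (ω 0) z = false := by
    have := col_iff (ω 0) z
    cases h : col (ω 0) z
    · rfl
    · exact absurd hz.symm (this.1 h)
  ext1 v
  rw [evP_apply, evP_apply]
  refine run_ext ω (by rfl) (fun δ v => ?_) v
  cases δ <;> simp [sec, hc]

theorem conj_zero (ω : ℕ → Fin 3) (z : Fin 3) (w : Word) (h : cntA w = 0) :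
    (evP ω w)⁻¹ * letP ω (some z) * evP ω w = letP ω (some z) := by
  induction w with
  | nil => simp [evP]
  | cons x w ih =>
    cases x with
    | none => simp [cntA] at h
    | some s =>
      have ih := ih h
      simp only [evP, mul_inv_rev, letP_inv]
      calc _ = letP ω (some s) * ((evP ω w)⁻¹ * letP ω (some z) * evP ω w) * letP ω (some s) := by
            group
        _ = _ := by rw [ih, genS_comm ω s z, mul_assoc, letP_sq, mul_one]

theorem conj_one (ω : ℕ → Fin 3) {z : Fin 3} (hz : inact (ω 0) = z) (w : Word) (h : cntA w = 1)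
    (h' : cB z w = 0) : (evP ω w)⁻¹ * letP ω (some z) * evP ω w =
      letP ω none * letP ω (some z) * letP ω none := by
  induction w with
  | nil => simp [cntA] at h
  | cons x w ih =>
    cases x with
    | none =>
      have := conj_zero ω z w (by simpa [cntA] using h)
      simp only [evP, mul_inv_rev, letP_inv]
      calc _ = letP ω none * ((evP ω w)⁻¹ * letP ω (some z) * evP ω w) * letP ω none := by group
        _ = _ := by rw [this]
    | some s =>
      have hs : s = z := by
        by_contra hc; simp [cB, hc] at h'
      subst hs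
      have ih := ih h (by simpa [cB] using h')
      have e := az_comm ω hz
      simp only [evP, one_mul] at e
      simp only [evP, mul_inv_rev, letP_inv]
      calc _ = letP ω (some s) * ((evP ω w)⁻¹ * letP ω (some s) * evP ω w) * letP ω (some s) := by
            group
        _ = (letP ω (some s) * letP ω none * letP ω (some s) * letP ω none) * letP ω (some s) := by
            rw [ih]; group
        _ = letP ω none * letP ω (some s) * letP ω none * (letP ω (some s) * letP ω (some s)) := by
            rw [e]; group
        _ = _ := by rw [letP_sq, mul_one]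

/-- the section of the conjugated commutator -/
def cw (tw w e : Word) : Word := tw ++ w ++ e ++ w.reverse ++ e.reverse ++ tw.reverse

theorem par_cw (tw w e : Word) : par (cw tw w e) = false := by
  simp only [cw, par_append, par_reverse]
  cases par tw <;> cases par w <;> cases par e <;> rfl

theorem cntA_cw (tw w e : Word) : cntA (cw tw w e) = 2 * (cntA tw + cntA w + cntA e) := by
  simp only [cw, cntA_append, cntA_reverse]; ring

theorem evP_cw_nil (ω : ℕ → Fin 3) (tw w : Word) : evP ω (cw tw w []) = 1 := by
  simp [cw, evP_append, evP_reverse]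

theorem par_of_cntA_one (w : Word) (h : cntA w = 1) : par w = true := by
  induction w with
  | nil => simp [cntA] at h
  | cons x w ih =>
    cases x with
    | none => simp only [par]; rw [par_of_cntA w (by simpa [cntA] using h)]; rfl
    | some s => exact ih h

theorem evP_cw (ω : ℕ → Fin 3) {z : Fin 3} (hz : inact (ω 0) = z) (tw w : Word)
    (h1 : cntA tw = 0) (h2 : cB z tw = 0) (h3 : cntA w + cB z w ≤ 1) :
    evP ω (cw tw w [some z]) =
      if par w then evP ω [none, some z, none, some z] else 1 := by
  have e : evP ω (cw tw w [some z]) = ((evP ω tw)⁻¹ * letP ω (some z) * evP ω tw) *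
      ((evP ω (tw ++ w))⁻¹ * letP ω (some z) * evP ω (tw ++ w)) := by
    simp only [cw, evP_append, evP_reverse, evP, one_mul, List.reverse_cons, List.reverse_nil,
      List.nil_append]
    group
  rw [e, conj_zero ω z tw h1]
  rcases Nat.eq_zero_or_pos (cntA w) with h | h
  · rw [par_of_cntA w h, conj_zero ω z _ (by rw [cntA_append]; omega), letP_sq]; rfl
  · rw [par_of_cntA_one w (by omega),
      conj_one ω hz _ (by rw [cntA_append]; omega) (by rw [cB_append]; omega)]
    simp [evP, mul_assoc]

theorem SecW.congrP {n : ℕ} {g : Tr} {u : Vx} {w w' : Word} (hg : SecW ω n g u w)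
    (h : evP (sh n ω) w = evP (sh n ω) w') : SecW ω n g u w' :=
  hg.congr fun v => by rw [← evP_apply, ← evP_apply, h]

theorem cnt_le_length (x : Fin 3) (w : Word) : cntA w + cB x w ≤ w.length := by
  have := cB_le_cntS x w
  have := length_eq_cnt w
  omega

theorem imp_dsec {x : Fin 3} {n t k : ℕ} (ht : 7 ≤ t) (hx : inact (ω (n + t)) = x) (w : Word)
    (hw : Alt w) (hl : w.length ≤ 4 * k + 1) :
    ∑ v ∈ LV (t + 1), Qn (cntA (dsec ω n w v) + cB x (dsec ω n w v)) ≤ Qn k := by
  have h256 : 256 ≤ 2 ^ (t + 1) := by
    calc 256 = 2 ^ 8 := by norm_num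
      _ ≤ _ := Nat.pow_le_pow_right (by norm_num) (by omega)
  have hlen : ∀ v ∈ LV (t + 1), 64 * ((dsec ω n w v).length - 1) ≤ k := by
    intro v hv
    have h1 := length_dsec (ω := ω) v n w hw
    rw [mem_LV.1 hv] at h1
    have := Nat.mul_le_mul_right ((dsec ω n w v).length - 1) h256
    omega
  by_cases hk : k < 64
  · refine le_of_eq_of_le (Finset.sum_eq_zero fun v hv => ?_) (Nat.zero_le _)
    have := hlen v hv
    have := cnt_le_length x (dsec ω n w v)
    unfold Qn; rw [if_neg (by omega)]
  · have h1 := sum_cB_dsec (ω := ω) x (t + 1) n w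
    have h2 := sum_cntA_dsec (ω := ω) x t n w hx
    have h3 := cB_le_cntS x w
    have h4 := (alt_cnt w hw).1.1
    have h5 := length_eq_cnt w
    have h6 : ∑ v ∈ LV (t + 1), Qn (cntA (dsec ω n w v) + cB x (dsec ω n w v)) ≤
        ∑ v ∈ LV (t + 1), (k / 64 + 1) * (cntA (dsec ω n w v) + cB x (dsec ω n w v)) := by
      refine Finset.sum_le_sum fun v hv => ?_
      have := hlen v hv
      have := cnt_le_length x (dsec ω n w v)
      unfold Qn; split_ifs
      · rw [sq]; exact Nat.mul_le_mul_right _ (by omega)
      · omega
    rw [← Finset.mul_sum, Finset.sum_add_distrib] at h6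
    refine h6.trans ?_
    unfold Qn; rw [if_pos (by omega), sq]
    calc _ ≤ (k / 64 + 1) * (5 * k) := Nat.mul_le_mul_left _ (by omega)
      _ = (5 * (k / 64 + 1)) * k := by ring
      _ ≤ k * k := Nat.mul_le_mul_right _ (by omega)

theorem dsec_true (z : Fin 3) (j : ℕ) : ∀ n, dsec ω n [some z] (List.replicate j true) = [some z] := by
  induction j with
  | zero => intro n; rfl
  | succ j ih => intro n; exact ih _

theorem red_sec_pure {z : Fin 3} {i : Fin 3} (hz : inact i = z) (δ : Bool) :
    red (sec i [none, some z, none, some z] δ) = [some z] := by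
  have hc : col i z = false := by
    have := col_iff i z
    cases h : col i z
    · rfl
    · exact absurd hz.symm (this.1 h)
  cases δ <;> simp [sec, hc, red, push]

theorem dsec_pure {z : Fin 3} {n j : ℕ} (hz : inact (ω n) = z) (ha : col (ω (n + 1 + j)) z = true)
    (δ : Bool) :
    dsec ω n [none, some z, none, some z] (δ :: (List.replicate j true ++ [false])) = [none] := by
  simp only [dsec]
  rw [red_sec_pure hz, dsec_append, dsec_true, List.length_replicate]
  simp [dsec, sec, ha, red, push]

end Pool.Agent.MP_fbbd83_al.Pl
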