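import Pool.Agent.MP_fbbd83_al.Pl.Comm

/-! The change of frame at the start of a long run: one leaf. -/

namespace Pool.Agent.MP_fbbd83_al.Pl

open RT

variable (ω : ℕ → Fin 3)

/-- the section is `z` on the useful class and trivial elsewhere -/
def Probe (z : Fin 3) (b M : ℕ) (U : Vx → Prop) (e : Tr) : Prop :=
  ∀ u : Vx, u.length = M → e.1 u = u ∧ (U (u.take b) → SecW ω M e u [some z]) ∧
    (¬ U (u.take b) → SecW ω M e u [])

/-- all sections are powers of `z` -/
def Good (z : Fin 3) (M : ℕ) (c : Tr) : Prop :=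
  ∀ u : Vx, u.length = M → ∃ w, SecW ω M c u w ∧ cntA w = 0 ∧ cB z w = 0

open Classical in
noncomputable def mu (b : ℕ) (U : Vx → Prop) (X : Lf) (u : Vx) : ℕ :=
  (if U (u.take b) then X.ka u else 0) + 2 * Qn (X.k u)

def cmm (e c g : Tr) : Tr := c⁻¹ * (e⁻¹ * (g⁻¹ * (e * (g * c))))

variable {ω}

theorem cmm_sec {M : ℕ} {e c g : Tr} {y : Vx} {tw w ew : Word} (hy : y.length = M)
    (he : ∀ u : Vx, u.length = M → e.1 u = u) (h1 : SecW ω M c y tw)
    (h2 : SecW ω M g (c.1 y) w) (h3 : SecW ω M e (g.1 (c.1 y)) ew) (h4 : SecW ω M e (c.1 y) ew) :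
    SecW ω M (cmm e c g) y (cw tw w ew) ∧ (cmm e c g).1 y = y := by
  have l1 : (c.1 y).length = M := by rw [tr_len, hy]
  have l2 : (g.1 (c.1 y)).length = M := by rw [tr_len, l1]
  have e1 : (e * (g * c)).1 y = g.1 (c.1 y) := he _ l2
  have e2 : (g⁻¹ * (e * (g * c))).1 y = c.1 y := by rw [tr_mul, e1, tr_inv_ap]
  have e3 : (e⁻¹ * (g⁻¹ * (e * (g * c)))).1 y = c.1 y := by
    rw [tr_mul, e2]
    conv_lhs => rw [← he _ l1]
    exact tr_inv_ap _ _
  have s1 := (h1.mul h2).mul (h := e) h3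
  have s2 := s1.mul (h := g⁻¹) (by rw [e1]; exact h2.inv)
  have s3 := s2.mul (h := e⁻¹) (by rw [e2]; have := h4.inv; rwa [he _ l1] at this)
  have s4 := s3.mul (h := c⁻¹) (by rw [e3]; exact h1.inv)
  exact ⟨s4, by unfold cmm; rw [tr_mul, e3, tr_inv_ap]⟩

theorem comm_step {z : Fin 3} (x : Fin 3) {b M : ℕ} {U : Vx → Prop} {e c : Tr} {X : Lf}
    (hb : b ≤ M) (hz : inact (ω M) = z) (he : Probe ω z b M U e) (hc : Good ω z M c)
    (hX : St b X.g) (hR : Rep ω z M X) (y : Vx) (hy : y.length = M) :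
    ∃ R : Word, (cmm e c X.g).1 y = y ∧ actF (cmm e c X.g).1 y = false ∧ Alt R ∧
      R.length ≤ 4 * X.k (c.1 y) + 1 ∧
      (SecW ω M (cmm e c X.g) y R ∨ SecW ω M (cmm e c X.g) y []) ∧
      (∀ δ, cB x (red (sec (ω M) R δ)) ≤ mu b U X (c.1 y)) ∧
      (U ((c.1 y).take b) → X.k (c.1 y) ≤ 1 → 1 ≤ X.ka (c.1 y) →
        R = [none, some z, none, some z] ∧
          SecW ω M (cmm e c X.g) y (if actF X.g.1 (c.1 y) then R else [])) := by
  obtain ⟨tw, t1, t2, t3⟩ := hc y hy
  have l1 : (c.1 y).length = M := by rw [tr_len, hy]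
  have l2 : (X.g.1 (c.1 y)).length = M := by rw [tr_len, l1]
  obtain ⟨w, w1, w2, w3⟩ := hR _ l1
  have e1 := hX.take (u := c.1 y) (by omega)
  have he' : ∀ u : Vx, u.length = M → e.1 u = u := fun u hu => (he u hu).1
  by_cases hU : U ((c.1 y).take b)
  · obtain ⟨s1, s2⟩ := cmm_sec hy he' t1 w1 ((he _ l2).2.1 (by rwa [e1])) ((he _ l1).2.1 hU)
    have s3 : actF (cmm e c X.g).1 y = false := by rw [s1.act, par_cw]
    by_cases hk : X.k (c.1 y) ≤ 1
    · have e2 := evP_cw (sh M ω) (z := z) (by rwa [sh_apply_zero]) tw w t2 t3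
        (by unfold Lf.k at hk; omega)
      have s4 : SecW ω M (cmm e c X.g) y
          (if actF X.g.1 (c.1 y) then [none, some z, none, some z] else []) := by
        refine s1.congrP ?_
        rw [e2, w1.act]
        split_ifs <;> rfl
      by_cases ha : 1 ≤ X.ka (c.1 y)
      · refine ⟨[none, some z, none, some z], s2, s3, by simp [Alt], ?_, ?_, fun δ => ?_,
          fun _ _ _ => ⟨rfl, s4⟩⟩
        · unfold Lf.k; simp; omega
        · split_ifs at s4
          · exact Or.inl s4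
          · exact Or.inr s4
        · rw [red_sec_pure hz, mu, if_pos hU]
          simp only [cB]; split_ifs <;> omega
      · refine ⟨[], s2, s3, trivial, by simp, Or.inl ?_, fun δ => by simp [sec, red, cB],
          fun _ _ h => absurd h ha⟩
        rw [w1.act, par_of_cntA w (by omega)] at s4
        exact s4
    · have a1 := alt_red (cw tw w [some z])
      have a2 := cntA_red (cw tw w [some z])
      rw [cntA_cw] at a2
      have a3 := (alt_cnt _ a1).1.1
      have a4 := length_eq_cnt (red (cw tw w [some z]))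
      have a5 : cntA [some z] = 0 := rfl
      have a6 : X.ka (c.1 y) ≤ X.k (c.1 y) := Nat.le_add_right _ _
      refine ⟨red (cw tw w [some z]), s2, s3, a1, by omega, Or.inl s1.red, fun δ => ?_,
        fun _ h _ => absurd h hk⟩
      have b1 := cnt_le_length x (red (sec (ω M) (red (cw tw w [some z])) δ))
      have b2 := length_red (sec (ω M) (red (cw tw w [some z])) δ)
      have b3 := length_sec (ω M) (red (cw tw w [some z])) δ
      have b4 : 2 * X.k (c.1 y) + 1 ≤ 2 * Qn (X.k (c.1 y)) := by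
        unfold Qn; rw [if_pos (by omega)]; nlinarith
      unfold mu; omega
  · obtain ⟨s1, s2⟩ := cmm_sec hy he' t1 w1 ((he _ l2).2.2 (by rwa [e1])) ((he _ l1).2.2 hU)
    exact ⟨[], s2, by rw [s1.act, par_cw], trivial, by simp,
      Or.inl (s1.congrP (evP_cw_nil _ _ _)), fun δ => by simp [sec, red, cB],
      fun h => absurd h hU⟩

/-- the new reading position -/
noncomputable def rho (U' : Vx → Prop) (j : ℕ) (a c : Tr) (u : Vx) : Vx :=
  (a⁻¹).1 ((c⁻¹).1 u ++ Classical.epsilon (fun δ => U' ((a⁻¹).1 ((c⁻¹).1 u ++ [δ]))) ::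
    (List.replicate j true ++ [false]))

theorem length_rho (U' : Vx → Prop) (j : ℕ) (a c : Tr) (u : Vx) :
    (rho U' j a c u).length = u.length + 1 + j + 1 := by
  unfold rho
  rw [tr_len, List.length_append, tr_len]
  simp; ring

theorem rho_useful {U' : Vx → Prop} {M : ℕ} (hU : ∀ u : Vx, u.length = M → ∃ δ, U' (u ++ [δ]))
    (j : ℕ) (a c : Tr) (u : Vx) (hu : u.length = M) : U' ((rho U' j a c u).take (M + 1)) := by
  have h1 : ∃ δ, U' ((a⁻¹).1 ((c⁻¹).1 u ++ [δ])) := by
    obtain ⟨δ, h⟩ := hU ((a⁻¹).1 ((c⁻¹).1 u)) (by rw [tr_len, tr_len, hu])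
    refine ⟨xor δ (actF (a⁻¹).1 ((c⁻¹).1 u)), ?_⟩
    rw [tree_step]
    simpa using h
  have h2 := Classical.epsilon_spec h1
  unfold rho
  rw [tr_take, ← List.singleton_append, ← List.append_assoc,
    List.take_left' (by rw [List.length_append, tr_len, hu]; rfl)]
  exact h2

theorem rho_inj (U' : Vx → Prop) (j : ℕ) (a c : Tr) {u u' : Vx} (h : u.length = u'.length)
    (e : rho U' j a c u = rho U' j a c u') : u = u' := by
  have h1 := (a⁻¹).1.injective e
  have h2 := (List.append_inj h1 (by rw [tr_len, tr_len, h])).1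
  exact (c⁻¹).1.injective h2

theorem Good.act {x : Fin 3} {M : ℕ} {a : Tr} (ha : Good ω x M a) {v : Vx} (hv : v.length = M) :
    actF a.1 v = false := by
  obtain ⟨w, h1, h2, _⟩ := ha v hv
  rw [h1.act, par_of_cntA w h2]

theorem Good.inv {x : Fin 3} {M : ℕ} {a : Tr} (ha : Good ω x M a) : Good ω x M a⁻¹ := by
  intro v hv
  obtain ⟨w, h1, h2, h3⟩ := ha ((a⁻¹).1 v) (by rw [tr_len, hv])
  have := h1.inv
  rw [tr_ap_inv] at this
  exact ⟨_, this, by rwa [cntA_reverse], by rwa [cB_reverse]⟩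

theorem filter_sum (q : Path) (P : Vx × Bool → Bool) (F G : Vx → ℕ)
    (h : ∀ e ∈ q, P e = true → F e.1 ≤ G e.1) :
    ((q.filter P).map (fun e => F e.1)).sum ≤ (q.map (fun e => G e.1)).sum := by
  induction q with
  | nil => simp
  | cons e q ih =>
    have ih := ih (fun e he => h e (List.mem_cons_of_mem _ he))
    have := h e List.mem_cons_self
    rw [List.filter_cons]
    split_ifs with h1
    · have := this h1
      simp only [List.map_cons, List.sum_cons]; omega
    · simp only [List.map_cons, List.sum_cons]; omega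

theorem conv_leaf {z x : Fin 3} {b M j : ℕ} {U U' : Vx → Prop} {e : Tr} (hb : b ≤ M)
    (hz : inact (ω M) = z) (hx : inact (ω (M + 1 + j)) = x) (hxz : x ≠ z) (hj : 6 ≤ j)
    (he : Probe ω z b M U e) (hU : ∀ u : Vx, u.length = M → ∃ δ, U' (u ++ [δ]))
    (a c : Tr) (ha : Good ω x (M + 1 + j + 1) a) (hc : Good ω z M c) (X : Lf) (hX : St b X.g)
    (hR : Rep ω z M X) :
    ∃ Y : Lf, Y.g = a⁻¹ * cmm e c X.g * a ∧ St (M + 1) Y.g ∧ Rep ω x (M + 1 + j + 1) Y ∧
      Y.dead = X.dead + ∑ v ∈ LV M, Qn (X.k v) ∧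
      (∀ y : Vx, y.length = M + 1 →
        ∑ v ∈ LV (j + 1), Y.ka (y ++ v) ≤ mu b U X (c.1 (a.1 (y.take M))) ∧
        ∑ v ∈ LV (j + 1), Y.ks (y ++ v) ≤ mu b U X (c.1 (a.1 (y.take M)))) ∧
      ∑ v ∈ LV (M + 1 + j + 1), Qn (Y.k v) ≤ ∑ v ∈ LV M, Qn (X.k v) ∧
      ∀ p, Live b M U X p → Live (M + 1) (M + 1 + j + 1) U' Y (rl (rho U' j a c) p) := by
  classical
  choose! R hR1 hR2 hR3 hR4 hR5 hR6 hR7 using comm_step x hb hz he hc hX hR
  set g := cmm e c X.g with hg
  set L := liftL ω x g M R 0 with hL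
  have hLr : Rep ω x (M + 1 + j + 1) L := liftL_rep 0 (by omega) hR5
  have hst : St (M + 1) g := by
    intro u hu
    obtain ⟨y, δ, rfl⟩ : ∃ y δ, u = y ++ [δ] := by
      have : u ≠ [] := by rintro rfl; simp at hu
      exact ⟨_, _, (List.dropLast_append_getLast this).symm⟩
    have hy : y.length = M := by simpa using hu
    rw [tree_step, hR1 y hy, hR2 y hy]; simp
  have hka : ∀ y v : Vx, y.length = M → L.ka (y ++ v) = cntA (dsec ω M (R y) v) := by
    intro y v hy; simp only [hL, liftL, List.take_left' hy, List.drop_left' hy]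
  have hks : ∀ y v : Vx, y.length = M → L.ks (y ++ v) = cB x (dsec ω M (R y) v) := by
    intro y v hy; simp only [hL, liftL, List.take_left' hy, List.drop_left' hy]
  have hact : col (ω (M + 1 + j)) z = true := by rw [col_iff, hx]; exact hxz.symm
  refine ⟨⟨a⁻¹ * g * a, fun v => L.ka (a.1 v), fun v => L.ks (a.1 v),
    X.dead + ∑ v ∈ LV M, Qn (X.k v)⟩, rfl, hst.conj a, fun v hv => ?_, rfl, fun y hy => ?_, ?_,
    ?_⟩
  · obtain ⟨w1, a1, a2, a3⟩ := ha v hv
    obtain ⟨w2, b1, b2, b3⟩ := hLr (a.1 v) (by rw [tr_len, hv])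
    obtain ⟨w3, c1, c2, c3⟩ := ha.inv ((g * a).1 v) (by rw [tr_len, hv])
    refine ⟨w1 ++ w2 ++ w3, ?_, ?_, ?_⟩
    · rw [mul_assoc]; exact (a1.mul b1).mul c1
    · simp only [cntA_append]; omega
    · simp only [cB_append]; omega
  · simp only
    rw [sum_cyl a y _ L.ka, sum_cyl a y _ L.ks, ← tr_take]
    obtain ⟨y', δ, h⟩ : ∃ y' δ, a.1 y = y' ++ [δ] := by
      have : a.1 y ≠ [] := by
        intro h; have := tr_len a y; rw [h] at this; simp at this; omega
      exact ⟨_, _, (List.dropLast_append_getLast this).symm⟩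
    have hy' : y'.length = M := by
      have := tr_len a y; rw [h] at this; simp at this; omega
    rw [h, List.take_left' hy']
    simp only [List.append_assoc, hka _ _ hy', hks _ _ hy', List.singleton_append, dsec]
    exact ⟨(sum_cntA_dsec x j _ _ hx).trans (hR6 y' hy' δ), (sum_cB_dsec x _ _ _).trans (hR6 y' hy' δ)⟩
  · have : ∑ v ∈ LV (M + 1 + j + 1), Qn (L.k (a.1 v)) ≤ ∑ v ∈ LV M, Qn (X.k v) := by
      rw [sum_level a _ (fun v => Qn (L.k v)), show M + 1 + j + 1 = M + (j + 1 + 1) by ring,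
        sum_LV_add, ← sum_level c M (fun v => Qn (X.k v))]
      refine Finset.sum_le_sum fun y hy => ?_
      have hy := mem_LV.1 hy
      simp only [Lf.k, hka _ _ hy, hks _ _ hy]
      exact imp_dsec (by omega) (by rw [← hx]; congr 2; ring) _ (hR3 y hy) (hR4 y hy)
    exact this
  · rintro p ⟨q, q1, q2, q3, q4⟩
    have key : ∀ u : Vx, u.length = M → U (u.take b) → X.k u ≤ 1 → 1 ≤ X.ka u →
        L.ka (a.1 (rho U' j a c u)) = 1 ∧ actF g.1 (a.1 (rho U' j a c u)) = actF X.g.1 u := by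
      intro u hu h1 h2 h3
      have hy : ((c⁻¹).1 u).length = M := by rw [tr_len, hu]
      have := hR7 _ hy
      rw [tr_ap_inv] at this
      obtain ⟨r1, r2⟩ := this h1 h2 h3
      unfold rho
      rw [tr_ap_inv, hka _ _ hy, r1, dsec_pure hz hact]
      refine ⟨rfl, ?_⟩
      rw [(r2.dsec _).act, r1]
      split_ifs with h4
      · rw [dsec_pure hz hact, h4]; rfl
      · rw [dsec_nil]; simpa [par] using h4
    refine ⟨rl (rho U' j a c) (q.filter (fun e => decide (X.k e.1 ≤ 1))),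
      ((List.filter_sublist).trans q1).map _, ?_, fun F => ?_, fun e he => ?_⟩
    · have h1 := impure_le q3 (fun e => !decide (X.k e.1 ≤ 1)) (fun e _ h => by
        have : 1 < X.k e.1 := by simpa using h
        omega)
      have h2 := List.length_eq_countP_add_countP (fun e : Vx × Bool => decide (X.k e.1 ≤ 1)) (l := q)
      simp only [rl, List.length_map, ← List.countP_eq_length_filter]
      simp only [decide_not, Bool.decide_eq_true] at h2
      omega
    · have h1 := q3 (fun u => if U (u.take b) ∧ X.k u ≤ 1 then F (rho U' j a c u) else 0)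
      have h2 := filter_sum q (fun e => decide (X.k e.1 ≤ 1)) (fun u => F (rho U' j a c u))
        (fun u => if U (u.take b) ∧ X.k u ≤ 1 then F (rho U' j a c u) else 0) (fun e he h => by
          rw [if_pos ⟨(q4 e he).2.1, by simpa using h⟩])
      simp only [rl, List.map_map]
      refine (h2.trans h1).trans ?_
      have h3 : ∑ u ∈ LV M, X.ka u * (if U (u.take b) ∧ X.k u ≤ 1 then F (rho U' j a c u) else 0)
          ≤ ∑ u ∈ LV M, L.ka (a.1 (rho U' j a c u)) * F (rho U' j a c u) := by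
        refine Finset.sum_le_sum fun u hu => ?_
        split_ifs with h
        · rcases Nat.eq_zero_or_pos (X.ka u) with h0 | h0
          · simp [h0]
          · rw [(key u (mem_LV.1 hu) h.1 h.2 h0).1]
            have : X.ka u ≤ X.k u := Nat.le_add_right _ _
            exact Nat.mul_le_mul_right _ (by omega)
        · simp
      refine h3.trans ?_
      rw [← Finset.sum_image (s := LV M) (g := rho U' j a c) (f := fun v => L.ka (a.1 v) * F v)
        (fun u hu u' hu' h => rho_inj U' j a c (by rw [mem_LV.1 hu, mem_LV.1 hu']) h)]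
      refine Finset.sum_le_sum_of_subset fun v hv => ?_
      obtain ⟨u, hu, rfl⟩ := Finset.mem_image.1 hv
      rw [mem_LV, length_rho, mem_LV.1 hu]
    · obtain ⟨e', he', rfl⟩ := List.mem_map.1 he
      rw [List.mem_filter] at he'
      obtain ⟨h1, h2, h3⟩ := q4 e' he'.1
      have h4 : X.k e'.1 ≤ 1 := by simpa using he'.2
      have hl : (rho U' j a c e'.1).length = M + 1 + j + 1 := by rw [length_rho, h1]
      refine ⟨hl, rho_useful hU j a c _ h1, fun _ => ?_⟩
      show actF (a⁻¹ * g * a).1 _ = e'.2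
      rw [actF_mul, actF_mul, ha.act hl, (key _ h1 h2 h4 (one_le_ka q3 he'.1)).2, h3 h4,
        ha.inv.act (by rw [tr_len, tr_len, hl])]
      simp

end Pool.Agent.MP_fbbd83_al.Pl
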