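import Pool.Agent.MP_fbbd83_al.Pl.Conv

/-! The change of frame for a random element. -/

namespace Pool.Agent.MP_fbbd83_al.Pl

open RT

variable {ω : ℕ → Fin 3}

theorem ball_inv {n : ℕ} {g : Tr} (h : InBall ω n g.1) : InBall ω n (g⁻¹).1 := by
  obtain ⟨w, hw, e⟩ := h
  exact ⟨w.reverse, by simpa using hw, by rw [evP_reverse, e]; rfl⟩

theorem good_of_rep {z : Fin 3} {M : ℕ} {a : Lf} (h : Rep ω z M a) (h' : CylB M M a 0) :
    Good ω z M a.g := fun u hu => by
  obtain ⟨w, h1, h2, h3⟩ := h u hu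
  have := h'.pt le_rfl u hu
  unfold Lf.k at this
  exact ⟨w, h1, by omega, by omega⟩

theorem good_cube {z : Fin 3} {P N : ℕ} (hz : inact (ω P) = z) (ns : List ℕ) (hn : ns.Nodup)
    (hN : N ≤ P + 1) (h : ∀ n ∈ ns, n < N ∧ (n = 0 ∨ col (ω (n - 1)) z = true)) :
    All (cubeT (ns.map (fun n => jumpL ω z n z)))
      (fun a p => Good ω z (P + 1) a.g ∧ InBall ω (lenSum ω N) a.g.1 ∧ p = []) := by
  have ok := jumps_ok (b := 0) (r := 0) hz le_rfl ns (fun _ => z) (fun n hn => by
    have := h n hn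
    exact ⟨by omega, by omega, by omega, this.2, by simp⟩)
  refine (all_cube _ ok).mono fun a p hp => ⟨good_of_rep hp.1.2.1 (by simpa using hp.1.2.2.1),
    hp.1.2.2.2.2.mono (jumps_cost z ns (fun _ => z) hn fun n hn => (h n hn).1), hp.2⟩

open Classical in
theorem sum_mu {z : Fin 3} {b M H : ℕ} {U : Vx → Prop} (hb : b ≤ M)
    (hH : ((LV b).filter U).card ≤ H) {t : RT Lf} {n c : ℕ} {μ σ ι δ : ℝ}
    (h : Inv ω z b M U t n c μ σ ι δ) :
    ∑ u ∈ LV M, E t (fun X => (mu b U X u : ℝ)) ≤ H * μ + 2 * ι := by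
  have hμ : 0 ≤ μ := (E_nonneg t fun a => by positivity).trans
    (h.ma (List.replicate b false) (by simp))
  simp only [mu, Nat.cast_add, Nat.cast_mul, E_add, E_mul, Finset.sum_add_distrib, Nat.cast_ofNat]
  refine add_le_add ?_ ?_
  · rw [show M = b + (M - b) by omega, sum_LV_add]
    have h1 : ∀ u ∈ LV b, ∑ v ∈ LV (M - b),
        E t (fun X => (((if U ((u ++ v).take b) then X.ka (u ++ v) else 0 : ℕ)) : ℝ)) ≤
        if U u then μ else 0 := by
      intro u hu
      simp only [List.take_left' (mem_LV.1 hu)]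
      split_ifs
      · rw [← E_sum]; exact h.ma u (mem_LV.1 hu)
      · simp [E_const]
    refine (Finset.sum_le_sum h1).trans ?_
    rw [← Finset.sum_filter, Finset.sum_const, nsmul_eq_mul]
    exact mul_le_mul_of_nonneg_right (by exact_mod_cast hH) hμ
  · rw [← Finset.mul_sum, ← E_sum]
    have := h.imp
    linarith

open Classical in
theorem convert {z x : Fin 3} {b P j H cE : ℕ} {U U' : Vx → Prop} {e : Tr} (hb : b ≤ P + 1)
    (hz0 : inact (ω P) = z) (hz : inact (ω (P + 1)) = z) (hx : inact (ω (P + 1 + 1 + j)) = x)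
    (hxz : x ≠ z) (hj : 6 ≤ j) (he : Probe ω z b (P + 1) U e) (heb : InBall ω cE e.1)
    (hU : ∀ u : Vx, u.length = P + 1 → ∃ δ, U' (u ++ [δ])) (hH : ((LV b).filter U).card ≤ H)
    {t : RT Lf} {n c : ℕ} {μ σ ι δ : ℝ} (h : Inv ω z b (P + 1) U t n c μ σ ι δ) :
    ∃ t', Inv ω x (P + 1 + 1) (P + 1 + 1 + j + 1) U' t' n (2 * c + 2 * cE + 4 * lenSum ω (P + 1))
      ((1 / 2) ^ (P + 1) * (H * μ + 2 * ι)) (2 * ((1 / 2) ^ (P + 1) * (H * μ + 2 * ι))) ι (δ + ι) := by
  set M := P + 1 with hM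
  set os := (List.range M).filter (fun n => decide (n = 0 ∨ col (ω (n - 1)) x = true)) with hos
  set is := (List.range M).filter (fun n => !decide (n = 0 ∨ col (ω (n - 1)) x = true)) with his
  have o1 : ∀ n ∈ os, n < M ∧ (n = 0 ∨ col (ω (n - 1)) x = true) := fun n hn => by
    simpa [hos] using hn
  have i1 : ∀ n ∈ is, n < M ∧ (n = 0 ∨ col (ω (n - 1)) z = true) := fun n hn => by
    simp only [his, List.mem_filter, List.mem_range, Bool.not_eq_eq_eq_not, Bool.not_true,
      decide_eq_false_iff_not, not_or, col_iff, not_not] at hn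
    exact ⟨hn.1, Or.inr (by rw [col_iff, ← hn.2.2]; exact hxz.symm)⟩
  have o2 : os.Nodup := List.nodup_range.filter _
  have i2 : is.Nodup := List.nodup_range.filter _
  have pm : (os ++ is).Perm (List.range M) := List.filter_append_perm _ _
  have aO := good_cube hx os o2 (N := M) (by omega) o1
  have aI := good_cube hz0 is i2 (N := M) le_rfl i1
  have lO := forall2_jump x os (fun _ => x) (fun n hn => (o1 n hn).2)
  have lI := forall2_jump z is (fun _ => z) (fun n hn => (i1 n hn).2)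
  generalize os.map (fun n => jumpL ω x n x) = LO at aO lO
  generalize is.map (fun n => jumpL ω z n z) = LI at aI lI
  have hcv := fun (a c X : Lf) (ha : Good ω x (M + 1 + j + 1) a.g) (hc : Good ω z M c.g)
    (hX : St b X.g) (hR : Rep ω z M X) => conv_leaf hb hz hx hxz hj he hU a.g c.g ha hc X hX hR
  have : Nonempty Lf := ⟨Lf.one⟩
  choose! cv c1 c2 c3 c4 c5 c6 c7 using hcv
  have avg : ∀ (f : Lf → ℝ) (F : Lf → Lf → Lf → ℝ), (∀ a c X, Good ω x (M + 1 + j + 1) a.g →
      Good ω z M c.g → St b X.g → Rep ω z M X → f (cv a c X) ≤ F a c X) →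
      E ((cubeT LO).bind fun a => (cubeT LI).bind fun c => t.mp (cv a c) (rho U' j a.g c.g)) f ≤
        E (cubeT LO) (fun a => E (cubeT LI) (fun c => E t (F a c))) := by
    intro f F hF
    simp only [E_bind, E_mp]
    exact E_mono_all (aO.mono fun a _ ha => E_mono_all (aI.mono fun c _ hc =>
      E_mono_all (h.pw.mono fun X _ hX => hF a c X ha.1 hc.1 hX.1.1 hX.1.2.1)))
  have cub : ∀ y : Vx, y.length = M → E (cubeT LO) (fun a => E (cubeT LI)
      (fun c => E t (fun X => (mu b U X (c.g.1 (a.g.1 y)) : ℝ)))) ≤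
      (1 / 2) ^ M * (H * μ + 2 * ι) := by
    intro y hy
    have e1 : ∀ y, E (cubeT LI) (fun c => E t (fun X => (mu b U X (c.g.1 y) : ℝ))) =
        mkL (LI.map Lf.g) (fun y => E t (fun X => (mu b U X y : ℝ))) y :=
      fun y => E_cubeT LI (fun y => E t (fun X => (mu b U X y : ℝ))) y
    simp only [e1]
    rw [E_cubeT LO (mkL (LI.map Lf.g) (fun y => E t (fun X => (mu b U X y : ℝ)))) y, ← mkL_append]
    refine (cube_le (b := 0) (t := M) (List.rel_append lO lI) (pm.nodup_iff.2 List.nodup_range)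
      (fun n hn => by have := List.mem_range.1 (pm.subset hn); omega) _
      (fun y => E_nonneg _ fun a => by positivity) y (by omega)).trans ?_
    rw [pm.length_eq, List.length_range]
    simp only [List.take_zero, List.nil_append]
    exact mul_le_mul_of_nonneg_left (sum_mu hb hH h) (by positivity)
  have hma : ∀ u : Vx, u.length = M + 1 →
      E ((cubeT LO).bind fun a => (cubeT LI).bind fun c => t.mp (cv a c) (rho U' j a.g c.g))
        (fun a => ∑ v ∈ LV (M + 1 + j + 1 - (M + 1)), (a.ka (u ++ v) : ℝ)) ≤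
        (1 / 2) ^ M * (H * μ + 2 * ι) := by
    intro u hu
    rw [show M + 1 + j + 1 - (M + 1) = j + 1 by omega]
    refine (avg _ _ fun a c X ha hc hX hR => ?_).trans (cub (u.take M) (by simp; omega))
    exact_mod_cast (c5 a c X ha hc hX hR u hu).1
  have hms : ∀ u : Vx, u.length = M + 1 →
      E ((cubeT LO).bind fun a => (cubeT LI).bind fun c => t.mp (cv a c) (rho U' j a.g c.g))
        (fun a => ∑ v ∈ LV (M + 1 + j + 1 - (M + 1)), (a.ks (u ++ v) : ℝ)) ≤
        (1 / 2) ^ M * (H * μ + 2 * ι) := by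
    intro u hu
    rw [show M + 1 + j + 1 - (M + 1) = j + 1 by omega]
    refine (avg _ _ fun a c X ha hc hX hR => ?_).trans (cub (u.take M) (by simp; omega))
    exact_mod_cast (c5 a c X ha hc hX hR u hu).2
  refine ⟨(cubeT LO).bind fun a => (cubeT LI).bind fun c => t.mp (cv a c) (rho U' j a.g c.g),
    ?_, hma, hms, fun v hv => ?_, ?_, ?_⟩
  · refine all_bind (aO.mono fun a p ha => all_bind (aI.mono fun c q hc =>
      all_mp (h.pw.mono fun X r hX => ?_)))
    obtain ⟨a1, a2, rfl⟩ := ha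
    obtain ⟨b1, b2, rfl⟩ := hc
    obtain ⟨⟨x1, x2, x3⟩, x4, x5⟩ := hX
    refine ⟨⟨c2 a c X a1 b1 x1 x2, c3 a c X a1 b1 x1 x2, c7 a c X a1 b1 x1 x2 r x3⟩,
      by simpa [rl] using x4, ?_⟩
    rw [c1 a c X a1 b1 x1 x2]
    exact (((ball_inv a2).mul ((ball_inv b2).mul ((ball_inv heb).mul ((ball_inv x5).mul
      (heb.mul (x5.mul b2)))))).mul a2).mono (by omega)
  · have h1 := hma (v.take (M + 1)) (by simp; omega)
    have h2 := hms (v.take (M + 1)) (by simp; omega)
    have h3 := add_le_add h1 h2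
    rw [← E_add, ← two_mul] at h3
    refine (E_mono _ fun a => ?_).trans h3
    rw [← Finset.sum_add_distrib]
    have := Finset.single_le_sum (s := LV (M + 1 + j + 1 - (M + 1)))
      (f := fun y => (a.ka (v.take (M + 1) ++ y) : ℝ) + a.ks (v.take (M + 1) ++ y))
      (fun _ _ => by positivity) (a := v.drop (M + 1)) (by rw [mem_LV]; simp; omega)
    simpa [Lf.k] using this
  · refine (avg _ (fun _ _ X => ∑ v ∈ LV M, (Qn (X.k v) : ℝ)) fun a c X ha hc hX hR => ?_).trans ?_
    · exact_mod_cast c6 a c X ha hc hX hR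
    · simp only [E_const]; exact h.imp
  · refine (avg _ (fun _ _ X => (X.dead : ℝ) + ∑ v ∈ LV M, (Qn (X.k v) : ℝ))
      fun a c X ha hc hX hR => ?_).trans ?_
    · rw [c4 a c X ha hc hX hR]; push_cast; exact le_rfl
    · simp only [E_const, E_add]; exact add_le_add h.dead h.imp

end Pool.Agent.MP_fbbd83_al.Pl
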