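import Pool.Agent.MP_fbbd83_al.Pl.Sec

/-! Leaves carrying counts of letters, products of random elements, and cubes of jumps. -/

namespace Pool.Agent.MP_fbbd83_al.Pl

open RT

/-- `g` fixes the first `n` letters and changes the next one -/
def LevT (g : Tr) (n : ℕ) : Prop := St n g ∧ ∀ u : Vx, u.length = n → actF g.1 u = true

noncomputable def mkL : List Tr → (Vx → ℝ) → Vx → ℝ
  | [], f, v => f v
  | g :: L, f, v => (mkL L f v + mkL L f (g.1 v)) / 2

def End : List Tr → Vx → Finset Vx
  | [], v => {v}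
  | g :: L, v => End L v ∪ End L (g.1 v)

def Dif (n : ℕ) (v v' : Vx) : Prop := v.take n = v'.take n ∧ v.take (n + 1) ≠ v'.take (n + 1)

theorem Dif.symm {n : ℕ} {v v' : Vx} (h : Dif n v v') : Dif n v' v := ⟨h.1.symm, h.2.symm⟩

theorem LevT.dif {g : Tr} {m : ℕ} (h : LevT g m) {v : Vx} (hv : m < v.length) :
    Dif m (g.1 v) v := by
  refine ⟨h.1.take hv.le, ?_⟩
  have hl : (v.take m).length = m := by simp; omega
  rw [tr_take, List.take_add_one, List.getElem?_eq_getElem hv, Option.toList_some, tree_step,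
    h.1 _ hl, h.2 _ hl]
  intro e
  have := List.append_cancel_left e
  simp at this

theorem take_of_take {v v' : Vx} {m n : ℕ} (h : v.take n = v'.take n) (hm : m ≤ n) :
    v.take m = v'.take m := by
  have := congrArg (List.take m) h
  simpa [List.take_take, min_eq_left hm] using this

theorem Dif.step {g : Tr} {m n : ℕ} (h : LevT g m) {v v' : Vx} (hv : m < v.length) (hmn : n ≠ m)
    (hd : Dif n v v') : Dif n (g.1 v) v' ∨ Dif m (g.1 v) v' := by
  rcases lt_or_gt_of_ne hmn with hl | hl
  · left
    have := (h.1.mono (show n + 1 ≤ m from hl)).take (u := v) (by omega)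
    exact ⟨(take_of_take this (by omega)).trans hd.1, by rw [this]; exact hd.2⟩
  · right
    have := h.dif hv
    exact ⟨this.1.trans (take_of_take hd.1 hl.le), by
      rw [← take_of_take hd.1 (show m + 1 ≤ n from hl)]; exact this.2⟩

theorem Dif.map (g : Tr) {n : ℕ} {v v' : Vx} (hd : Dif n v v') : Dif n (g.1 v) (g.1 v') := by
  refine ⟨by rw [tr_take, tr_take, hd.1], ?_⟩
  rw [tr_take, tr_take]
  exact fun e => hd.2 (g.1.injective e)

theorem End_disj {N : ℕ} {L : List Tr} {ns : List ℕ} (h : List.Forall₂ LevT L ns)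
    (hn : ns.Nodup) (hN : ∀ n ∈ ns, n < N) : ∀ (n : ℕ) (v v' : Vx), v.length = N → v'.length = N →
      n ∉ ns → Dif n v v' → Disjoint (End L v) (End L v') := by
  induction h with
  | nil =>
    intro n v v' _ _ _ hd
    simp only [End, Finset.disjoint_singleton]
    rintro rfl; exact hd.2 rfl
  | @cons g m L ns hg _ ih =>
    intro n v v' hv hv' hnn hd
    rw [List.nodup_cons] at hn
    have ih := ih hn.2 (fun k hk => hN k (List.mem_cons_of_mem _ hk))
    have hm := hN m List.mem_cons_self
    rw [List.mem_cons, not_or] at hnn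
    simp only [End, Finset.disjoint_union_left, Finset.disjoint_union_right]
    refine ⟨⟨ih n _ _ hv hv' hnn.2 hd, ?_⟩, ?_, ?_⟩
    · rcases hd.step hg (by omega) hnn.1 with h | h
      · exact ih n _ _ (by rw [tr_len, hv]) hv' hnn.2 h
      · exact ih m _ _ (by rw [tr_len, hv]) hv' hn.1 h
    · rcases hd.symm.step hg (by omega) hnn.1 with h | h
      · exact ih n _ _ hv (by rw [tr_len, hv']) hnn.2 h.symm
      · exact ih m _ _ hv (by rw [tr_len, hv']) hn.1 h.symm
    · exact ih n _ _ (by rw [tr_len, hv]) (by rw [tr_len, hv']) hnn.2 (hd.map g)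

theorem mkL_eq {N : ℕ} {L : List Tr} {ns : List ℕ} (h : List.Forall₂ LevT L ns)
    (hn : ns.Nodup) (hN : ∀ n ∈ ns, n < N) (f : Vx → ℝ) : ∀ v : Vx, v.length = N →
      mkL L f v = (1 / 2) ^ ns.length * ∑ y ∈ End L v, f y := by
  induction h with
  | nil => intro v _; simp [mkL, End]
  | @cons g m L ns hg hL ih =>
    intro v hv
    rw [List.nodup_cons] at hn
    have hN' : ∀ k ∈ ns, k < N := fun k hk => hN k (List.mem_cons_of_mem _ hk)
    have ih := ih hn.2 hN'
    have hm := hN m List.mem_cons_self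
    have hd := End_disj hL hn.2 hN' m v (g.1 v) hv (by rw [tr_len, hv]) hn.1
      (hg.dif (by omega)).symm
    simp only [mkL, End, List.length_cons]
    rw [Finset.sum_union hd, ih v hv, ih _ (by rw [tr_len, hv])]
    ring

theorem End_sub {b : ℕ} {L : List Tr} (hL : ∀ g ∈ L, St b g) : ∀ v : Vx, b ≤ v.length →
    ∀ y ∈ End L v, y.length = v.length ∧ y.take b = v.take b := by
  induction L with
  | nil => intro v _ y hy; simp only [End, Finset.mem_singleton] at hy; subst hy; simp
  | cons g L ih =>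
    intro v hv y hy
    have ih := ih (fun k hk => hL k (List.mem_cons_of_mem _ hk))
    simp only [End, Finset.mem_union] at hy
    rcases hy with hy | hy
    · exact ih v hv y hy
    · have := ih _ (by rwa [tr_len]) y hy
      rw [tr_len, (hL g List.mem_cons_self).take hv] at this
      exact this

theorem cube_le {b t : ℕ} {L : List Tr} {ns : List ℕ} (h : List.Forall₂ LevT L ns)
    (hn : ns.Nodup) (hN : ∀ n ∈ ns, b ≤ n ∧ n < b + t) (f : Vx → ℝ) (hf : ∀ y, 0 ≤ f y)
    (v : Vx) (hv : v.length = b + t) :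
    mkL L f v ≤ (1 / 2) ^ ns.length * ∑ y ∈ LV t, f (v.take b ++ y) := by
  rw [mkL_eq h hn (fun n hn => (hN n hn).2) f v hv]
  apply mul_le_mul_of_nonneg_left _ (by positivity)
  have hL : ∀ g ∈ L, St b g := by
    clear hn
    induction h with
    | nil => simp
    | @cons g m L ns hg _ ih =>
      intro k hk
      rcases List.mem_cons.1 hk with rfl | hk
      · exact hg.1.mono (hN m List.mem_cons_self).1
      · exact ih (fun n hn => hN n (List.mem_cons_of_mem _ hn)) k hk
  rw [← Finset.sum_image (s := LV t) (g := fun y => v.take b ++ y) (f := f)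
    (by intro a _ c _ e; simpa using e)]
  apply Finset.sum_le_sum_of_subset_of_nonneg _ (fun y _ _ => hf y)
  intro y hy
  obtain ⟨h1, h2⟩ := End_sub hL v (by omega) y hy
  rw [Finset.mem_image]
  exact ⟨y.drop b, by rw [mem_LV]; simp; omega, by rw [← h2, List.take_append_drop]⟩

theorem mkL_append (L L' : List Tr) (f : Vx → ℝ) (v : Vx) :
    mkL (L ++ L') f v = mkL L (mkL L' f) v := by
  induction L generalizing v with
  | nil => rfl
  | cons g L ih => simp only [List.cons_append, mkL, ih]

/-- a group element with bounds for the letters in its sections and a number of lost bits -/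
structure Lf where
  g : Tr
  ka : Vx → ℕ
  ks : Vx → ℕ
  dead : ℕ

namespace Lf

def k (a : Lf) (u : Vx) : ℕ := a.ka u + a.ks u

def one : Lf := ⟨1, fun _ => 0, fun _ => 0, 0⟩

/-- `a` acts first -/
def mul (a b : Lf) : Lf :=
  ⟨b.g * a.g, fun u => a.ka u + b.ka (a.g.1 u), fun u => a.ks u + b.ks (a.g.1 u), a.dead + b.dead⟩

theorem k_mul (a b : Lf) (u : Vx) : (a.mul b).k u = a.k u + b.k (a.g.1 u) := by
  simp only [k, mul]; ring

end Lf

def prod (s t : RT Lf) : RT Lf := s.bind fun a => t.mp a.mul (fun u => (a.g⁻¹).1 u)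

theorem E_prod (s t : RT Lf) (f : Lf → ℝ) :
    E (prod s t) f = E s (fun a => E t (fun b => f (a.mul b))) := by
  simp only [prod, E_bind, E_mp]

theorem all_prod {s t : RT Lf} {P Q R : Lf → Path → Prop} (hs : All s P) (ht : All t Q)
    (h : ∀ a p b q, P a p → Q b q → R (a.mul b) (p ++ rl (fun u => (a.g⁻¹).1 u) q)) :
    All (prod s t) R :=
  all_bind (hs.mono fun a p hp => all_mp (ht.mono fun b q hq => h a p b q hp hq))

def cubeT : List Lf → RT Lf
  | [] => .leaf Lf.one
  | h :: L => .node none (cubeT L) ((cubeT L).mp h.mul id)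

theorem E_cubeT (L : List Lf) (f : Vx → ℝ) (v : Vx) :
    E (cubeT L) (fun a => f (a.g.1 v)) = mkL (L.map Lf.g) f v := by
  induction L generalizing v with
  | nil => rfl
  | cons h L ih =>
    simp only [cubeT, E, E_mp, List.map_cons, mkL, ← ih]
    rfl

theorem all_cubeT (P : List Lf → Lf → Prop) (L : List Lf) (h0 : P [] Lf.one)
    (h1 : ∀ h ∈ L, ∀ L a, P L a → P (h :: L) a ∧ P (h :: L) (h.mul a)) :
    All (cubeT L) (fun a p => P L a ∧ p = []) := by
  induction L with
  | nil => exact ⟨h0, rfl⟩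
  | cons h L ih =>
    have ih := ih (fun x hx => h1 x (List.mem_cons_of_mem _ hx))
    refine ⟨ih.mono fun a p hp => ⟨(h1 h List.mem_cons_self L a hp.1).1, hp.2⟩,
      all_mp (ih.mono fun a p hp => ⟨(h1 h List.mem_cons_self L a hp.1).2, ?_⟩)⟩
    rw [hp.2]; rfl

end Pool.Agent.MP_fbbd83_al.Pl
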