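import Pool.Agent.MP_fbbd83_al.Pl.Inv

/-! Jumps and the doubling step. -/

namespace Pool.Agent.MP_fbbd83_al.Pl

open RT

variable (ω : ℕ → Fin 3)

def jump (n : ℕ) (s : Fin 3) : Tr := evT ω (pw (Zw n ω [s]))

theorem jump_ball (n : ℕ) (s : Fin 3) : InBall ω (lenSum ω n) (jump ω n s).1 :=
  ⟨_, by rw [length_pw, length_Zw]; exact ell_tri ω n _, rfl⟩

variable {ω}

theorem jump_sec {n : ℕ} {s : Fin 3} (h : n = 0 ∨ col (ω (n - 1)) s = true) (u : Vx)
    (hu : u.length = n) : (jump ω n s).1 u = u ∧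
      (SecW ω n (jump ω n s) u [none, some s] ∨ SecW ω n (jump ω n s) u [some s, none]) := by
  have e : ((jump ω n s).1 : Vx → Vx) = run ω (pw (Zw n ω [s])) := funext (evP_apply ω _)
  have h1 := sec_Zw n ω s h u hu
  rw [← e] at h1
  have h2 : (jump ω n s).1 u = u := by
    rcases h1 with h1 | h1 <;> simpa [flipFun, genFun] using h1 []
  refine ⟨h2, ?_⟩
  rcases h1 with h1 | h1
  · left; intro v; rw [h1, h2]; rfl
  · right; intro v; rw [h1, h2]; rfl

theorem jump_lev {n : ℕ} {s : Fin 3} (h : n = 0 ∨ col (ω (n - 1)) s = true) :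
    LevT (jump ω n s) n := by
  refine ⟨fun u hu => (jump_sec h u hu).1, fun u hu => ?_⟩
  rcases (jump_sec h u hu).2 with h1 | h1 <;> rw [h1.act] <;> rfl

variable (ω) in
/-- the counts read off from words given at level `n` -/
def liftL (z : Fin 3) (g : Tr) (n : ℕ) (W : Vx → Word) (d : ℕ) : Lf :=
  ⟨g, fun y => cntA (dsec ω n (W (y.take n)) (y.drop n)),
    fun y => cB z (dsec ω n (W (y.take n)) (y.drop n)), d⟩

theorem liftL_rep {z : Fin 3} {g : Tr} {n M : ℕ} {W : Vx → Word} (d : ℕ) (hn : n ≤ M)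
    (h : ∀ u : Vx, u.length = n → SecW ω n g u (W u) ∨ SecW ω n g u []) :
    Rep ω z M (liftL ω z g n W d) := by
  intro y hy
  have hl : (y.take n).length = n := by simp; omega
  have e : n + (y.drop n).length = M := by simp; omega
  rcases h _ hl with h1 | h1
  · have := h1.dsec (y.drop n)
    rw [List.take_append_drop, e] at this
    exact ⟨_, this, le_rfl, le_rfl⟩
  · have := h1.dsec (y.drop n)
    rw [List.take_append_drop, e, dsec_nil] at this
    exact ⟨_, this, Nat.zero_le _, Nat.zero_le _⟩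

/-- every cylinder of level `m` has at most `r` letters of each kind -/
def CylB (m M : ℕ) (a : Lf) (r : ℕ) : Prop :=
  ∀ u : Vx, u.length = m → ∑ v ∈ LV (M - m), a.ka (u ++ v) ≤ r ∧ ∑ v ∈ LV (M - m), a.ks (u ++ v) ≤ r

theorem liftL_cyl {z : Fin 3} (g : Tr) {n P : ℕ} (W : Vx → Word) (d : ℕ) (hn : n ≤ P)
    (hz : inact (ω P) = z) (u : Vx) (hu : u.length = n) :
    ∑ v ∈ LV (P + 1 - n), (liftL ω z g n W d).ka (u ++ v) ≤ cB z (W u) ∧
      ∑ v ∈ LV (P + 1 - n), (liftL ω z g n W d).ks (u ++ v) ≤ cB z (W u) := by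
  simp only [liftL, List.take_left' hu, List.drop_left' hu]
  refine ⟨?_, sum_cB_dsec z _ n _⟩
  rw [show P + 1 - n = (P - n) + 1 by omega]
  exact sum_cntA_dsec z _ n _ (by rw [← hz]; congr 2; omega)

theorem cyl_mono {n m M : ℕ} (hn : n ≤ m) (hm : m ≤ M) (f : Vx → ℕ) (u : Vx) (hu : u.length = m) :
    ∑ v ∈ LV (M - m), f (u ++ v) ≤ ∑ v ∈ LV (M - n), f (u.take n ++ v) := by
  rw [show M - n = (m - n) + (M - m) by omega, sum_LV_add]
  have := Finset.single_le_sum (s := LV (m - n))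
    (f := fun y => ∑ v ∈ LV (M - m), f (u.take n ++ (y ++ v))) (fun _ _ => Nat.zero_le _)
    (a := u.drop n) (by rw [mem_LV]; simp; omega)
  simpa [← List.append_assoc] using this

theorem CylB.mono {n m M r : ℕ} {a : Lf} (h : CylB n M a r) (hn : n ≤ m) (hm : m ≤ M) :
    CylB m M a r := fun u hu =>
  have := h (u.take n) (by simp; omega)
  ⟨(cyl_mono hn hm a.ka u hu).trans this.1, (cyl_mono hn hm a.ks u hu).trans this.2⟩

theorem CylB.mul {m M r r' : ℕ} {a c : Lf} (ha : CylB m M a r) (hc : CylB m M c r') :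
    CylB m M (a.mul c) (r + r') := fun u hu => by
  simp only [Lf.mul, Finset.sum_add_distrib]
  rw [sum_cyl a.g u _ c.ka, sum_cyl a.g u _ c.ks]
  have h1 := ha u hu
  have h2 := hc (a.g.1 u) (by rw [tr_len, hu])
  omega

theorem CylB.le {m M r r' : ℕ} {a : Lf} (ha : CylB m M a r) (h : r ≤ r') : CylB m M a r' :=
  fun u hu => ⟨(ha u hu).1.trans h, (ha u hu).2.trans h⟩

theorem CylB.k {m M r : ℕ} {a : Lf} (ha : CylB m M a r) (u : Vx) (hu : u.length = m) :
    ∑ v ∈ LV (M - m), a.k (u ++ v) ≤ 2 * r := by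
  have := ha u hu
  simp only [Lf.k, Finset.sum_add_distrib]; omega

theorem CylB.pt {m M r : ℕ} {a : Lf} (ha : CylB m M a r) (hm : m ≤ M) (v : Vx)
    (hv : v.length = M) : a.k v ≤ 2 * r := by
  have := (ha.mono hm le_rfl).k v hv
  simpa [sum_LV_zero] using this

theorem cyl_up {b m M r : ℕ} (hb : b ≤ m) (hm : m ≤ M) (f : Vx → ℕ)
    (h : ∀ u : Vx, u.length = m → ∑ v ∈ LV (M - m), f (u ++ v) ≤ r) (u : Vx) (hu : u.length = b) :
    ∑ v ∈ LV (M - b), f (u ++ v) ≤ r * 2 ^ (m - b) := by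
  rw [show M - b = (m - b) + (M - m) by omega, sum_LV_add]
  refine (Finset.sum_le_sum (g := fun _ => r) fun y hy => ?_).trans ?_
  · simpa [List.append_assoc] using h (u ++ y) (by simp [mem_LV.1 hy]; omega)
  · simp [card_LV, mul_comm]

open Classical in
variable (ω) in
noncomputable def jumpL (z : Fin 3) (n : ℕ) (s : Fin 3) : Lf :=
  liftL ω z (jump ω n s) n
    (fun u => if SecW ω n (jump ω n s) u [none, some s] then [none, some s] else [some s, none]) 0

theorem jumpL_rep (z : Fin 3) {n M : ℕ} {s : Fin 3} (h : n = 0 ∨ col (ω (n - 1)) s = true)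
    (hn : n ≤ M) : Rep ω z M (jumpL ω z n s) :=
  liftL_rep 0 hn fun u hu => Or.inl (by
    split_ifs with h1
    · exact h1
    · exact (jump_sec h u hu).2.resolve_left h1)

theorem jumpL_cyl {z : Fin 3} {n P : ℕ} (s : Fin 3) (hn : n ≤ P) (hz : inact (ω P) = z) :
    CylB n (P + 1) (jumpL ω z n s) (if s = z then 0 else 1) := fun u hu => by
  have := liftL_cyl (jump ω n s) (fun u => by
    classical
    exact if SecW ω n (jump ω n s) u [none, some s] then [none, some s] else [some s, none])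
    0 hn hz u hu
  refine ⟨this.1.trans ?_, this.2.trans ?_⟩ <;> split_ifs <;> simp [cB, *]

theorem all_cube {z : Fin 3} {b m M r : ℕ} (L : List Lf)
    (hL : ∀ h ∈ L, St b h.g ∧ Rep ω z M h ∧ CylB m M h r ∧ h.dead = 0 ∧ ∃ n, InBall ω n h.g.1) :
    All (cubeT L) (fun a p => (St b a.g ∧ Rep ω z M a ∧ CylB m M a (r * L.length) ∧ a.dead = 0 ∧
      InBall ω ((L.map (fun h => wl ω h.g)).sum) a.g.1) ∧ p = []) := by
  refine all_cubeT (fun L a => St b a.g ∧ Rep ω z M a ∧ CylB m M a (r * L.length) ∧ a.dead = 0 ∧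
      InBall ω ((L.map (fun h => wl ω h.g)).sum) a.g.1) L ?_ ?_
  · exact ⟨St.one b, Rep.one z M, fun u _ => by simp [Lf.one], rfl, InBall.one ω _⟩
  · rintro h hh L a ⟨a1, a2, a3, a4, a5⟩
    obtain ⟨h1, h2, h3, h4, n, h5⟩ := hL h hh
    simp only [List.length_cons, List.map_cons, List.sum_cons]
    refine ⟨⟨a1, a2, a3.le (by nlinarith), a4, a5.mono (by omega)⟩,
      a1.mul h1, h2.mul a2, (h3.mul a3).le (by nlinarith), by simp [Lf.mul, a4, h4], ?_⟩
    rw [add_comm]
    exact a5.mul (wl_spec ω h5)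

theorem inv_cube {z : Fin 3} {b m M r c : ℕ} (U : Vx → Prop) (hb : b ≤ m) (hm : m ≤ M)
    (L : List Lf)
    (hL : ∀ h ∈ L, St b h.g ∧ Rep ω z M h ∧ CylB m M h r ∧ h.dead = 0 ∧ ∃ n, InBall ω n h.g.1)
    (hc : (L.map (fun h => wl ω h.g)).sum ≤ c) :
    Inv ω z b M U (cubeT L) 0 c ((r * L.length : ℕ) * 2 ^ (m - b)) (2 * (r * L.length : ℕ))
      (4 * (r * L.length : ℕ) ^ 2 * 2 ^ m) 0 := by
  have h := all_cube L hL
  generalize r * L.length = R at h
  refine ⟨h.mono fun a p hp => ?_, fun u hu => E_le_all (h.mono fun a p hp => ?_),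
    fun u hu => E_le_all (h.mono fun a p hp => ?_), fun v hv => E_le_all (h.mono fun a p hp => ?_),
    E_le_all (h.mono fun a p hp => ?_), E_le_all (h.mono fun a p hp => ?_)⟩
  · obtain ⟨⟨a1, a2, _, _, a5⟩, rfl⟩ := hp
    exact ⟨⟨a1, a2, Live.nil _ _ _ _⟩, rfl, a5.mono hc⟩
  · exact_mod_cast cyl_up hb hm a.ka (fun u hu => (hp.1.2.2.1 u hu).1) u hu
  · exact_mod_cast cyl_up hb hm a.ks (fun u hu => (hp.1.2.2.1 u hu).2) u hu
  · exact_mod_cast hp.1.2.2.1.pt hm v hv
  · have h1 := cyl_up (Nat.zero_le m) hm a.k hp.1.2.2.1.k [] rfl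
    have h2 : ∑ v ∈ LV M, Qn (a.k v) ≤ ∑ v ∈ LV M, 2 * R * a.k v :=
      Finset.sum_le_sum fun v hv => by
        have := hp.1.2.2.1.pt hm v (mem_LV.1 hv)
        unfold Qn; split_ifs
        · nlinarith
        · omega
    rw [← Finset.mul_sum] at h2
    simp only [Nat.sub_zero, List.nil_append] at h1
    have h3 : ∑ v ∈ LV M, Qn (a.k v) ≤ 4 * R ^ 2 * 2 ^ m :=
      h2.trans ((Nat.mul_le_mul_left _ h1).trans (le_of_eq (by ring)))
    exact_mod_cast h3
  · simp [hp.1.2.2.2.1]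

theorem cost_nodup (ns : List ℕ) (hn : ns.Nodup) {N : ℕ} (hN : ∀ n ∈ ns, n < N) (f : ℕ → ℕ)
    (hf : ∀ n ∈ ns, f n ≤ lenSum ω n) : (ns.map f).sum ≤ lenSum ω N := by
  have h1 : ∀ N, ∑ n ∈ Finset.range N, lenSum ω n ≤ lenSum ω N := by
    intro N
    induction N with
    | zero => simp
    | succ N ih => rw [Finset.sum_range_succ]; have := lenSum_two ω N; omega
  rw [← List.sum_toFinset f hn]
  refine (Finset.sum_le_sum fun n hn => hf n (List.mem_toFinset.1 hn)).trans
    ((Finset.sum_le_sum_of_subset fun n hn => ?_).trans (h1 N))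
  exact Finset.mem_range.2 (hN n (List.mem_toFinset.1 hn))

theorem good_levels {z : Fin 3} {m P : ℕ}
    (hwin : ∀ t, m ≤ t → t < P → ∃ t', t ≤ t' ∧ t' < t + 4 ∧ col (ω t') z = true) (G : ℕ)
    (hG : m + 4 * G ≤ P) : ∃ ns : List ℕ, ns.length = G ∧ ns.Nodup ∧
      ∀ n ∈ ns, m < n ∧ n ≤ m + 4 * G ∧ col (ω (n - 1)) z = true := by
  induction G with
  | zero => exact ⟨[], rfl, List.nodup_nil, by simp⟩
  | succ G ih =>
    obtain ⟨ns, h1, h2, h3⟩ := ih (by omega)
    obtain ⟨t, t1, t2, t3⟩ := hwin (m + 4 * G) (by omega) (by omega)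
    refine ⟨(t + 1) :: ns, by simp [h1], List.nodup_cons.2 ⟨fun hm => ?_, h2⟩, fun n hn => ?_⟩
    · have := h3 _ hm; omega
    · rcases List.mem_cons.1 hn with rfl | hn
      · exact ⟨by omega, by omega, by simpa using t3⟩
      · have := h3 n hn
        exact ⟨this.1, by omega, this.2.2⟩

theorem forall2_jump (z : Fin 3) (ns : List ℕ) (s : ℕ → Fin 3)
    (h : ∀ n ∈ ns, n = 0 ∨ col (ω (n - 1)) (s n) = true) :
    List.Forall₂ LevT ((ns.map (fun n => jumpL ω z n (s n))).map Lf.g) ns := by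
  rw [List.map_map, List.forall₂_map_left_iff, List.forall₂_same]
  exact fun n hn => jump_lev (h n hn)

theorem jumps_ok {z : Fin 3} {b m P r : ℕ} (hz : inact (ω P) = z) (hm : m ≤ P + 1) (ns : List ℕ)
    (s : ℕ → Fin 3)
    (h : ∀ n ∈ ns, b ≤ n ∧ n ≤ m ∧ n ≤ P ∧ (n = 0 ∨ col (ω (n - 1)) (s n) = true) ∧
      (if s n = z then 0 else 1) ≤ r) :
    ∀ h ∈ ns.map (fun n => jumpL ω z n (s n)), St b h.g ∧ Rep ω z (P + 1) h ∧
      CylB m (P + 1) h r ∧ h.dead = 0 ∧ ∃ n, InBall ω n h.g.1 := by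
  intro x hx
  obtain ⟨n, hn, rfl⟩ := List.mem_map.1 hx
  obtain ⟨h1, h2, h3, h4, h5⟩ := h n hn
  exact ⟨(jump_lev h4).1.mono h1, jumpL_rep z h4 (by omega),
    ((jumpL_cyl (s n) h3 hz).mono h2 hm).le h5, rfl, _, jump_ball ω n (s n)⟩

theorem jumps_cost (z : Fin 3) (ns : List ℕ) (s : ℕ → Fin 3) (hn : ns.Nodup) {N : ℕ}
    (hN : ∀ n ∈ ns, n < N) :
    ((ns.map (fun n => jumpL ω z n (s n))).map (fun h => wl ω h.g)).sum ≤ lenSum ω N := by
  rw [List.map_map]
  exact cost_nodup ns hn hN _ fun n _ => wl_le ω (jump_ball ω n (s n))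

theorem double {z : Fin 3} {b m G P : ℕ} {U : Vx → Prop} (hz : inact (ω P) = z)
    (hwin : ∀ t, m ≤ t → t < P → ∃ t', t ≤ t' ∧ t' < t + 4 ∧ col (ω t') z = true)
    (hb : b ≤ m) (hG : m + 4 * G ≤ P) {t : RT Lf} {n c : ℕ} {μ σ ι δ : ℝ}
    (h : Inv ω z b (P + 1) U t n c μ σ ι δ) :
    ∃ t', Inv ω z b (P + 1) U t' (2 * n) (2 * c + 2 * lenSum ω (m + 4 * G + 1))
      (2 * μ + (m - b : ℕ) * 2 ^ (m - b))
      (σ + ((1 / 2) ^ G * (2 * (m - b : ℕ)) + (1 / 2) ^ (G + (m - b)) * (2 * μ)))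
      (2 * ι + 4 * (m - b : ℕ) ^ 2 * 2 ^ m + 8 * (2 ^ b * ((m - b : ℕ) * 2 ^ (m - b))) * σ +
        8 * (2 ^ b * μ) * ((1 / 2) ^ G * (2 * (m - b : ℕ)) + (1 / 2) ^ (G + (m - b)) * (2 * μ)))
      (2 * δ) := by
  obtain ⟨gs, g1, g2, g3⟩ := good_levels hwin G hG
  set bs := List.range' b (m - b) with hbs
  have b2 : bs.Nodup := List.nodup_range'
  have b3 : ∀ n ∈ bs, b ≤ n ∧ n < m := fun n hn => by
    rw [hbs, List.mem_range'_1] at hn; omega
  have hM : b ≤ P + 1 := by omega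
  have okG := jumps_ok (b := b) (r := 0) hz le_rfl gs (fun _ => z) (fun n hn => by
    have := g3 n hn
    exact ⟨by omega, by omega, by omega, Or.inr this.2.2, by simp⟩)
  have okB := jumps_ok (b := b) (m := m) (r := 1) hz (by omega) bs (sel ω) (fun n hn => by
    have := b3 n hn
    exact ⟨by omega, by omega, by omega, Or.inr (col_sel ω n), by split_ifs <;> omega⟩)
  have iG := inv_cube U hM le_rfl _ okG
    (jumps_cost z gs (fun _ => z) g2 (N := m + 4 * G + 1) (fun n hn => by have := g3 n hn; omega))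
  have iB := inv_cube U hb (by omega) _ okB
    (jumps_cost z bs (sel ω) b2 (N := m + 4 * G + 1) (fun n hn => by have := b3 n hn; omega))
  have aB := all_cube _ okB
  have lG := forall2_jump z gs (fun _ => z) (fun n hn => Or.inr (g3 n hn).2.2)
  have lB := forall2_jump z bs (sel ω) (fun n _ => Or.inr (col_sel ω n))
  have hlen : bs.length = m - b := by simp [hbs]
  simp only [List.length_map, hlen, one_mul, zero_mul, Nat.cast_zero, mul_zero] at iG iB aB
  generalize bs.map (fun n => jumpL ω z n (sel ω n)) = LB at iB aB lB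
  generalize gs.map (fun n => jumpL ω z n z) = LG at iG lG
  have i1 := iB.prod' hM h
  have i2 := iG.prod hM i1
    (τ := (1 / 2) ^ G * (2 * (m - b : ℕ)) + (1 / 2) ^ (G + (m - b)) * (2 * μ)) (fun v hv => by
      simp only [E_prod, Lf.k_mul, Nat.cast_add, E_add, E_const]
      refine add_le_add ?_ ?_
      · rw [E_cubeT LG (fun y => E (cubeT LB) (fun a => (a.k y : ℝ))) v]
        refine (cube_le (b := m) (t := P + 1 - m) lG g2 (fun n hn => by have := g3 n hn; omega) _
          (fun y => E_nonneg _ fun a => by positivity) v (by omega)).trans ?_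
        rw [g1, ← E_sum]
        apply mul_le_mul_of_nonneg_left _ (by positivity)
        refine E_le_all (aB.mono fun a p hp => ?_)
        exact_mod_cast hp.1.2.2.1.k (v.take m) (by simp; omega)
      · have e : ∀ y, E (cubeT LB) (fun a => E t (fun x => (x.k (a.g.1 y) : ℝ))) =
            mkL (LB.map Lf.g) (fun y => E t (fun x => (x.k y : ℝ))) y :=
          fun y => E_cubeT LB (fun y => E t (fun x => (x.k y : ℝ))) y
        simp only [e]
        rw [E_cubeT LG (mkL (LB.map Lf.g) (fun y => E t (fun x => (x.k y : ℝ)))) v, ← mkL_append]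
        refine (cube_le (b := b) (t := P + 1 - b) (List.rel_append lG lB) ?_ ?_ _
          (fun y => E_nonneg _ fun a => by positivity) v (by omega)).trans ?_
        · refine List.nodup_append.2 ⟨g2, b2, fun x hx y hy => ?_⟩
          have := g3 x hx; have := b3 y hy; omega
        · intro n hn
          rcases List.mem_append.1 hn with hn | hn
          · have := g3 n hn; omega
          · have := b3 n hn; omega
        · rw [List.length_append, g1, hlen]
          exact mul_le_mul_of_nonneg_left (h.cyl _ (by simp; omega)) (by positivity))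
  have i3 := h.prod' hM i2
  rw [show 2 * n = n + (0 + (0 + n)) by ring]
  refine ⟨_, i3.mono (by omega) ?_ ?_ ?_ ?_⟩ <;> apply le_of_eq <;> ring

end Pool.Agent.MP_fbbd83_al.Pl
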