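import Pool.Agent.MP_fbbd83_al.Pl.Cube

/-! The invariants of a random element and their behaviour under independent products. -/

namespace Pool.Agent.MP_fbbd83_al.Pl

open RT

variable (ω : ℕ → Fin 3)

def Rep (z : Fin 3) (M : ℕ) (a : Lf) : Prop :=
  ∀ u : Vx, u.length = M → ∃ w, SecW ω M a.g u w ∧ cntA w ≤ a.ka u ∧ cB z w ≤ a.ks u

def Live (b M : ℕ) (U : Vx → Prop) (a : Lf) (p : Path) : Prop :=
  ∃ q : Path, q.Sublist p ∧ p.length ≤ q.length + a.dead ∧
    (∀ F : Vx → ℕ, (q.map (fun e => F e.1)).sum ≤ ∑ u ∈ LV M, a.ka u * F u) ∧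
    ∀ e ∈ q, e.1.length = M ∧ U (e.1.take b) ∧ (a.k e.1 ≤ 1 → actF a.g.1 e.1 = e.2)

def PW (z : Fin 3) (b M : ℕ) (U : Vx → Prop) (a : Lf) (p : Path) : Prop :=
  St b a.g ∧ Rep ω z M a ∧ Live b M U a p

variable {ω}

theorem Rep.one (z : Fin 3) (M : ℕ) : Rep ω z M Lf.one :=
  fun u _ => ⟨[], SecW.one M u, le_rfl, le_rfl⟩

theorem Rep.mul {z : Fin 3} {M : ℕ} {a c : Lf} (ha : Rep ω z M a) (hc : Rep ω z M c) :
    Rep ω z M (a.mul c) := fun u hu => by
  obtain ⟨w, h1, h2, h3⟩ := ha u hu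
  obtain ⟨w', h4, h5, h6⟩ := hc (a.g.1 u) (by rw [tr_len, hu])
  exact ⟨w ++ w', h1.mul h4, by rw [cntA_append]; exact Nat.add_le_add h2 h5,
    by rw [cB_append]; exact Nat.add_le_add h3 h6⟩

theorem Rep.act {z : Fin 3} {M : ℕ} {a : Lf} (ha : Rep ω z M a) {u : Vx} (hu : u.length = M)
    (h : a.ka u = 0) : actF a.g.1 u = false := by
  obtain ⟨w, h1, h2, _⟩ := ha u hu
  rw [h1.act, par_of_cntA w (by omega)]

theorem Live.nil (b M : ℕ) (U : Vx → Prop) (a : Lf) : Live b M U a [] :=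
  ⟨[], List.Sublist.refl _, by simp, by simp, by simp⟩

theorem one_le_ka {M : ℕ} {ka : Vx → ℕ} {q : Path}
    (h : ∀ F : Vx → ℕ, (q.map (fun e => F e.1)).sum ≤ ∑ u ∈ LV M, ka u * F u) {e : Vx × Bool}
    (he : e ∈ q) : 1 ≤ ka e.1 := by
  have h1 := h (fun u => if u = e.1 then 1 else 0)
  have h2 : 1 ≤ (q.map (fun e' => if e'.1 = e.1 then 1 else 0)).sum := by
    have := List.single_le_sum (l := q.map (fun e' => if e'.1 = e.1 then 1 else 0))
      (fun _ _ => Nat.zero_le _) 1 (List.mem_map.2 ⟨e, he, by simp⟩)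
    exact this
  simp only [mul_ite, mul_one, mul_zero, Finset.sum_ite_eq'] at h1
  split_ifs at h1 <;> omega

theorem PW.mul {z : Fin 3} {b M : ℕ} {U : Vx → Prop} (hb : b ≤ M) {a c : Lf} {p q : Path}
    (ha : PW ω z b M U a p) (hc : PW ω z b M U c q) :
    PW ω z b M U (a.mul c) (p ++ rl (fun u => (a.g⁻¹).1 u) q) := by
  obtain ⟨a1, a2, p', a3, a4, a5, a6⟩ := ha
  obtain ⟨c1, c2, q', c3, c4, c5, c6⟩ := hc
  refine ⟨c1.mul a1, a2.mul c2, p' ++ rl (fun u => (a.g⁻¹).1 u) q',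
    a3.append (c3.map _), ?_, fun F => ?_, fun e he => ?_⟩
  · simp only [rl, List.length_append, List.length_map, Lf.mul]; omega
  · have h1 := a5 F
    have h2 := c5 (fun u => F ((a.g⁻¹).1 u))
    rw [← sum_level a.g] at h2
    simp only [tr_inv_ap] at h2
    simp only [rl, List.map_append, List.sum_append, List.map_map, Lf.mul, add_mul,
      Finset.sum_add_distrib]
    exact Nat.add_le_add h1 h2
  · rcases List.mem_append.1 he with he | he
    · obtain ⟨h1, h2, h3⟩ := a6 e he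
      refine ⟨h1, h2, fun hk => ?_⟩
      have h4 := one_le_ka a5 he
      rw [Lf.k_mul] at hk
      have h5 : c.ka (a.g.1 e.1) = 0 := by simp only [Lf.k] at hk; omega
      show actF (c.g * a.g).1 e.1 = e.2
      rw [actF_mul, c2.act (by rw [tr_len, h1]) h5, h3 (by omega)]; simp
    · obtain ⟨e', he', rfl⟩ := List.mem_map.1 he
      obtain ⟨h1, h2, h3⟩ := c6 e' he'
      have hl : ((a.g⁻¹).1 e'.1).length = M := by rw [tr_len, h1]
      refine ⟨hl, by rw [a1.inv.take (by omega)]; exact h2, fun hk => ?_⟩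
      have h4 := one_le_ka c5 he'
      rw [Lf.k_mul, tr_ap_inv] at hk
      have h5 : a.ka ((a.g⁻¹).1 e'.1) = 0 := by simp only [Lf.k] at hk; omega
      show actF (c.g * a.g).1 _ = e'.2
      rw [actF_mul, a2.act hl h5, tr_ap_inv, h3 (by omega)]; simp

/-- impurity of a count -/
def Qn (k : ℕ) : ℕ := if 2 ≤ k then k ^ 2 else 0

theorem Qn_add (k l : ℕ) : Qn (k + l) ≤ Qn k + Qn l + 4 * (k * l) := by
  unfold Qn
  split_ifs with h1 h2 h3 h3
  · nlinarith
  · have : l = 0 ∨ l = 1 := by omega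
    rcases this with rfl | rfl <;> nlinarith
  · have : k = 0 ∨ k = 1 := by omega
    rcases this with rfl | rfl <;> nlinarith
  · have : k = 1 ∧ l = 1 := by omega
    obtain ⟨rfl, rfl⟩ := this; norm_num
  all_goals omega

variable (ω) in
structure Inv (z : Fin 3) (b M : ℕ) (U : Vx → Prop) (t : RT Lf) (n c : ℕ) (μ σ ι δ : ℝ) : Prop where
  pw : All t (fun a p => PW ω z b M U a p ∧ p.length = n ∧ InBall ω c a.g.1)
  ma : ∀ u : Vx, u.length = b → E t (fun a => ∑ v ∈ LV (M - b), (a.ka (u ++ v) : ℝ)) ≤ μ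
  ms : ∀ u : Vx, u.length = b → E t (fun a => ∑ v ∈ LV (M - b), (a.ks (u ++ v) : ℝ)) ≤ μ
  sup : ∀ v : Vx, v.length = M → E t (fun a => (a.k v : ℝ)) ≤ σ
  imp : E t (fun a => ∑ v ∈ LV M, (Qn (a.k v) : ℝ)) ≤ ι
  dead : E t (fun a => (a.dead : ℝ)) ≤ δ

variable {z : Fin 3} {b M : ℕ} {U : Vx → Prop}

theorem Inv.mono {t : RT Lf} {n c c' : ℕ} {μ σ ι δ μ' σ' ι' δ' : ℝ}
    (h : Inv ω z b M U t n c μ σ ι δ) (hc : c ≤ c') (hμ : μ ≤ μ') (hσ : σ ≤ σ') (hι : ι ≤ ι')
    (hδ : δ ≤ δ') : Inv ω z b M U t n c' μ' σ' ι' δ' :=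
  ⟨h.pw.mono fun _ _ hp => ⟨hp.1, hp.2.1, hp.2.2.mono hc⟩, fun u hu => (h.ma u hu).trans hμ,
    fun u hu => (h.ms u hu).trans hμ, fun v hv => (h.sup v hv).trans hσ, h.imp.trans hι,
    h.dead.trans hδ⟩

theorem Inv.cyl {t : RT Lf} {n c : ℕ} {μ σ ι δ : ℝ} (h : Inv ω z b M U t n c μ σ ι δ)
    (u : Vx) (hu : u.length = b) :
    ∑ v ∈ LV (M - b), E t (fun a => (a.k (u ++ v) : ℝ)) ≤ 2 * μ := by
  have h1 := h.ma u hu
  have h2 := h.ms u hu
  rw [← E_sum]
  simp only [Lf.k, Nat.cast_add, Finset.sum_add_distrib, E_add]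
  linarith

theorem Inv.tot {t : RT Lf} {n c : ℕ} {μ σ ι δ : ℝ} (h : Inv ω z b M U t n c μ σ ι δ)
    (hb : b ≤ M) : E t (fun a => ∑ v ∈ LV M, (a.k v : ℝ)) ≤ 2 ^ b * (2 * μ) := by
  rw [E_sum]
  conv_lhs => rw [show M = b + (M - b) by omega, sum_LV_add]
  refine (Finset.sum_le_sum (fun u hu => h.cyl u (mem_LV.1 hu))).trans ?_
  simp [card_LV]

theorem Inv.prod (hb : b ≤ M) {s t : RT Lf} {n c n' c' : ℕ} {μ σ ι δ μ' σ' ι' δ' τ : ℝ}
    (hs : Inv ω z b M U s n c μ σ ι δ) (ht : Inv ω z b M U t n' c' μ' σ' ι' δ')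
    (hτ : ∀ v : Vx, v.length = M → E s (fun a => E t (fun x => (x.k (a.g.1 v) : ℝ))) ≤ τ) :
    Inv ω z b M U (prod s t) (n + n') (c + c') (μ + μ') (σ + τ)
      (ι + ι' + 4 * (2 ^ b * (2 * μ)) * σ') (δ + δ') := by
  have key : ∀ (f : Lf → Vx → ℕ), (∀ a x u, f (a.mul x) u = f a u + f x (a.g.1 u)) →
      (∀ u : Vx, u.length = b → E s (fun a => ∑ v ∈ LV (M - b), (f a (u ++ v) : ℝ)) ≤ μ) →
      (∀ u : Vx, u.length = b → E t (fun a => ∑ v ∈ LV (M - b), (f a (u ++ v) : ℝ)) ≤ μ') →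
      ∀ u : Vx, u.length = b →
        E (Pl.prod s t) (fun a => ∑ v ∈ LV (M - b), (f a (u ++ v) : ℝ)) ≤ μ + μ' := by
    intro f hf h1 h2 u hu
    rw [E_prod]
    simp only [hf, Nat.cast_add, Finset.sum_add_distrib, E_add, E_const]
    refine add_le_add (h1 u hu) (E_le s fun a => ?_)
    have e : ∀ x : Lf, ∑ v ∈ LV (M - b), (f x (a.g.1 (u ++ v)) : ℝ) =
        ∑ v ∈ LV (M - b), (f x (a.g.1 u ++ v) : ℝ) :=
      fun x => sum_cyl a.g u (M - b) (fun y => ((f x y : ℕ) : ℝ))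
    simp only [e]
    exact h2 _ (by rw [tr_len, hu])
  refine ⟨all_prod hs.pw ht.pw fun a p x q h1 h2 => ⟨h1.1.mul hb h2.1, ?_, ?_⟩,
    key Lf.ka (fun _ _ _ => rfl) hs.ma ht.ma, key Lf.ks (fun _ _ _ => rfl) hs.ms ht.ms,
    fun v hv => ?_, ?_, ?_⟩
  · simp [rl, h1.2.1, h2.2.1]
  · rw [add_comm]; exact h2.2.2.mul h1.2.2
  · rw [E_prod]
    simp only [Lf.k_mul, Nat.cast_add, E_add, E_const]
    exact add_le_add (hs.sup v hv) (hτ v hv)
  · rw [E_prod]
    have hσ : 0 ≤ σ' := (E_nonneg t fun a => by positivity).trans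
      (ht.sup (List.replicate M false) (by simp))
    have h1 : ∀ a : Lf, E t (fun x => ∑ v ∈ LV M, (Qn ((a.mul x).k v) : ℝ)) ≤
        ∑ v ∈ LV M, (Qn (a.k v) : ℝ) + ι' + 4 * σ' * ∑ v ∈ LV M, (a.k v : ℝ) := by
      intro a
      have h2 : ∀ x : Lf, ∑ v ∈ LV M, (Qn ((a.mul x).k v) : ℝ) ≤
          ∑ v ∈ LV M, (Qn (a.k v) : ℝ) + ∑ v ∈ LV M, (Qn (x.k v) : ℝ) +
            ∑ v ∈ LV M, (4 * a.k v : ℝ) * x.k (a.g.1 v) := by
        intro x
        rw [← sum_level a.g M (fun v => (Qn (x.k v) : ℝ)), ← Finset.sum_add_distrib,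
          ← Finset.sum_add_distrib]
        refine Finset.sum_le_sum fun v _ => ?_
        rw [Lf.k_mul]
        have := Qn_add (a.k v) (x.k (a.g.1 v))
        rw [mul_assoc]
        exact_mod_cast this
      refine (E_mono t h2).trans ?_
      rw [E_add, E_add, E_const, E_sum t (LV M) (fun v x => (4 * a.k v : ℝ) * x.k (a.g.1 v)),
        Finset.mul_sum]
      refine add_le_add (add_le_add le_rfl ht.imp) (Finset.sum_le_sum fun v hv => ?_)
      rw [E_mul]
      have := ht.sup (a.g.1 v) (by rw [tr_len, mem_LV.1 hv])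
      have h0 : (0 : ℝ) ≤ 4 * a.k v := by positivity
      nlinarith
    refine (E_mono s h1).trans ?_
    rw [E_add, E_add, E_const, E_mul]
    have := mul_le_mul_of_nonneg_left (hs.tot hb) (show 0 ≤ 4 * σ' by positivity)
    have := hs.imp
    nlinarith
  · rw [E_prod]
    simp only [Lf.mul, Nat.cast_add, E_add, E_const]
    exact add_le_add hs.dead ht.dead

theorem Inv.prod' (hb : b ≤ M) {s t : RT Lf} {n c n' c' : ℕ} {μ σ ι δ μ' σ' ι' δ' : ℝ}
    (hs : Inv ω z b M U s n c μ σ ι δ) (ht : Inv ω z b M U t n' c' μ' σ' ι' δ') :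
    Inv ω z b M U (Pl.prod s t) (n + n') (c + c') (μ + μ') (σ + σ')
      (ι + ι' + 4 * (2 ^ b * (2 * μ)) * σ') (δ + δ') :=
  hs.prod hb ht fun v hv => E_le s fun a => ht.sup _ (by rw [tr_len, hv])

theorem countP_le_sum (q : Path) (P : Vx × Bool → Bool) (F : Vx → ℕ)
    (h : ∀ e ∈ q, P e = true → 1 ≤ F e.1) : q.countP P ≤ (q.map (fun e => F e.1)).sum := by
  induction q with
  | nil => simp
  | cons e q ih =>
    have ih := ih (fun e he => h e (List.mem_cons_of_mem _ he))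
    have := h e List.mem_cons_self
    rw [List.countP_cons, List.map_cons, List.sum_cons]
    split_ifs with h1
    · have := this h1; omega
    · omega

theorem countP_sublist {p q : Path} (h : q.Sublist p) (P : Vx × Bool → Bool) :
    p.countP P + q.length ≤ q.countP P + p.length := by
  induction h with
  | slnil => simp
  | cons e _ ih => rw [List.countP_cons, List.length_cons]; split_ifs <;> omega
  | cons_cons e _ ih => simp only [List.countP_cons, List.length_cons]; omega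

theorem impure_le {a : Lf} {q : Path}
    (h : ∀ F : Vx → ℕ, (q.map (fun e => F e.1)).sum ≤ ∑ u ∈ LV M, a.ka u * F u)
    (P : Vx × Bool → Bool) (hP : ∀ e ∈ q, P e = true → 2 ≤ a.k e.1) :
    q.countP P ≤ ∑ v ∈ LV M, Qn (a.k v) := by
  refine (countP_le_sum q P (fun u => if 2 ≤ a.k u then 1 else 0)
    (fun e he h1 => by simp [hP e he h1])).trans
    ((h (fun u => if 2 ≤ a.k u then 1 else 0)).trans (Finset.sum_le_sum fun v _ => ?_))
  unfold Qn
  split_ifs with h1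
  · have : a.ka v ≤ a.k v := Nat.le_add_right _ _
    nlinarith
  · simp

theorem Inv.growth {t : RT Lf} {n c : ℕ} {μ σ ι δ : ℝ} (h : Inv ω z b M U t n c μ σ ι δ) :
    Real.exp (n * Real.log (8 / 5) - Real.log 4 * (ι + δ)) ≤ growth (gens ω) c := by
  classical
  have hl : 0 ≤ Real.log 4 := Real.log_nonneg (by norm_num)
  have h1 := entropy (fun a : Lf => a.g.1) (fun g u => actF g u) (ball_finite ω c).toFinset t n
    (fun a => ∑ v ∈ LV M, (Qn (a.k v) : ℝ) + a.dead) (h.pw.mono fun a p hp => by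
      obtain ⟨⟨_, _, q, a3, a4, a5, a6⟩, h2, h3⟩ := hp
      refine ⟨by simpa using h3, h2, ?_⟩
      have b1 := countP_sublist a3 (fun e => actF a.g.1 e.1 != e.2)
      have b2 := impure_le a5 (fun e => actF a.g.1 e.1 != e.2) (fun e he h1 => by
        by_contra hc
        have := (a6 e he).2.2 (by omega)
        simp [this] at h1)
      have : p.countP (fun e => actF a.g.1 e.1 != e.2) ≤ ∑ v ∈ LV M, Qn (a.k v) + a.dead := by
        omega
      exact_mod_cast this)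
  rw [E_add] at h1
  rw [growth_eq, Set.ncard_eq_toFinset_card _ (ball_finite ω c)]
  refine le_trans (Real.exp_le_exp.2 ?_) h1
  have := mul_le_mul_of_nonneg_left (add_le_add h.imp h.dead) hl
  linarith

end Pool.Agent.MP_fbbd83_al.Pl
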