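import Pool.Agent.MP_fbbd83_al.Pl.Phase
import Pool.Agent.MP_fbbd83_al.Pl.ConvT

/-! The lower bound for sequences with long runs of all symbols. -/

namespace Pool.Agent.MP_fbbd83_al.Pl

open RT

variable {ω : ℕ → Fin 3}

def Stage (ph : Ph ω) (θ : ℝ) (d i : ℕ) (t : RT Lf) (c : ℕ) : Prop :=
  Inv ω ph.z ph.b (ph.P + 1) ph.U t (2 ^ i) c ((1 + i * θ + 2 * d ^ 2 * θ) * 2 ^ i / 2 ^ ph.hb)
    (4 + i * θ) (i * θ * 2 ^ i) (d ^ 2 * θ * 2 ^ i)

theorem stage_zero (ph : Ph ω) (h1 : ph.b = 0) (h2 : ph.hb = 0) (h3 : ph.U = fun _ => True)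
    (θ : ℝ) : ∃ t, Stage ph θ 0 0 t 1 := by
  have hz := ph.run 0 (by omega)
  rw [add_zero] at hz
  unfold Stage
  rw [h1, h2, h3]
  generalize ph.P = P at *
  generalize ph.z = z at *
  have f : ∀ z : Fin 3, z + 1 ≠ z := by decide
  have hc : col (ω P) (z + 1) = true := by rw [col_iff, hz]; exact f z
  set u0 : Vx := List.replicate P true ++ [false] with hu0
  have hd : dsec ω 0 [some (z + 1)] u0 = [none] := by
    rw [hu0, dsec_append, dsec_true, List.length_replicate, zero_add]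
    simp [dsec, sec, hc, red, push]
  have hl : u0.length = P + 1 := by simp [hu0]
  have hk : ∀ g v, (liftL ω z g 0 (fun _ => [some (z + 1)]) 0).k v ≤ 1 := by
    intro g v
    have h1 := length_dsec (ω := ω) v 0 [some (z + 1)] trivial
    have h2 := cnt_le_length z (dsec ω 0 [some (z + 1)] v)
    have h3 : 0 < 2 ^ v.length := by positivity
    have h4 : (dsec ω 0 [some (z + 1)] v).length - 1 = 0 := by
      by_contra hc
      have := Nat.mul_pos h3 (Nat.pos_of_ne_zero hc)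
      simp only [List.length_singleton] at h1; omega
    simp only [Lf.k, liftL, List.drop_zero]; omega
  have hlive : ∀ g ε, actF (g : Tr).1 u0 = ε →
      Live 0 (P + 1) (fun _ => True) (liftL ω z g 0 (fun _ => [some (z + 1)]) 0) [(u0, ε)] := by
    intro g ε hg
    refine ⟨_, List.Sublist.refl _, by simp, fun F => ?_, by
      simp only [List.mem_singleton, forall_eq]; exact ⟨hl, trivial, fun _ => hg⟩⟩
    have := Finset.single_le_sum (s := LV (P + 1))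
      (f := fun u => (liftL ω z g 0 (fun _ => [some (z + 1)]) 0).ka u * F u)
      (fun _ _ => Nat.zero_le _) (mem_LV.2 hl)
    simpa [liftL, hd, cntA] using this
  have hcyl := fun g => liftL_cyl g (fun _ => [some (z + 1)]) 0 (Nat.zero_le P) hz [] rfl
  have hcb : cB z [some (z + 1)] = 1 := by simp [cB, f]
  rw [hcb] at hcyl
  have s1 := secW_evT ω [some (z + 1)]
  refine ⟨.node (some u0) (.leaf (liftL ω z 1 0 (fun _ => [some (z + 1)]) 0))
    (.leaf (liftL ω z (evT ω [some (z + 1)]) 0 (fun _ => [some (z + 1)]) 0)),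
    ⟨⟨⟨St.zero _, liftL_rep 0 (by omega) fun u _ => Or.inr (SecW.one 0 u), hlive _ _ ?_⟩, rfl,
      InBall.one ω 1⟩, ⟨St.zero _, liftL_rep 0 (by omega) fun u hu => Or.inl ?_, hlive _ _ ?_⟩, rfl,
      ⟨_, le_rfl, rfl⟩⟩, fun u hu => E_le_all ⟨?_, ?_⟩, fun u hu => E_le_all ⟨?_, ?_⟩,
      fun v _ => E_le_all ⟨?_, ?_⟩, E_le_all ⟨?_, ?_⟩, E_le_all ⟨?_, ?_⟩⟩
  · exact (SecW.one (ω := ω) 0 u0).act
  · rw [List.length_eq_zero_iff.1 hu]; exact s1
  · have := (s1.dsec u0).act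
    rw [hd] at this; exact this
  all_goals simp only [All, Nat.cast_zero, zero_mul, pow_zero]
  · rw [List.length_eq_zero_iff.1 hu]; norm_num; exact_mod_cast (hcyl _).1
  · rw [List.length_eq_zero_iff.1 hu]; norm_num; exact_mod_cast (hcyl _).1
  · rw [List.length_eq_zero_iff.1 hu]; norm_num; exact_mod_cast (hcyl _).2
  · rw [List.length_eq_zero_iff.1 hu]; norm_num; exact_mod_cast (hcyl _).2
  · norm_num; exact_mod_cast (hk _ v).trans (by norm_num)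
  · norm_num; exact_mod_cast (hk _ v).trans (by norm_num)
  · refine le_of_eq (Finset.sum_eq_zero fun v _ => ?_)
    unfold Qn; rw [if_neg (by have := hk 1 v; omega)]; simp
  · refine le_of_eq (Finset.sum_eq_zero fun v _ => ?_)
    unfold Qn; rw [if_neg (by have := hk (evT ω [some (z + 1)]) v; omega)]; simp
  · simp [liftL]
  · simp [liftL]

theorem small {K : ℕ} {θ : ℝ} (h0 : 0 ≤ θ) (hθ : K ^ 2 * θ ≤ 1 / 16) {i : ℕ} (hi : i ≤ K) :
    i * θ ≤ 1 / 16 ∧ i ^ 2 * θ ≤ 1 / 16 := by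
  have h1 : i ≤ K ^ 2 := hi.trans (Nat.le_self_pow (by norm_num) K)
  have h2 : i ^ 2 ≤ K ^ 2 := Nat.pow_le_pow_left hi 2
  have h1' : (i : ℝ) ≤ K ^ 2 := by exact_mod_cast h1
  have h2' : (i : ℝ) ^ 2 ≤ K ^ 2 := by exact_mod_cast h2
  exact ⟨(mul_le_mul_of_nonneg_right h1' h0).trans hθ, (mul_le_mul_of_nonneg_right h2' h0).trans hθ⟩

theorem stage_step (ph : Ph ω) {K Λ d i c : ℕ} {θ : ℝ} (hθ : θ = 128 * K ^ 2 * (1 / 2) ^ Λ)
    (hs : K ^ 2 * θ ≤ 1 / 16) (hd : d ≤ i) (hi : i < K) (hP : i + (7 * Λ + 4) ≤ ph.P)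
    (hb : ph.b ≤ d + (7 * Λ + 4) + 1) {t : RT Lf} (h : Stage ph θ d i t c) :
    ∃ t', Stage ph θ d (i + 1) t' (2 * c + 2 * lenSum ω (i + (7 * Λ + 4) + 2)) := by
  have b1 := ph.hb1; have b2 := ph.hb2; have b3 := ph.hbP
  have hz := ph.run 0 (by omega)
  rw [add_zero] at hz
  obtain ⟨m, hm⟩ : ∃ m, m = max ph.b (i - Λ) := ⟨_, rfl⟩
  obtain ⟨G, hG⟩ : ∃ G, G = i + Λ + 1 - m := ⟨_, rfl⟩
  obtain ⟨t', h'⟩ := double (m := m) (G := G) hz (fun t h1 h2 => ph.win t (by omega) h2) (by omega)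
    (by omega) h
  have h0 : 0 ≤ θ := by rw [hθ]; positivity
  obtain ⟨s1, -⟩ := small h0 hs hi.le
  obtain ⟨-, s2⟩ := small h0 hs (hd.trans hi.le)
  set η : ℝ := (1 / 2) ^ Λ with hη
  have η0 : 0 < η := by positivity
  have K1 : (1 : ℝ) ≤ K := by exact_mod_cast (show 1 ≤ K by omega)
  set R : ℝ := ((m - ph.b : ℕ) : ℝ) with hR
  have R0 : 0 ≤ R := by positivity
  have RK : R ≤ K := by rw [hR]; exact_mod_cast (show m - ph.b ≤ K by omega)
  have fA : R * 2 ^ m ≤ K * η * 2 ^ i := by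
    by_cases h : m = ph.b
    · rw [hR, h]; simp; positivity
    · rw [show i = Λ + m by omega, pow_add, hη, mul_assoc, ← mul_assoc ((1 / 2 : ℝ) ^ Λ), ← mul_pow]
      norm_num
      exact RK
  have fB : (1 / 2) ^ G * R ≤ K * η := by
    by_cases h : m = ph.b
    · rw [hR, h]; simp; positivity
    · rw [mul_comm]
      exact mul_le_mul RK (pow_le_pow_of_le_one (by norm_num) (by norm_num) (by omega))
        (by positivity) (by positivity)
  have fC : (1 / 2) ^ (G + (m - ph.b)) * (2 ^ i / 2 ^ ph.hb) ≤ η := by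
    have : (1 / 2 : ℝ) ^ (G + (m - ph.b) + ph.hb) ≤ (1 / 2) ^ (Λ + i) :=
      pow_le_pow_of_le_one (by norm_num) (by norm_num) (by omega)
    calc _ = (1 / 2 : ℝ) ^ (G + (m - ph.b) + ph.hb) * 2 ^ i := by
          rw [pow_add _ _ ph.hb, one_div, inv_pow 2 ph.hb]; ring
      _ ≤ (1 / 2) ^ (Λ + i) * 2 ^ i := mul_le_mul_of_nonneg_right this (by positivity)
      _ = η := by rw [pow_add, mul_assoc, ← mul_pow]; norm_num [hη]
  have fD : (2 : ℝ) ^ ph.b * 2 ^ (m - ph.b) = 2 ^ m := by rw [← pow_add]; congr 1; omega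
  have fE : (2 : ℝ) ^ ph.hb ≤ 2 ^ ph.b := pow_le_pow_right₀ (by norm_num) b1
  have fF : (2 : ℝ) ^ ph.b ≤ 2 * 2 ^ ph.hb := by
    rw [← pow_succ']; exact pow_le_pow_right₀ (by norm_num) b2
  set γ : ℝ := 1 + i * θ + 2 * d ^ 2 * θ with hγ
  have γ0 : 0 ≤ γ := by positivity
  have γ2 : γ ≤ 2 := by linarith
  have p1 : (0 : ℝ) < 2 ^ i := by positivity
  have p2 : (0 : ℝ) < 2 ^ ph.hb := by positivity
  have kk : K * η ≤ K ^ 2 * η := by nlinarith
  have k0 : η ≤ K * η := by nlinarith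
  have hτ : (1 / 2) ^ G * (2 * R) + (1 / 2) ^ (G + (m - ph.b)) * (2 * (γ * 2 ^ i / 2 ^ ph.hb)) ≤
      6 * (K * η) := by
    have := mul_le_mul γ2 fC (by positivity) (by norm_num)
    have e : (1 / 2 : ℝ) ^ (G + (m - ph.b)) * (2 * (γ * 2 ^ i / 2 ^ ph.hb)) =
      2 * (γ * ((1 / 2) ^ (G + (m - ph.b)) * (2 ^ i / 2 ^ ph.hb))) := by ring
    linarith
  have hμ : 2 ^ ph.b * (γ * 2 ^ i / 2 ^ ph.hb) ≤ 4 * 2 ^ i := by
    rw [← mul_div_assoc, div_le_iff₀ p2]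
    have := mul_le_mul fF (mul_le_mul_of_nonneg_right γ2 p1.le) (by positivity) (by positivity)
    linarith
  refine ⟨t', ?_⟩
  unfold Stage
  rw [pow_succ' 2 i]
  refine h'.mono (by have := lenSum_mono ω (show m + 4 * G + 1 ≤ i + (7 * Λ + 4) + 2 by omega); omega)
    ?_ ?_ ?_ (le_of_eq (by ring))
  · have e1 : R * 2 ^ (m - ph.b) ≤ θ * 2 ^ (i + 1) / 2 ^ ph.hb := by
      rw [le_div_iff₀ p2, pow_succ]
      have a1 : R * 2 ^ (m - ph.b) * 2 ^ ph.hb ≤ R * 2 ^ (m - ph.b) * 2 ^ ph.b :=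
        mul_le_mul_of_nonneg_left fE (by positivity)
      have a2 : R * 2 ^ (m - ph.b) * 2 ^ ph.b = R * 2 ^ m := by rw [← fD]; ring
      have a3 := mul_le_mul_of_nonneg_right kk p1.le
      have a4 : 0 ≤ K ^ 2 * η * 2 ^ i := by positivity
      rw [hθ]; linarith
    refine le_trans (add_le_add le_rfl e1) (le_of_eq ?_)
    push_cast; rw [hγ]; ring
  · push_cast
    have : 0 ≤ K ^ 2 * η := by positivity
    linarith
  · have a1 : R ^ 2 * 2 ^ m ≤ K ^ 2 * η * 2 ^ i := by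
      have := mul_le_mul RK fA (by positivity) (by positivity)
      linarith
    have a2 : 2 ^ ph.b * (R * 2 ^ (m - ph.b)) * (4 + i * θ) ≤ K * η * 2 ^ i * 5 := by
      rw [show 2 ^ ph.b * (R * 2 ^ (m - ph.b)) = R * 2 ^ m by rw [← fD]; ring]
      exact mul_le_mul fA (by linarith) (by positivity) (by positivity)
    have a3 := mul_le_mul hμ hτ (by positivity) (by positivity)
    have a4 := mul_le_mul_of_nonneg_right kk p1.le
    have a5 : 0 ≤ K ^ 2 * η * 2 ^ i := by positivity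
    have a6 : θ * 2 ^ i = 128 * (K ^ 2 * η * 2 ^ i) := by rw [hθ]; ring
    push_cast
    rw [pow_succ 2 i]
    linarith

theorem stage_iter (ph : Ph ω) {K Λ d c : ℕ} {θ : ℝ} (hθ : θ = 128 * K ^ 2 * (1 / 2) ^ Λ)
    (hs : K ^ 2 * θ ≤ 1 / 16) (hb : ph.b ≤ d + (7 * Λ + 4) + 1) {t : RT Lf}
    (h : Stage ph θ d d t c) (r : ℕ) : d + r ≤ K → (r = 0 ∨ d + r + (7 * Λ + 4) ≤ ph.P + 1) →
    ∃ t', Stage ph θ d (d + r) t' (2 ^ r * c + r * lenSum ω (d + r + (7 * Λ + 4) + 2)) := by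
  induction r with
  | zero => intro _ _; exact ⟨t, by simpa using h⟩
  | succ r ih =>
    intro h1 h2
    obtain ⟨t1, h3⟩ := ih (by omega) (by omega)
    obtain ⟨t2, h4⟩ := stage_step ph hθ hs (by omega) (by omega) (by omega) hb h3
    refine ⟨t2, Inv.mono h4 ?_ le_rfl le_rfl le_rfl le_rfl⟩
    have := lenSum_two ω (d + r + (7 * Λ + 4) + 2)
    rw [show d + (r + 1) + (7 * Λ + 4) + 2 = d + r + (7 * Λ + 4) + 2 + 1 by ring, pow_succ]
    nlinarith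

theorem stage_conv (ph ph' : Ph ω) {K d i c j : ℕ} {θ : ℝ} (h0 : 0 ≤ θ) (hs : K ^ 2 * θ ≤ 1 / 16)
    (hi : i ≤ K) (hd : i = 0 ∨ d < i) (hd' : d ≤ i) (hP : i ≤ ph.P + 1) (hj : 6 ≤ j)
    (e1 : ph'.P = ph.P + 1 + 1 + j) (e2 : ph'.b = ph.P + 1 + 1) (e3 : ph'.hb = ph.P + 1)
    (e4 : ph'.z ≠ ph.z) (e5 : ∀ u : Vx, u.length = ph.P + 1 → ∃ δ, ph'.U (u ++ [δ]))
    {t : RT Lf} (h : Stage ph θ d i t c) :
    ∃ t', Stage ph' θ i i t' (2 * c + (2 * ph.P + 18) * lenSum ω ph.P) := by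
  have hx := ph'.run 0 (by omega)
  rw [add_zero, e1] at hx
  obtain ⟨t', h'⟩ := convert (ph.hbP.trans (Nat.le_succ _)) (ph.run 0 (by omega))
    (ph.run 1 (by omega)) hx e4 hj ph.probe ph.ball e5 ph.card h
  refine ⟨t', ?_⟩
  unfold Stage
  rw [e1, e2, e3]
  obtain ⟨s1, s2⟩ := small h0 hs hi
  have a0 : d ^ 2 + i ≤ i ^ 2 := by
    rcases hd with rfl | hd
    · have : d = 0 := by omega
      simp [this]
    · nlinarith
  have a1 : (d : ℝ) ^ 2 + i ≤ i ^ 2 := by exact_mod_cast a0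
  have a2 := mul_le_mul_of_nonneg_right a1 h0
  have p1 : (0 : ℝ) < 2 ^ i := by positivity
  have a3 : (1 / 2 : ℝ) ^ (ph.P + 1) * (((2 ^ ph.hb : ℕ) : ℝ) *
      ((1 + i * θ + 2 * d ^ 2 * θ) * 2 ^ i / 2 ^ ph.hb) + 2 * (i * θ * 2 ^ i)) ≤
      (1 + i * θ + 2 * i ^ 2 * θ) * 2 ^ i / 2 ^ (ph.P + 1) := by
    push_cast
    rw [mul_div_cancel₀ _ (by positivity), one_div, inv_pow, ← div_eq_inv_mul]
    apply div_le_div_of_nonneg_right _ (by positivity)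
    nlinarith
  refine h'.mono ?_ a3 ?_ le_rfl (by nlinarith)
  · have := lenSum_three ω ph.P
    linarith
  · have a4 : (2 : ℝ) ^ i ≤ 2 ^ (ph.P + 1) := pow_le_pow_right₀ (by norm_num) hP
    have a5 : (1 + i * θ + 2 * i ^ 2 * θ) * 2 ^ i / 2 ^ (ph.P + 1) ≤ 2 := by
      rw [div_le_iff₀ (by positivity)]
      exact mul_le_mul (by linarith) a4 p1.le (by norm_num)
    have : 0 ≤ i * θ := by positivity
    linarith

theorem main_ind (hR : Rich ω) {K Λ : ℕ} {θ : ℝ} (hθ : θ = 128 * K ^ 2 * (1 / 2) ^ Λ)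
    (hs : K ^ 2 * θ ≤ 1 / 16) {Δ s : ℕ} (hΔ : Δ = 7 * Λ + 4) (hs' : s = 17 * (28 * K + Δ + 9))
    (n : ℕ) : ∀ (ph : Ph ω) (d c : ℕ) (ψ : ℝ) (t : RT Lf), K + Δ ≤ ph.P + n → d ≤ K →
      (d = 0 ∨ d + Δ ≤ ph.P) → ph.b ≤ d + Δ + 1 → 17 * ψ * 2 ^ ph.P ≤ 8 * Psi ω ph.P ph.z * 2 ^ Δ →
      (∀ i, d ≤ i → ψ * 2 ^ i ≤ 3 * lenSum ω (i + Δ)) → Stage ph θ d d t c →
      (c : ℝ) ≤ s * (ψ * 2 ^ d) →
      ∃ (ph : Ph ω) (d : ℕ) (t : RT Lf), d ≤ K ∧
        Stage ph θ d K t ((3 * s + 9 * K) * lenSum ω (K + Δ)) := by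
  have h0 : 0 ≤ θ := by rw [hθ]; positivity
  have fin : ∀ (ph : Ph ω) (d c : ℕ) (ψ : ℝ) (t : RT Lf), K + Δ ≤ ph.P + 1 → d ≤ K →
      ph.b ≤ d + Δ + 1 → (∀ i, d ≤ i → ψ * 2 ^ i ≤ 3 * lenSum ω (i + Δ)) → Stage ph θ d d t c →
      (c : ℝ) ≤ s * (ψ * 2 ^ d) → ∃ (ph : Ph ω) (d : ℕ) (t : RT Lf), d ≤ K ∧
        Stage ph θ d K t ((3 * s + 9 * K) * lenSum ω (K + Δ)) := by
    intro ph d c ψ t h1 h2 h3 h4 h5 h6
    obtain ⟨r, rfl⟩ := Nat.exists_eq_add_of_le h2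
    obtain ⟨t', h7⟩ := stage_iter ph hθ hs (by omega) h5 r le_rfl (by omega)
    refine ⟨ph, d, t', h2, Inv.mono h7 ?_ le_rfl le_rfl le_rfl le_rfl⟩
    rw [← hΔ]
    have a1 := lenSum_three_pow ω (d + r + Δ) 2
    have a2 : 2 ^ r * c ≤ s * (3 * lenSum ω (d + r + Δ)) := by
      have b1 := mul_le_mul_of_nonneg_left (h4 (d + r) (by omega)) (Nat.cast_nonneg (α := ℝ) s)
      have b2 := mul_le_mul_of_nonneg_left h6 (show (0 : ℝ) ≤ 2 ^ r by positivity)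
      have : (2 : ℝ) ^ r * c ≤ s * (3 * lenSum ω (d + r + Δ)) := by
        rw [pow_add] at b1; linarith
      exact_mod_cast this
    nlinarith
  induction n with
  | zero => intro ph d c ψ t h1 h2 _ h4 _ h6 h7 h8; exact fin ph d c ψ t (by omega) h2 h4 h6 h7 h8
  | succ n ih =>
    intro ph d c ψ t h1 h2 h3 h4 h5 h6 h7 h8
    by_cases hK : K + Δ ≤ ph.P + 1
    · exact fin ph d c ψ t hK h2 h4 h6 h7 h8
    obtain ⟨r, hr⟩ : ∃ r, d + r = ph.P + 1 - Δ := ⟨ph.P + 1 - Δ - d, by omega⟩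
    obtain ⟨t1, a1⟩ := stage_iter ph hθ hs (by omega) h7 r (by omega) (by omega)
    obtain ⟨ph', j, hj, e1, e2, e3, e4, e5, e6⟩ := next_phase hR ph
    obtain ⟨t2, a2⟩ := stage_conv ph ph' h0 hs (by omega) (by omega) (by omega) (by omega) hj
      e1 e2 e3 e4 e5 a1
    rw [← hΔ] at a2
    obtain ⟨q1, q2⟩ := Psi_bounds ω ph.P ph.z
    have p1 : (0 : ℝ) < 2 ^ ph.P := by positivity
    refine ih ph' (d + r) _ (Psi ω ph.P ph.z * 2 ^ Δ / 2 ^ ph.P) t2 (by omega) (by omega)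
      (by omega) (by omega) ?_ (fun i hi => ?_) a2 ?_
    · have b1 : (17 : ℝ) * (2 ^ (j + 2) * Psi ω ph.P ph.z) ≤ 8 * Psi ω ph'.P ph'.z := by
        exact_mod_cast e6
      have b2 := mul_le_mul_of_nonneg_right b1 (show (0 : ℝ) ≤ 2 ^ Δ by positivity)
      refine le_trans (le_of_eq ?_) b2
      rw [e1]; field_simp; ring
    · obtain ⟨u, hu⟩ : ∃ u, i + Δ = ph.P + u := ⟨i + Δ - ph.P, by omega⟩
      have b1 := lenSum_two_pow ω ph.P u
      have b2 : 2 ^ u * Psi ω ph.P ph.z ≤ 3 * lenSum ω (ph.P + u) := by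
        have := Nat.mul_le_mul_left (2 ^ u) q2
        linarith
      have b3 : (2 : ℝ) ^ u * Psi ω ph.P ph.z ≤ 3 * lenSum ω (ph.P + u) := by exact_mod_cast b2
      rw [hu]
      refine le_trans (le_of_eq ?_) b3
      rw [div_mul_eq_mul_div, mul_assoc, ← pow_add, add_comm Δ, hu, pow_add]; field_simp
    · obtain ⟨u, hu⟩ : ∃ u, d + r + Δ = ph.P + 1 + u := ⟨d + r + Δ - (ph.P + 1), by omega⟩
      have b0 : r * lenSum ω (d + r + Δ + 2) ≤ K * (27 * lenSum ω ph.P) := by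
        rcases Nat.eq_zero_or_pos r with h | h
        · simp [h]
        · rw [show d + r + Δ + 2 = ph.P + 3 by omega]
          exact Nat.mul_le_mul (by omega) (lenSum_three_pow ω ph.P 3)
      have b1 : 17 * (2 * (r * lenSum ω (d + r + Δ + 2)) + (2 * ph.P + 18) * lenSum ω ph.P) ≤
          s * (2 * Psi ω ph.P ph.z) := by
        have c1 : (2 * ph.P + 18) * lenSum ω ph.P ≤ (2 * (K + Δ) + 18) * lenSum ω ph.P :=
          Nat.mul_le_mul_right _ (by omega)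
        have c2 := Nat.mul_le_mul_left s q1
        rw [hs'] at c2 ⊢
        linarith
      have b2 : (17 : ℝ) * (2 * (r * lenSum ω (d + r + Δ + 2)) + (2 * ph.P + 18) * lenSum ω ph.P) ≤
          s * (2 * Psi ω ph.P ph.z) := by exact_mod_cast b1
      set X : ℝ := Psi ω ph.P ph.z * 2 ^ Δ / 2 ^ ph.P * 2 ^ (d + r) with hX
      have b3 : X = 2 ^ u * (2 * Psi ω ph.P ph.z) := by
        rw [hX, div_mul_eq_mul_div, mul_assoc, ← pow_add, add_comm Δ, hu]; field_simp; ring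
      have b4 : 2 * (Psi ω ph.P ph.z : ℝ) ≤ X := by
        rw [b3]
        exact le_mul_of_one_le_left (by positivity) (one_le_pow₀ (by norm_num))
      have b5 : 17 * (ψ * 2 ^ (d + r)) ≤ 8 * X := by
        have : 17 * ψ ≤ 8 * (Psi ω ph.P ph.z * 2 ^ Δ / 2 ^ ph.P) := by
          rw [← mul_div_assoc, le_div_iff₀ p1]; linarith
        have := mul_le_mul_of_nonneg_right this (show (0 : ℝ) ≤ 2 ^ (d + r) by positivity)
        rw [hX]; linarith
      have s0 := Nat.cast_nonneg (α := ℝ) s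
      have b6 := mul_le_mul_of_nonneg_left b4 s0
      have b7 := mul_le_mul_of_nonneg_left b5 s0
      have b8 := mul_le_mul_of_nonneg_left h8 (show (0 : ℝ) ≤ 2 ^ r by positivity)
      rw [pow_add] at b7
      push_cast
      linarith

theorem lower_rich (hR : Rich ω) {K Λ : ℕ} (hΛ : 2048 * K ^ 4 ≤ 2 ^ Λ) :
    Real.exp (2 ^ K / 4) ≤ growth (gens ω)
      ((3 * (17 * (28 * K + (7 * Λ + 4) + 9)) + 9 * K) * lenSum ω (K + (7 * Λ + 4))) := by
  have hs : (K : ℝ) ^ 2 * (128 * K ^ 2 * (1 / 2) ^ Λ) ≤ 1 / 16 := by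
    have : (2048 : ℝ) * K ^ 4 ≤ 2 ^ Λ := by exact_mod_cast hΛ
    rw [one_div, inv_pow, ← div_eq_mul_inv, ← mul_div_assoc, div_le_iff₀ (by positivity)]
    linarith
  obtain ⟨ph, h1, h2, h3⟩ := first_phase hR
  obtain ⟨t, h4⟩ := stage_zero ph h1 h2 h3 (128 * K ^ 2 * (1 / 2) ^ Λ)
  obtain ⟨ph', d, t', hd, h5⟩ := main_ind hR rfl hs rfl rfl (K + (7 * Λ + 4)) ph 0 1 1 t (by omega)
    (Nat.zero_le _) (Or.inl rfl) (by omega) (by
      have a1 := (Psi_bounds ω ph.P ph.z).1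
      have a2 := lenSum_ge ω ph.P
      have a3 : 1 ≤ 2 ^ (7 * Λ + 4) := Nat.one_le_two_pow
      have : 17 * 1 * 2 ^ ph.P ≤ 8 * Psi ω ph.P ph.z * 2 ^ (7 * Λ + 4) := by nlinarith
      exact_mod_cast this) (fun i _ => by
      have a2 := lenSum_ge ω i
      have a3 := lenSum_mono ω (Nat.le_add_right i (7 * Λ + 4))
      have : 1 * 2 ^ i ≤ 3 * lenSum ω (i + (7 * Λ + 4)) := by omega
      exact_mod_cast this) h4 (by
      have : 1 ≤ 17 * (28 * K + (7 * Λ + 4) + 9) * (1 * 2 ^ 0) := by omega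
      exact_mod_cast this)
  refine le_trans (Real.exp_le_exp.2 ?_) (Inv.growth h5)
  have h0 : (0 : ℝ) ≤ 128 * K ^ 2 * (1 / 2) ^ Λ := by positivity
  obtain ⟨s1, -⟩ := small h0 hs le_rfl
  obtain ⟨-, s2⟩ := small h0 hs hd
  generalize (128 * K ^ 2 * (1 / 2) ^ Λ : ℝ) = θ at *
  have l2 := Real.log_two_lt_d9
  have l4 : Real.log 4 = 2 * Real.log 2 := by
    rw [show (4 : ℝ) = 2 ^ 2 by norm_num, Real.log_pow]; norm_num
  have l8 : 0.43 ≤ Real.log (8 / 5) := by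
    have b1 := Real.log_two_gt_d9
    have b2 := Real.log_le_sub_one_of_pos (show (0 : ℝ) < 5 / 4 by norm_num)
    rw [show (8 / 5 : ℝ) = 2 / (5 / 4) by norm_num, Real.log_div (by norm_num) (by norm_num)]
    linarith
  have p1 : (0 : ℝ) < 2 ^ K := by positivity
  have a1 : K * θ * 2 ^ K + d ^ 2 * θ * 2 ^ K ≤ 1 / 8 * 2 ^ K := by nlinarith
  have a2 := mul_le_mul_of_nonneg_left a1 (Real.log_nonneg (show (1 : ℝ) ≤ 4 by norm_num))
  push_cast
  rw [l4] at a2 ⊢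
  nlinarith

end Pool.Agent.MP_fbbd83_al.Pl
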