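import Pool.Agent.MP_fbbd83_al.Pl.Probe

/-! Phases between long runs, and the growth of the lengths along a phase. -/

namespace Pool.Agent.MP_fbbd83_al.Pl

variable (ω : ℕ → Fin 3)

/-- four consecutive steps at which `s` is inactive -/
def Run (s : Fin 3) (P : ℕ) : Prop := ∀ t < 4, inact (ω (P + t)) = s

def Rich : Prop := ∀ s n, ∃ P, n ≤ P ∧ Run ω s P

def Psi (P : ℕ) (z : Fin 3) : ℕ :=
  2 * (ell ω P (z + 1) + ell ω P (z + 2)) + min (ell ω P (z + 1)) (ell ω P (z + 2))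

theorem Psi_eq (P : ℕ) {x y z : Fin 3} (h1 : x ≠ y) (h2 : x ≠ z) (h3 : y ≠ z) :
    Psi ω P z = 2 * (ell ω P x + ell ω P y) + min (ell ω P x) (ell ω P y) := by
  have : (x = z + 1 ∧ y = z + 2) ∨ (x = z + 2 ∧ y = z + 1) := by revert x y z; decide
  unfold Psi
  rcases this with ⟨rfl, rfl⟩ | ⟨rfl, rfl⟩
  · rfl
  · rw [min_comm]; ring

theorem lenSum_eq (P : ℕ) (z : Fin 3) :
    lenSum ω P = ell ω P z + (ell ω P (z + 1) + ell ω P (z + 2)) := by
  unfold lenSum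
  rcases fin3_cases z with rfl | rfl | rfl
  · simp; ring
  · rw [show (1 + 1 : Fin 3) = 2 from rfl, show (1 + 2 : Fin 3) = 0 from rfl]; ring
  · rw [show (2 + 1 : Fin 3) = 0 from rfl, show (2 + 2 : Fin 3) = 1 from rfl]; ring

theorem Psi_bounds (P : ℕ) (z : Fin 3) : lenSum ω P ≤ Psi ω P z ∧ Psi ω P z ≤ 3 * lenSum ω P := by
  have := lenSum_eq ω P z
  have := ell_tri ω P z
  unfold Psi; omega

theorem ell_pow (s : Fin 3) (k t : ℕ) : 2 ^ t * ell ω k s ≤ ell ω (k + t) s := by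
  induction t with
  | zero => simp
  | succ t ih =>
    have := ell_two ω (k + t) s
    rw [pow_succ, ← add_assoc]; nlinarith

variable {ω}

theorem ell_run {P : ℕ} {x y z : Fin 3} (h1 : x ≠ y) (h2 : x ≠ z) (h3 : y ≠ z) (h : Run ω z P) :
    15 * (ell ω P x + ell ω P y) ≤ ell ω (P + 4) z := by
  have key : ∀ k, inact (ω k) = z → ell ω (k + 1) x = 2 * ell ω k x ∧
      ell ω (k + 1) y = 2 * ell ω k y ∧ ell ω (k + 1) z = ell ω k z + (ell ω k x + ell ω k y) := by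
    intro k hk
    refine ⟨by rw [ell_succ, if_pos (by rw [col_iff, hk]; exact h2)],
      by rw [ell_succ, if_pos (by rw [col_iff, hk]; exact h3)], ?_⟩
    rw [ell_succ, not_col hk, if_neg (by simp), lenSum_eq ω k z]
    have : (x = z + 1 ∧ y = z + 2) ∨ (x = z + 2 ∧ y = z + 1) := by
      clear hk h; revert x y z; decide
    rcases this with ⟨rfl, rfl⟩ | ⟨rfl, rfl⟩ <;> ring
  have a0 := key P (h 0 (by omega))
  have a1 := key (P + 1) (h 1 (by omega))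
  have a2 := key (P + 2) (h 2 (by omega))
  have a3 := key (P + 3) (h 3 (by omega))
  simp only [add_assoc, Nat.reduceAdd] at a1 a2 a3
  omega

theorem Psi_grow {P e1 e2 : ℕ} {x y z : Fin 3} (h1 : x ≠ y) (h2 : x ≠ z) (h3 : y ≠ z)
    (hz : Run ω z P) (hy : Run ω y (P + 4 + e1)) :
    17 * (2 ^ (4 + e1 + 4 + e2) * Psi ω P z) ≤ 8 * Psi ω (P + 4 + e1 + 4 + e2) x := by
  rw [Psi_eq ω P h1 h2 h3, Psi_eq ω _ h3 h1.symm h2.symm]
  have a1 := ell_run h1 h2 h3 hz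
  have a2 := ell_run h2 h1 h3.symm hy
  have a3 := ell_pow ω x P (4 + e1)
  have a4 := ell_pow ω z (P + 4) e1
  have a5 := ell_pow ω z (P + 4 + e1) (4 + e2)
  have a6 := ell_pow ω y (P + 4 + e1 + 4) e2
  rw [← add_assoc] at a3 a5
  rw [pow_add] at a3 a5
  rw [show (2 : ℕ) ^ (4 + e1 + 4 + e2) = 256 * (2 ^ e2 * 2 ^ e1) by ring]
  generalize (2 : ℕ) ^ e1 = A at *
  generalize (2 : ℕ) ^ e2 = B at *
  have b1 := Nat.mul_le_mul_left (B * A) a1
  have b2 := Nat.mul_le_mul_left B a2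
  have b3 := Nat.mul_le_mul_left B a3
  have b4 := Nat.mul_le_mul_left B a4
  have b5 := Nat.mul_le_mul_left (B * A) (min_le_left (ell ω P x) (ell ω P y))
  have b6 := Nat.mul_le_mul_left (B * A) (min_le_right (ell ω P x) (ell ω P y))
  have c1 : 240 * (B * A * ell ω P x + B * A * ell ω P y) ≤ ell ω (P + 4 + e1 + 4 + e2) z := by
    nlinarith
  have c2 : 240 * (B * A * ell ω P x) + 225 * (B * A * ell ω P x + B * A * ell ω P y) ≤
      ell ω (P + 4 + e1 + 4 + e2) y := by nlinarith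
  have c3 : 256 * (B * A) * (2 * (ell ω P x + ell ω P y) + min (ell ω P x) (ell ω P y)) =
      512 * (B * A * ell ω P x) + 512 * (B * A * ell ω P y) +
        256 * (B * A * min (ell ω P x) (ell ω P y)) := by ring
  rw [c3]
  omega

open Classical in
variable (ω) in
structure Ph where
  b : ℕ
  hb : ℕ
  P : ℕ
  z : Fin 3
  U : Vx → Prop
  e : Tr
  hb1 : hb ≤ b
  hb2 : b ≤ hb + 1
  hbP : b ≤ P
  run : Run ω z P
  win : ∀ t, b ≤ t → t < P → ∃ t', t ≤ t' ∧ t' < t + 4 ∧ col (ω t') z = true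
  probe : Probe ω z b (P + 1) U e
  ball : InBall ω ((P + 3) * lenSum ω P) e.1
  card : ((LV b).filter U).card ≤ 2 ^ hb

theorem win_of_not {z : Fin 3} {t : ℕ} (h : ¬ Run ω z t) :
    ∃ t', t ≤ t' ∧ t' < t + 4 ∧ col (ω t') z = true := by
  unfold Run at h
  push Not at h
  obtain ⟨j, h1, h2⟩ := h
  exact ⟨t + j, by omega, by omega, by rw [col_iff]; exact h2.symm⟩

theorem act_before {z : Fin 3} {P : ℕ} (h : Run ω z (P + 1)) (h' : ¬ Run ω z P) :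
    col (ω P) z = true := by
  rw [col_iff]
  intro e
  apply h'
  intro t ht
  rcases t with _ | t
  · exact e.symm
  · rw [← h t (by omega)]; congr 2; ring

theorem run_sep {s t : Fin 3} {P Q : ℕ} (hs : Run ω s P) (ht : Run ω t Q) (h : s ≠ t)
    (hPQ : P ≤ Q) : P + 4 ≤ Q := by
  by_contra hc
  have h1 := hs (Q - P) (by omega)
  have h2 := ht 0 (by omega)
  rw [show P + (Q - P) = Q + 0 by omega, h2] at h1
  exact h h1.symm

theorem first_run (h : Rich ω) (s : Fin 3) (n : ℕ) :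
    ∃ P, n ≤ P ∧ Run ω s P ∧ ∀ t, n ≤ t → t < P → ¬ Run ω s t := by
  classical
  exact ⟨Nat.find (h s n), (Nat.find_spec (h s n)).1, (Nat.find_spec (h s n)).2,
    fun t h1 h2 h3 => Nat.find_min (h s n) h2 ⟨h1, h3⟩⟩

theorem first_phase (h : Rich ω) : ∃ ph : Ph ω, ph.b = 0 ∧ ph.hb = 0 ∧ ph.U = fun _ => True := by
  have : ∃ z P, Run ω z (P + 1) ∧ ∀ t, t < P + 1 → ¬ Run ω z t := by
    obtain ⟨P, _, a1, a2⟩ := first_run h 0 0
    obtain ⟨Q, _, b1, b2⟩ := first_run h 1 0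
    rcases P with _ | P
    · have := run_sep a1 b1 (by decide) (Nat.zero_le _)
      obtain ⟨Q, rfl⟩ : ∃ Q', Q = Q' + 1 := ⟨Q - 1, by omega⟩
      exact ⟨1, Q, b1, fun t => b2 t (Nat.zero_le _)⟩
    · exact ⟨0, P, a1, fun t => a2 t (Nat.zero_le _)⟩
  obtain ⟨z, P, h1, h2⟩ := this
  obtain ⟨e, e1, e2⟩ := probe_first ω (P := P + 1) (act_before h1 (h2 P (by omega)))
    (h1 0 (by omega))
  refine ⟨⟨0, 0, P + 1, z, fun _ => True, e, le_rfl, by omega, by omega, h1,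
    fun t _ ht => win_of_not (h2 t ht), e1, e2.mono (Nat.mul_le_mul_right _ (by omega)), ?_⟩,
    rfl, rfl, rfl⟩
  simp [card_LV]

theorem next_phase (h : Rich ω) (ph : Ph ω) : ∃ ph' : Ph ω, ∃ j, 6 ≤ j ∧
    ph'.P = ph.P + 1 + 1 + j ∧ ph'.b = ph.P + 1 + 1 ∧ ph'.hb = ph.P + 1 ∧ ph'.z ≠ ph.z ∧
    (∀ u : Vx, u.length = ph.P + 1 → ∃ δ, ph'.U (u ++ [δ])) ∧
    17 * (2 ^ (j + 2) * Psi ω ph.P ph.z) ≤ 8 * Psi ω ph'.P ph'.z := by
  classical
  have hz := ph.run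
  generalize ph.P = P at *
  generalize ph.z = z at *
  have : ∃ x y Q R, x ≠ y ∧ x ≠ z ∧ y ≠ z ∧ P ≤ Q ∧ Q ≤ R ∧ Run ω y Q ∧ Run ω x R ∧
      ∀ t, P ≤ t → t < R → ¬ Run ω x t := by
    obtain ⟨Q, a0, a1, a2⟩ := first_run h (z + 1) P
    obtain ⟨R, b0, b1, b2⟩ := first_run h (z + 2) P
    have f : ∀ z : Fin 3, z + 1 ≠ z + 2 ∧ z + 1 ≠ z ∧ z + 2 ≠ z := by decide
    rcases le_total Q R with hQ | hQ
    · exact ⟨_, _, Q, R, (f z).1.symm, (f z).2.2, (f z).2.1, a0, hQ, a1, b1, b2⟩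
    · exact ⟨_, _, R, Q, (f z).1, (f z).2.1, (f z).2.2, b0, hQ, b1, a1, a2⟩
  obtain ⟨x, y, Q, R, h1, h2, h3, h4, h5, h6, h7, h8⟩ := this
  have s1 := run_sep hz h6 h3.symm h4
  have s2 := run_sep h6 h7 h1.symm h5
  obtain ⟨e1, rfl⟩ : ∃ e1, Q = P + 4 + e1 := ⟨Q - (P + 4), by omega⟩
  obtain ⟨e2, rfl⟩ : ∃ e2, R = P + 4 + e1 + 4 + e2 := ⟨R - (P + 4 + e1 + 4), by omega⟩
  have g := Psi_grow (e2 := e2) h1 h2 h3 hz h6
  have hex : ∃ m, inact (ω (P + 1 + 1 + m)) ≠ z := ⟨2 + e1, by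
    have := h6 0 (by omega)
    rw [show P + 1 + 1 + (2 + e1) = P + 4 + e1 + 0 by ring, this]; exact h3⟩
  have hm : Nat.find hex ≤ 2 + e1 := Nat.find_min' hex (by
    have := h6 0 (by omega)
    rw [show P + 1 + 1 + (2 + e1) = P + 4 + e1 + 0 by ring, this]; exact h3)
  have eR : P + 4 + e1 + 4 + e2 = P + 1 + 1 + (6 + e1 + e2) := by ring
  rw [eR] at h7 h8 g
  obtain ⟨e, U, p1, p2, p3, p4⟩ := probe_later ω (z := x) (k := P + 1) (n := 6 + e1 + e2)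
    (hz 1 (by omega)) (fun t ht => not_not.1 (Nat.find_min hex ht)) rfl (Nat.find_spec hex)
    (by omega) (act_before (P := P + 1 + 1 + (6 + e1 + e2) - 1)
      (by rwa [Nat.sub_add_cancel (by omega)]) (h8 _ (by omega) (by omega))) (h7 0 (by omega))
  refine ⟨⟨P + 1 + 1, P + 1, P + 1 + 1 + (6 + e1 + e2), x, U, e, by omega, le_rfl, by omega, h7,
    fun t h1 h2 => win_of_not (h8 t (by omega) h2), p1,
    p2.mono (Nat.mul_le_mul_right _ (by omega)), p4⟩, 6 + e1 + e2, by omega, rfl, rfl, rfl, h2,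
    p3, ?_⟩
  rwa [show 6 + e1 + e2 + 2 = 4 + e1 + 4 + e2 by ring]

end Pool.Agent.MP_fbbd83_al.Pl
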