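import Pool.Agent.MP_fbbd83_al.Pl.Conv

/-! Elements whose sections are a fixed letter on one half of the vertices and trivial elsewhere. -/

namespace Pool.Agent.MP_fbbd83_al.Pl

theorem ell_ratio (ω : ℕ → Fin 3) (k : ℕ) : ∀ s t, 2 * ell ω k t ≤ (k + 2) * ell ω k s := by
  induction k with
  | zero => intro s t; simp [ell]
  | succ k ih =>
    intro s t
    have h0 := ih s 0; have h1 := ih s 1; have h2 := ih s 2; have h3 := ih s t
    have h4 := ell_tri ω k t
    rw [ell_succ, ell_succ]
    split_ifs with a b b
    · nlinarith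
    · nlinarith
    · unfold lenSum
      rcases fin3_cases s with rfl | rfl | rfl <;> nlinarith
    · nlinarith

theorem lenSum_ratio (ω : ℕ → Fin 3) (k : ℕ) (s : Fin 3) : lenSum ω k ≤ (k + 3) * ell ω k s := by
  have h0 := ell_ratio ω k s 0; have h1 := ell_ratio ω k s 1; have h2 := ell_ratio ω k s 2
  unfold lenSum
  rcases fin3_cases s with rfl | rfl | rfl <;> nlinarith

theorem Zw_add (k n : ℕ) : ∀ (ω : ℕ → Fin 3) (w : List (Fin 3)),
    Zw (k + n) ω w = Zw k ω (Zw n (sh k ω) w) := by
  induction k with
  | zero => intro ω w; simp [Zw, sh_zero]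
  | succ k ih =>
    intro ω w
    rw [show k + 1 + n = (k + n) + 1 by ring, Zw, Zw, ih, sh_shift]

theorem Zw_nil (k : ℕ) : ∀ ω : ℕ → Fin 3, Zw k ω [] = [] := by
  induction k with
  | zero => intro ω; rfl
  | succ k ih => intro ω; rw [Zw, ih]; rfl

theorem length_Zw_list (k : ℕ) (ω : ℕ → Fin 3) (l : List (Fin 3)) :
    (Zw k ω l).length = (l.map (ell ω k)).sum := by
  induction l with
  | nil => simp [Zw_nil]
  | cons s l ih =>
    rw [← List.singleton_append, Zw_append, List.length_append, ih, length_Zw]; simp

def Sec2 (n : ℕ) (f g : Vx → Vx) : Prop :=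
  ∀ u : Vx, u.length = n →
    (∀ v, g (u ++ v) = u ++ f v) ∨ (∀ v, g (u ++ v) = u ++ flipFun (f (flipFun v)))

theorem Sec2.conj {n : ℕ} {f g : Vx → Vx} (h : Sec2 n f g) :
    Sec2 n f (fun v => flipFun (g (flipFun v))) := by
  intro u hu
  cases u with
  | nil =>
    rcases h [] hu with h | h
    · right; intro v
      have := h (flipFun v)
      simp only [List.nil_append] at this ⊢
      rw [this]
    · left; intro v
      have := h (flipFun v)
      simp only [List.nil_append] at this ⊢
      rw [this, flipFun_invol, flipFun_invol]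
  | cons x u =>
    rcases h ((!x) :: u) (by simpa using hu) with h | h
    · left; intro v
      have := h v
      simp only [List.cons_append] at this ⊢
      simp [flipFun_cons, this]
    · right; intro v
      have := h v
      simp only [List.cons_append] at this ⊢
      simp [flipFun_cons, this]

theorem lift_sq (n : ℕ) : ∀ (ω : ℕ → Fin 3) (l : List (Fin 3)),
    Sec2 n (run (sh n ω) (pw (l ++ l))) (run ω (pw (Zw n ω (l ++ l)))) := by
  induction n with
  | zero =>
    intro ω l u hu
    rw [List.length_eq_zero_iff.1 hu]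
    left; intro v; rfl
  | succ n ih =>
    intro ω l u hu
    have ih := ih (shift ω) l
    have he : ev (ω 0) (Zw n (shift ω) (l ++ l)) = false := by rw [Zw_append, ev_append]; simp
    cases u with
    | nil => simp at hu
    | cons x u =>
      have hu' : u.length = n := by simpa using hu
      simp only [Zw, List.cons_append, zeta_run, he, Bool.xor_false, ← sh_shift]
      cases x
      · rcases ih.conj u hu' with h | h
        · left; intro v; simpa [fl] using h v
        · right; intro v; simpa [fl] using h v
      · rcases ih u hu' with h | h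
        · left; intro v; simpa [fl] using h v
        · right; intro v; simpa [fl] using h v

theorem secW_sq (ω : ℕ → Fin 3) (n : ℕ) (l : List (Fin 3)) (u : Vx) (hu : u.length = n) :
    (evT ω (pw (Zw n ω (l ++ l)))).1 u = u ∧
      (SecW ω n (evT ω (pw (Zw n ω (l ++ l)))) u (pw (l ++ l)) ∨
        SecW ω n (evT ω (pw (Zw n ω (l ++ l)))) u (none :: (pw (l ++ l) ++ [none]))) := by
  have e : ((evT ω (pw (Zw n ω (l ++ l)))).1 : Vx → Vx) = run ω (pw (Zw n ω (l ++ l))) :=
    funext (evP_apply ω _)
  have h1 := lift_sq n ω l u hu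
  rw [← e] at h1
  have h2 : (evT ω (pw (Zw n ω (l ++ l)))).1 u = u := by
    rcases h1 with h1 | h1 <;> simpa [flipFun, run_nil] using h1 []
  refine ⟨h2, ?_⟩
  rcases h1 with h1 | h1
  · left; intro v; rw [h1, h2]
  · right; intro v; rw [h1, h2]; simp [run, run_append, letFun]

theorem not_col {i z : Fin 3} (h : inact i = z) : col i z = false := by
  have := col_iff i z
  cases h' : col i z
  · rfl
  · exact absurd h.symm (this.1 h')

/-- the square of a jump just before a step where its letter is inactive -/
theorem run_sq (ω : ℕ → Fin 3) {n : ℕ} {z : Fin 3} (h : n = 0 ∨ col (ω (n - 1)) z = true)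
    (hz : inact (ω n) = z) (u : Vx) (hu : u.length = n + 1) (v : Vx) :
    run ω (pw (Zw n ω ([z] ++ [z]))) (u ++ v) = u ++ genFun z v (sh (n + 1) ω) := by
  obtain ⟨y, δ, rfl⟩ : ∃ y δ, u = y ++ [δ] := by
    have : u ≠ [] := by rintro rfl; simp at hu
    exact ⟨_, _, (List.dropLast_append_getLast this).symm⟩
  have hy : y.length = n := by simpa using hu
  obtain ⟨h1, h2⟩ := jump_sec h y hy
  have e : ∀ v, run ω (pw (Zw n ω ([z] ++ [z]))) v = (jump ω n z * jump ω n z).1 v := by
    intro v
    rw [Zw_append, pw_append, run_append, ← evP_apply, ← evP_apply]; rfl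
  have hc := not_col hz
  have e1 : (jump ω n z * jump ω n z).1 y = y := by rw [tr_mul, h1, h1]
  rw [e, List.append_assoc]
  rcases h2 with h2 | h2 <;> rw [h2.mul (by rw [h1]; exact h2), e1, List.singleton_append,
    run_cons, shift_sh, sh_apply_zero] <;> cases δ <;> simp [par, sec, hc, run, letFun]

theorem probe_first (ω : ℕ → Fin 3) {P : ℕ} {z : Fin 3} (h : col (ω (P - 1)) z = true)
    (hz : inact (ω P) = z) :
    ∃ e, Probe ω z 0 (P + 1) (fun _ => True) e ∧ InBall ω (2 * lenSum ω P) e.1 := by
  refine ⟨evT ω (pw (Zw P ω ([z] ++ [z]))), fun u hu => ?_, _, ?_, rfl⟩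
  · have e := run_sq ω (Or.inr h) hz u hu
    have e1 : (evT ω (pw (Zw P ω ([z] ++ [z])))).1 u = u := by
      have := e []
      rw [List.append_nil, ← evP_apply] at this
      exact this.trans (by simp [genFun])
    refine ⟨e1, fun _ v => ?_, fun h => absurd trivial h⟩
    rw [e1]
    exact (evP_apply ω _ _).trans (e v)
  · have := ell_tri ω P z
    rw [length_pw, Zw_append, List.length_append, length_Zw]; omega

def xi (u : Fin 3) : List (Fin 3) → List (Fin 3)
  | [] => []
  | s :: l => u :: s :: xi u l

def rw0 (i u : Fin 3) : List (Fin 3) → Word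
  | [] => []
  | s :: l => (if col i s then [some u, none] else [some u]) ++ rw0 i u l

theorem xi_append (u : Fin 3) (l l' : List (Fin 3)) : xi u (l ++ l') = xi u l ++ xi u l' := by
  induction l with
  | nil => rfl
  | cons s l ih => simp [xi, ih]

theorem rw0_append (i u : Fin 3) (l l' : List (Fin 3)) :
    rw0 i u (l ++ l') = rw0 i u l ++ rw0 i u l' := by
  induction l with
  | nil => rfl
  | cons s l ih => simp [rw0, ih]

theorem sec_xi {i u : Fin 3} (h : col i u = true) (l : List (Fin 3)) :
    par (pw (xi u l)) = false ∧ sec i (pw (xi u l)) true = pw l ∧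
      sec i (pw (xi u l)) false = rw0 i u l := by
  induction l with
  | nil => simp [xi, pw, par, sec, rw0]
  | cons s l ih =>
    simp only [xi, pw, par, sec, rw0, h, ih, Bool.not_true, Bool.not_false, if_true, true_and]
    split_ifs <;> simp

theorem sec_append (i : Fin 3) (w w' : Word) (δ : Bool) :
    sec i (w ++ w') δ = sec i w δ ++ sec i w' (xor δ (par w)) := by
  induction w generalizing δ with
  | nil => simp [sec, par]
  | cons x w ih =>
    cases x with
    | none => simp only [List.cons_append, sec, par, ih]; cases δ <;> cases par w <;> rfl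
    | some s =>
      cases δ
      · simp only [List.cons_append, sec, par, ih]; split_ifs <;> rfl
      · simp only [List.cons_append, sec, par, ih]

def rp : ℕ → Word → Word
  | 0, _ => []
  | k + 1, w => w ++ rp k w

theorem evP_rp (ω : ℕ → Fin 3) (k : ℕ) (w : Word) : evP ω (rp k w) = evP ω w ^ k := by
  induction k with
  | zero => simp [rp, evP]
  | succ k ih => rw [rp, evP_append, ih, pow_succ]

theorem sec_rp (i : Fin 3) (k : ℕ) (w : Word) (h : par w = false) (δ : Bool) :
    par (rp k w) = false ∧ sec i (rp k w) δ = rp k (sec i w δ) := by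
  induction k with
  | zero => simp [rp, par, sec]
  | succ k ih => simp [rp, par_append, sec_append, h, ih]

theorem order_au (u : Fin 3) (m : ℕ) : ∀ ω : ℕ → Fin 3, (∀ t < m, col (ω t) u = true) →
    inact (ω m) = u → (letP ω none * letP ω (some u)) ^ (2 ^ (m + 2)) = 1 := by
  induction m with
  | zero =>
    intro ω _ hu
    have e := az_comm ω hu
    simp only [evP, one_mul] at e
    have h1 := letP_sq ω none
    have h2 := letP_sq ω (some u)
    generalize letP ω none = A at *
    generalize letP ω (some u) = B at *
    calc (A * B) ^ (2 ^ (0 + 2)) = (A * B * A * B) * (A * B * A * B) := by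
          norm_num [pow_succ, mul_assoc]
      _ = B * (A * (B * (A * A) * B) * A) * B := by rw [← e, e]; nth_rw 1 [← e]; group
      _ = 1 := by rw [h1, mul_one, h2, mul_one, h1, mul_one, h2]
  | succ m ih =>
    intro ω h hu
    have ih := ih (shift ω) (fun t ht => h (t + 1) (by omega)) hu
    have hc := h 0 (by omega)
    have e : (letP ω none * letP ω (some u)) ^ (2 ^ (m + 1 + 2)) =
        evP ω (rp (2 ^ (m + 2)) [some u, none, some u, none]) := by
      rw [evP_rp, show m + 1 + 2 = (m + 2) + 1 by ring, pow_succ' 2, pow_mul]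
      simp [evP, pow_two, mul_assoc]
    rw [e]
    ext1 v
    rw [evP_apply]
    refine run_ext ω (w' := []) (sec_rp 0 _ _ rfl true).1 (fun δ v => ?_) v
    rw [(sec_rp _ _ _ rfl δ).2, ← evP_apply, evP_rp]
    cases δ
    · have : (letP (shift ω) (some u) * letP (shift ω) none) =
          (letP (shift ω) none * letP (shift ω) (some u))⁻¹ := by simp [letP_inv]
      have e2 : evP (shift ω) (sec (ω 0) [some u, none, some u, none] false) =
          letP (shift ω) (some u) * letP (shift ω) none := by simp [sec, hc, evP]
      rw [e2, this, inv_pow, ih]; simp [sec, run]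
    · simp [sec, hc, evP, run, ih]

theorem rw0_trivial {i z0 u : Fin 3} (ω : ℕ → Fin 3) {m : ℕ} (hi : inact i = z0)
    (hrun : ∀ t < m, inact (ω t) = z0) (hu : inact (ω m) = u) (hne : u ≠ z0) (n : ℕ) (hn : m < n)
    (z : Fin 3) : evP ω (rw0 i u (Zw n ω ([z] ++ [z]))) = 1 := by
  set R : ℕ → Fin 3 → Equiv.Perm Vx := fun t s => evP ω (rw0 i u (Zw t ω [s])) with hR
  have step : ∀ t s, R (t + 1) s =
      if col (ω t) s then R t s * R t s else R t (s + 2) * (R t s * R t (s + 1)) := by
    intro t s
    simp only [hR, Zw_succ]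
    split_ifs with h
    · rw [show zeta (ω t) [s] = [s] ++ [s] by simp [zeta, h], Zw_append, rw0_append, evP_append]
    · rw [show zeta (ω t) [s] = ([s + 1] ++ [s]) ++ [s + 2] by simp [zeta, h], Zw_append,
        Zw_append, rw0_append, rw0_append, evP_append, evP_append]
  have ord := order_au u m ω (fun t ht => by rw [col_iff, hrun t ht]; exact hne) hu
  have h1 := letP_sq ω none
  have h2 := letP_sq ω (some u)
  have r0 : ∀ s, R 0 s = if s = z0 then letP ω (some u) else letP ω none * letP ω (some u) := by
    intro s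
    by_cases h : s = z0
    · simp [hR, Zw, rw0, h, not_col hi, evP]
    · have : col i s = true := by rw [col_iff, hi]; exact h
      simp [hR, Zw, rw0, h, this, evP]
  clear_value R
  generalize letP ω none = A at *
  generalize letP ω (some u) = B at *
  have refl : ∀ k : ℕ, (A * B) ^ k * (B * (A * B) ^ k) = B := by
    intro k
    induction k with
    | zero => simp
    | succ k ih =>
      calc _ = (A * B) ^ k * (A * (B * B) * A * B) * (A * B) ^ k := by
            nth_rw 2 [pow_succ']
            rw [pow_succ]; simp only [mul_assoc]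
        _ = B := by rw [h2, mul_one, h1, one_mul, mul_assoc, ih]
  have f1 : ∀ s : Fin 3, s + 1 ≠ s := by decide
  have f2 : ∀ s : Fin 3, s + 2 ≠ s := by decide
  have r1 : ∀ t ≤ m, ∀ s, R t s = if s = z0 then B else (A * B) ^ (2 ^ t) := by
    intro t
    induction t with
    | zero => intro _ s; simp [r0]
    | succ t ih =>
      intro ht s
      have ih := ih (by omega)
      rw [step]
      by_cases h : s = z0
      · subst h
        simp [not_col (hrun t (by omega)), ih, f1, f2, refl]
      · have : col (ω t) s = true := by rw [col_iff, hrun t (by omega)]; exact h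
        simp [this, ih, h, pow_succ, pow_mul]
  obtain ⟨T, hT⟩ : ∃ T, T = (A * B) ^ (2 ^ m) := ⟨_, rfl⟩
  have c1 : (T * T) * (T * T) = 1 := by
    rw [← ord, hT, pow_add 2 m 2, pow_mul]; norm_num [pow_succ, mul_assoc]
  have c2 : T * T * B = B * (T * T) := by
    have := refl (2 ^ m + 2 ^ m)
    rw [pow_add, ← hT] at this
    calc T * T * B = T * T * (B * (T * T)) * (T * T) := by
          rw [mul_assoc (T * T), mul_assoc B, c1, mul_one]
      _ = _ := by rw [this]
  have r2 : ∀ s, R (m + 1) s = 1 ∨ R (m + 1) s = T * T ∨ R (m + 1) s = B * (T * T) := by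
    intro s
    rw [step, r1 m le_rfl, r1 m le_rfl, r1 m le_rfl, ← hT]
    by_cases h : s = u
    · subst h
      have f3 : ∀ s z : Fin 3, s ≠ z → (s + 1 = z ∧ s + 2 ≠ z) ∨ (s + 1 ≠ z ∧ s + 2 = z) := by
        decide
      rw [not_col hu]
      rcases f3 s z0 hne with ⟨a, b⟩ | ⟨a, b⟩
      · right; right; simp [a, b, hne, ← mul_assoc, c2]
      · right; right; simp [a, b, hne]
    · have : col (ω m) s = true := by rw [col_iff, hu]; exact h
      rw [this]
      by_cases h' : s = z0 <;> simp [h', h2]
  have r3 : ∀ t, (∀ s, R (m + 1 + t) s * R (m + 1 + t) s = 1) ∧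
      ∀ s s', Commute (R (m + 1 + t) s) (R (m + 1 + t) s') := by
    intro t
    induction t with
    | zero =>
      have c3 : Commute (T * T) B := c2
      have c4 : Commute (T * T) (B * (T * T)) := c3.mul_right (Commute.refl _)
      refine ⟨fun s => ?_, fun s s' => ?_⟩
      · rcases r2 s with h | h | h <;> rw [add_zero, h]
        · simp
        · exact c1
        · calc B * (T * T) * (B * (T * T)) = B * (T * T * B) * (T * T) := by simp only [mul_assoc]
            _ = (B * B) * ((T * T) * (T * T)) := by rw [c2]; simp only [mul_assoc]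
            _ = 1 := by rw [h2, c1, mul_one]
      · rcases r2 s with h | h | h <;> rcases r2 s' with h' | h' | h' <;> rw [add_zero, h, h'] <;>
          first
            | exact Commute.one_left _
            | exact Commute.one_right _
            | exact Commute.refl _
            | exact c4
            | exact c4.symm
    | succ t ih =>
      obtain ⟨i1, i2⟩ := ih
      rw [← add_assoc]
      refine ⟨fun s => ?_, fun s s' => ?_⟩
      · rw [step]
        split_ifs
        · rw [i1, mul_one]
        · rw [← sq, ((i2 _ _).mul_right (i2 _ _)).mul_pow, (i2 _ _).mul_pow, sq, sq, sq, i1, i1, i1]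
          simp
      · rw [step, step]
        split_ifs <;>
          repeat first
            | exact i2 _ _
            | apply Commute.mul_left
            | apply Commute.mul_right
  obtain ⟨t, rfl⟩ : ∃ t, n = m + 1 + t := ⟨n - (m + 1), by omega⟩
  have := (r3 t).1 z
  rw [hR] at this
  rw [Zw_append, rw0_append, evP_append]
  exact this

theorem sum_xi (f : Fin 3 → ℕ) (L : ℕ) (hf : ∀ s, 2 * f s ≤ L) (u : Fin 3) (l : List (Fin 3)) :
    ((xi u l).map f).sum ≤ l.length * L := by
  induction l with
  | nil => simp [xi]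
  | cons s l ih =>
    have := hf u; have := hf s
    simp only [xi, List.map_cons, List.sum_cons, List.length_cons, add_mul]; omega

theorem length_shift (ω : ℕ → Fin 3) (k n : ℕ) (z : Fin 3) :
    2 * ((Zw n (sh (k + 1) ω) [z]).length * lenSum ω k) ≤ (k + 3) * ell ω (k + 1 + n) z := by
  rw [← length_Zw, Zw_add, length_Zw_list (k + 1)]
  generalize Zw n (sh (k + 1) ω) [z] = l
  induction l with
  | nil => simp
  | cons s l ih =>
    have h1 := lenSum_ratio ω k s
    have h2 := Nat.mul_le_mul_left (k + 3) (ell_two ω k s)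
    simp only [List.map_cons, List.sum_cons, List.length_cons]
    nlinarith

open Classical in
theorem probe_later (ω : ℕ → Fin 3) {z0 z u : Fin 3} {k m n : ℕ} (h0 : inact (ω k) = z0)
    (hrun : ∀ t < m, inact (ω (k + 1 + t)) = z0) (hu : inact (ω (k + 1 + m)) = u) (hne : u ≠ z0)
    (hmn : m < n) (hact : col (ω (k + 1 + n - 1)) z = true) (hz : inact (ω (k + 1 + n)) = z) :
    ∃ e U, Probe ω z (k + 1) (k + 1 + n + 1) U e ∧
      InBall ω ((k + 3) * lenSum ω (k + 1 + n)) e.1 ∧
      (∀ y : Vx, y.length = k → ∃ δ, U (y ++ [δ])) ∧ ((LV (k + 1)).filter U).card ≤ 2 ^ k := by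
  set l := Zw n (sh (k + 1) ω) [z] with hl
  set W := pw (Zw n (sh (k + 1) ω) ([z] ++ [z])) with hW
  set e := evT ω (pw (Zw k ω (xi u l ++ xi u l))) with he
  have hc : col (ω k) u = true := by rw [col_iff, h0]; exact hne
  have e1 : xi u l ++ xi u l = xi u (Zw n (sh (k + 1) ω) ([z] ++ [z])) := by
    rw [Zw_append, xi_append]
  obtain ⟨x1, x2, x3⟩ := sec_xi hc (Zw n (sh (k + 1) ω) ([z] ++ [z]))
  have x4 := rw0_trivial (i := ω k) (sh (k + 1) ω) h0
    (fun t ht => by rw [← hrun t ht]; simp only [sh]; congr 2; ring)
    (by rw [← hu]; simp only [sh]; congr 2; ring) hne n hmn z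
  have key : ∀ y : Vx, y.length = k → ∃ c, (∀ δ, e.1 (y ++ [δ]) = y ++ [δ]) ∧
      SecW ω (k + 1) e (y ++ [c]) W ∧ SecW ω (k + 1) e (y ++ [!c]) [] := by
    intro y hy
    obtain ⟨s1, s2⟩ := secW_sq ω k (xi u l) y hy
    rw [← he] at s1 s2
    rw [e1] at s2
    rcases s2 with s2 | s2
    · refine ⟨true, fun δ => by rw [tree_step, s1, s2.act, x1]; simp, ?_, ?_⟩
      · refine (s2.step true).congr fun v => ?_
        rw [run_red, x2]
      · refine (s2.step false).congr fun v => ?_
        rw [run_red, x3, ← evP_apply, x4]; rfl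
    · refine ⟨false, fun δ => by
        rw [tree_step, s1, s2.act]; simp only [par, par_append, x1]; simp, ?_, ?_⟩
      · refine (s2.step false).congr fun v => ?_
        rw [run_red]
        simp only [sec, sec_append, Bool.not_false, x2, List.append_nil, hW]
      · refine (s2.step true).congr fun v => ?_
        rw [run_red]
        simp only [sec, sec_append, Bool.not_true, x3, List.append_nil]
        rw [← evP_apply, x4]; rfl
  choose! cl k1 k2 k3 using key
  refine ⟨e, fun y => y = y.take k ++ [cl (y.take k)], fun v hv => ?_, ⟨_, ?_, rfl⟩,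
    fun y hy => ⟨cl y, by simp only [List.take_left' hy]⟩, ?_⟩
  · obtain ⟨y, δ, v', hy, rfl⟩ := split_at v k (by omega)
    have hv' : v'.length = n + 1 := by simp at hv; omega
    have e2 : y ++ δ :: v' = (y ++ [δ]) ++ v' := by simp
    have e3 : (y ++ δ :: v').take (k + 1) = y ++ [δ] := by
      rw [e2, List.take_left' (by simp [hy])]
    simp only [e3, List.take_left' hy]
    by_cases hδ : δ = cl y
    · subst hδ
      have r := run_sq (sh (k + 1) ω) (n := n) (z := z) (Or.inr (by
        rw [← hact]; simp only [sh]; congr 2; omega))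
        (by rw [← hz]; simp only [sh]; congr 2; ring) v' hv'
      have e4 : e.1 (y ++ cl y :: v') = y ++ cl y :: v' := by
        have := r []
        rw [List.append_nil] at this
        rw [e2, k2 y hy, k1 y hy, hW, this]; simp [genFun]
      refine ⟨e4, fun _ w => ?_, fun h => absurd rfl h⟩
      rw [e4, e2, List.append_assoc, k2 y hy, k1 y hy, hW, r, List.append_assoc]
      have : sh (n + 1) (sh (k + 1) ω) = sh (k + 1 + n + 1) ω := by
        funext j; simp only [sh]; congr 1; ring
      rw [this]; simp [run, letFun]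
    · have hδ' : δ = !cl y := by
        revert hδ; cases δ <;> cases cl y <;> simp
      subst hδ'
      have e4 : e.1 (y ++ (!cl y) :: v') = y ++ (!cl y) :: v' := by
        rw [e2, k3 y hy, k1 y hy]; rfl
      refine ⟨e4, fun h => by simp at h, fun _ w => ?_⟩
      rw [e4, e2, List.append_assoc, k3 y hy, k1 y hy]; simp [run]
  · rw [length_pw, Zw_append, List.length_append, length_Zw_list]
    have h1 := sum_xi (ell ω k) (lenSum ω k) (ell_tri ω k) u l
    have h2 := length_shift ω k n z
    have h3 := Nat.mul_le_mul_left (k + 3) (ell_tri ω (k + 1 + n) z)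
    rw [← hl] at h2
    nlinarith
  · rw [← card_LV]
    refine le_trans (Finset.card_le_card (t := (LV k).image (fun y => y ++ [cl y])) fun v hv => ?_)
      Finset.card_image_le
    simp only [Finset.mem_filter, mem_LV] at hv
    exact Finset.mem_image.2 ⟨v.take k, by rw [mem_LV]; simp; omega, hv.2.symm⟩

end Pool.Agent.MP_fbbd83_al.Pl
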