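import Mathlib

/-! Binary decision trees with labelled nodes, expectations and an entropy bound. -/

namespace Pool.Agent.MP_fbbd83_al.Pl

abbrev Vx := List Bool

abbrev Path := List (Vx × Bool)

inductive RT (α : Type) : Type
  | leaf (a : α) : RT α
  | node (o : Option Vx) (l r : RT α) : RT α

def ext : Option Vx → Bool → Path → Path
  | none, _, p => p
  | some u, b, p => (u, b) :: p

namespace RT

variable {α β : Type}

noncomputable def E : RT α → (α → ℝ) → ℝ
  | leaf a, f => f a
  | node _ l r, f => (E l f + E r f) / 2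

def All : RT α → (α → Path → Prop) → Prop
  | leaf a, P => P a []
  | node o l r, P => All l (fun a p => P a (ext o false p)) ∧ All r (fun a p => P a (ext o true p))

def bind : RT α → (α → RT β) → RT β
  | leaf a, k => k a
  | node o l r, k => node o (bind l k) (bind r k)

/-- change the values and the labels -/
def mp (f : α → β) (ρ : Vx → Vx) : RT α → RT β
  | leaf a => leaf (f a)
  | node o l r => node (o.map ρ) (mp f ρ l) (mp f ρ r)

theorem E_bind (t : RT α) (k : α → RT β) (f : β → ℝ) :
    E (bind t k) f = E t (fun a => E (k a) f) := by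
  induction t with
  | leaf a => rfl
  | node o l r ihl ihr => simp only [bind, E, ihl, ihr]

theorem E_mp (g : α → β) (ρ : Vx → Vx) (t : RT α) (f : β → ℝ) :
    E (mp g ρ t) f = E t (fun a => f (g a)) := by
  induction t with
  | leaf a => rfl
  | node o l r ihl ihr => simp only [mp, E, ihl, ihr]

theorem All.mono {t : RT α} {P Q : α → Path → Prop} (h : All t P) (hPQ : ∀ a p, P a p → Q a p) :
    All t Q := by
  induction t generalizing P Q with
  | leaf a => exact hPQ _ _ h
  | node o l r ihl ihr =>
    exact ⟨ihl h.1 (fun a p => hPQ _ _), ihr h.2 (fun a p => hPQ _ _)⟩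

theorem All.and {t : RT α} {P Q : α → Path → Prop} (h : All t P) (h' : All t Q) :
    All t (fun a p => P a p ∧ Q a p) := by
  induction t generalizing P Q with
  | leaf a => exact ⟨h, h'⟩
  | node o l r ihl ihr => exact ⟨ihl h.1 h'.1, ihr h.2 h'.2⟩

theorem all_of_forall (t : RT α) {P : α → Path → Prop} (h : ∀ a p, P a p) : All t P := by
  induction t generalizing P with
  | leaf a => exact h _ _
  | node o l r ihl ihr => exact ⟨ihl (fun a p => h _ _), ihr (fun a p => h _ _)⟩

theorem ext_append (o : Option Vx) (b : Bool) (p q : Path) : ext o b (p ++ q) = ext o b p ++ q := by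
  cases o <;> rfl

theorem all_bind {t : RT α} {k : α → RT β} {P : β → Path → Prop}
    (h : All t (fun a p => All (k a) (fun b q => P b (p ++ q)))) : All (bind t k) P := by
  induction t generalizing P with
  | leaf a => exact h
  | node o l r ihl ihr =>
    refine ⟨ihl (h.1.mono fun a p hp => ?_), ihr (h.2.mono fun a p hp => ?_)⟩
    · simpa only [ext_append] using hp
    · simpa only [ext_append] using hp

def rl (ρ : Vx → Vx) (p : Path) : Path := p.map (fun e => (ρ e.1, e.2))

theorem all_mp {f : α → β} {ρ : Vx → Vx} {t : RT α} {P : β → Path → Prop}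
    (h : All t (fun a p => P (f a) (rl ρ p))) : All (mp f ρ t) P := by
  induction t generalizing P with
  | leaf a => exact h
  | node o l r ihl ihr =>
    refine ⟨ihl (h.1.mono fun a p hp => ?_), ihr (h.2.mono fun a p hp => ?_)⟩
    · cases o <;> exact hp
    · cases o <;> exact hp

theorem E_mono_all {t : RT α} {f g : α → ℝ} (h : All t (fun a _ => f a ≤ g a)) : E t f ≤ E t g := by
  induction t with
  | leaf a => exact h
  | node o l r ihl ihr =>
    have := ihl h.1; have := ihr h.2
    simp only [E]; linarith

theorem E_mono (t : RT α) {f g : α → ℝ} (h : ∀ a, f a ≤ g a) : E t f ≤ E t g :=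
  E_mono_all (all_of_forall t fun a _ => h a)

theorem E_add (t : RT α) (f g : α → ℝ) : E t (fun a => f a + g a) = E t f + E t g := by
  induction t with
  | leaf a => rfl
  | node o l r ihl ihr => simp only [E, ihl, ihr]; ring

theorem E_const (t : RT α) (c : ℝ) : E t (fun _ => c) = c := by
  induction t with
  | leaf a => rfl
  | node o l r ihl ihr => simp only [E, ihl, ihr]; ring

theorem E_mul (t : RT α) (c : ℝ) (f : α → ℝ) : E t (fun a => c * f a) = c * E t f := by
  induction t with
  | leaf a => rfl
  | node o l r ihl ihr => simp only [E, ihl, ihr]; ring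

theorem E_sum {ι : Type} (t : RT α) (s : Finset ι) (f : ι → α → ℝ) :
    E t (fun a => ∑ i ∈ s, f i a) = ∑ i ∈ s, E t (f i) := by
  induction t with
  | leaf a => rfl
  | node o l r ihl ihr => simp only [E, ihl, ihr, ← Finset.sum_add_distrib, Finset.sum_div]

theorem E_nonneg (t : RT α) {f : α → ℝ} (h : ∀ a, 0 ≤ f a) : 0 ≤ E t f := by
  simpa [E_const] using E_mono t (f := fun _ => 0) h

theorem E_le_all {t : RT α} {f : α → ℝ} {c : ℝ} (h : All t (fun a _ => f a ≤ c)) : E t f ≤ c := by
  simpa [E_const] using E_mono_all (g := fun _ => c) h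

theorem E_le (t : RT α) {f : α → ℝ} {c : ℝ} (h : ∀ a, f a ≤ c) : E t f ≤ c :=
  E_le_all (all_of_forall t fun a _ => h a)

section Entropy

variable {Γ : Type} (val : α → Γ) (φ : Γ → Vx → Bool) (S : Finset Γ)

noncomputable def lw (g : Γ) (e : Vx × Bool) : ℝ :=
  if φ g e.1 = e.2 then Real.log (8 / 5) else Real.log (2 / 5)

theorem gibbs (t : RT α) : ∀ (ψ : Γ → ℝ) (H : α → ℝ),
    All t (fun a p => val a ∈ S ∧ H a ≤ ψ (val a) + (p.map (lw φ (val a))).sum) →
      Real.exp (E t H) ≤ ∑ g ∈ S, Real.exp (ψ g) := by
  induction t with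
  | leaf a =>
    intro ψ H h
    obtain ⟨h1, h2⟩ := h
    simp only [List.map_nil, List.sum_nil, add_zero] at h2
    exact (Real.exp_le_exp.2 h2).trans
      (Finset.single_le_sum (f := fun g => Real.exp (ψ g)) (fun g _ => (Real.exp_pos _).le) h1)
  | node o l r ihl ihr =>
    intro ψ H h
    have key : Real.exp (E (node o l r) H) ≤ (Real.exp (E l H) + Real.exp (E r H)) / 2 := by
      have e1 : Real.exp (E l H) = Real.exp (E l H / 2) ^ 2 := by
        rw [← Real.exp_nat_mul]; congr 1; push_cast; ring
      have e2 : Real.exp (E r H) = Real.exp (E r H / 2) ^ 2 := by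
        rw [← Real.exp_nat_mul]; congr 1; push_cast; ring
      simp only [E]
      rw [add_div, Real.exp_add, e1, e2]
      nlinarith [sq_nonneg (Real.exp (E l H / 2) - Real.exp (E r H / 2))]
    cases o with
    | none =>
      have a1 := ihl ψ H h.1
      have a2 := ihr ψ H h.2
      linarith
    | some u =>
      have a1 := ihl (fun g => ψ g + lw φ g (u, false)) H (h.1.mono fun a p hp =>
        ⟨hp.1, by have := hp.2; simp only [ext, List.map_cons, List.sum_cons] at this; linarith⟩)
      have a2 := ihr (fun g => ψ g + lw φ g (u, true)) H (h.2.mono fun a p hp =>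
        ⟨hp.1, by have := hp.2; simp only [ext, List.map_cons, List.sum_cons] at this; linarith⟩)
      have a3 : ∑ g ∈ S, Real.exp (ψ g + lw φ g (u, false)) +
          ∑ g ∈ S, Real.exp (ψ g + lw φ g (u, true)) = 2 * ∑ g ∈ S, Real.exp (ψ g) := by
        rw [← Finset.sum_add_distrib, Finset.mul_sum]
        refine Finset.sum_congr rfl fun g _ => ?_
        rw [Real.exp_add, Real.exp_add]
        have b1 := Real.exp_log (show (0 : ℝ) < 8 / 5 by norm_num)
        have b2 := Real.exp_log (show (0 : ℝ) < 2 / 5 by norm_num)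
        cases hφ : φ g u <;> simp [lw, hφ, b1, b2] <;> ring
      linarith

theorem lw_sum (g : Γ) (p : Path) :
    (p.map (lw φ g)).sum =
      p.length * Real.log (8 / 5) - Real.log 4 * (p.countP (fun e => φ g e.1 != e.2)) := by
  have hl : Real.log (2 / 5) = Real.log (8 / 5) - Real.log 4 := by
    rw [← Real.log_div (by norm_num) (by norm_num)]; norm_num
  induction p with
  | nil => simp
  | cons e p ih =>
    simp only [List.map_cons, List.sum_cons, ih, List.length_cons, List.countP_cons, lw]
    by_cases h : φ g e.1 = e.2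
    · simp [h]; ring
    · simp [h, hl]; ring

theorem entropy (t : RT α) (n : ℕ) (err : α → ℝ)
    (h : All t (fun a p => val a ∈ S ∧ p.length = n ∧
      (p.countP (fun e => φ (val a) e.1 != e.2) : ℝ) ≤ err a)) :
    Real.exp (n * Real.log (8 / 5) - Real.log 4 * E t err) ≤ S.card := by
  have hl : 0 ≤ Real.log 4 := Real.log_nonneg (by norm_num)
  have := gibbs val φ S t (fun _ => 0) (fun a => n * Real.log (8 / 5) + (-Real.log 4) * err a)
    (h.mono fun a p hp => ⟨hp.1, by
      rw [lw_sum, hp.2.1]
      have := mul_le_mul_of_nonneg_left hp.2.2 hl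
      linarith⟩)
  rw [E_add, E_const, E_mul] at this
  simpa [sub_eq_add_neg] using this

end Entropy

end RT

end Pool.Agent.MP_fbbd83_al.Pl
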