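import Pool.Agent.MP_fbbd83_al.Lower
import Pool.Agent.MP_fbbd83_al.Pl.RT

/-! Sections of tree automorphisms as words, sums over levels, iterated reduced sections. -/

namespace Pool.Agent.MP_fbbd83_al.Pl

/-- the vertices of level `t` -/
def LV : ℕ → Finset Vx
  | 0 => {[]}
  | t + 1 => (LV t).image (List.cons false) ∪ (LV t).image (List.cons true)

theorem mem_LV {t : ℕ} {l : Vx} : l ∈ LV t ↔ l.length = t := by
  induction t generalizing l with
  | zero => simp [LV]
  | succ t ih =>
    cases l with
    | nil => simp [LV]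
    | cons x l => cases x <;> simp [LV, ih]

theorem sum_LV_succ {M : Type} [AddCommMonoid M] (t : ℕ) (f : Vx → M) :
    ∑ l ∈ LV (t + 1), f l = ∑ l ∈ LV t, f (false :: l) + ∑ l ∈ LV t, f (true :: l) := by
  rw [LV, Finset.sum_union, Finset.sum_image, Finset.sum_image]
  · intro a _ b _ h; simpa using h
  · intro a _ b _ h; simpa using h
  · rw [Finset.disjoint_left]
    intro l h1 h2
    simp only [Finset.mem_image] at h1 h2
    obtain ⟨a, _, rfl⟩ := h1
    obtain ⟨b, _, h⟩ := h2
    simp at h

theorem sum_LV_zero {M : Type} [AddCommMonoid M] (f : Vx → M) : ∑ l ∈ LV 0, f l = f [] := by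
  simp [LV]

theorem sum_LV_add {M : Type} [AddCommMonoid M] (n t : ℕ) (f : Vx → M) :
    ∑ l ∈ LV (n + t), f l = ∑ u ∈ LV n, ∑ v ∈ LV t, f (u ++ v) := by
  induction n generalizing f with
  | zero => simp [sum_LV_zero]
  | succ n ih =>
    rw [show n + 1 + t = (n + t) + 1 by ring, sum_LV_succ, sum_LV_succ, ih, ih]
    simp

theorem card_LV (t : ℕ) : (LV t).card = 2 ^ t := by
  induction t with
  | zero => simp [LV]
  | succ t ih =>
    have := sum_LV_succ t (fun _ => (1 : ℕ))
    simp only [Finset.sum_const, smul_eq_mul, mul_one] at this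
    rw [this, ih]; ring

theorem tr_len (g : Tr) (u : Vx) : (g.1 u).length = u.length := g.2.1 u

theorem tr_mul (g h : Tr) (u : Vx) : (g * h).1 u = g.1 (h.1 u) := rfl

theorem tr_inv_ap (g : Tr) (u : Vx) : (g⁻¹).1 (g.1 u) = u := by
  rw [← tr_mul, inv_mul_cancel]; rfl

theorem tr_ap_inv (g : Tr) (u : Vx) : g.1 ((g⁻¹).1 u) = u := by
  rw [← tr_mul, mul_inv_cancel]; rfl

theorem tr_append (g : Tr) (u v : Vx) : ∃ v', v'.length = v.length ∧ g.1 (u ++ v) = g.1 u ++ v' := by
  induction v using List.reverseRecOn with
  | nil => exact ⟨[], rfl, by simp⟩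
  | append_singleton v x ih =>
    obtain ⟨v', h1, h2⟩ := ih
    refine ⟨v' ++ [xor x (actF g.1 (u ++ v))], by simp [h1], ?_⟩
    rw [← List.append_assoc, tree_step, h2, List.append_assoc]

theorem tr_take (g : Tr) (n : ℕ) (u : Vx) : (g.1 u).take n = g.1 (u.take n) := by
  obtain ⟨v', h1, h2⟩ := tr_append g (u.take n) (u.drop n)
  rw [List.take_append_drop] at h2
  by_cases h : n ≤ u.length
  · rw [h2, List.take_append_of_le_length (by simp [tr_len, h]),
      List.take_of_length_le (by simp [tr_len])]
  · rw [List.take_of_length_le (by rw [tr_len]; omega), List.take_of_length_le (by omega)]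

theorem tr_append' (g : Tr) (u v : Vx) :
    g.1 (u ++ v) = g.1 u ++ (g.1 (u ++ v)).drop u.length := by
  obtain ⟨v', h1, h2⟩ := tr_append g u v
  rw [h2, ← tr_len g u, List.drop_left]

theorem sum_cyl {M : Type} [AddCommMonoid M] (g : Tr) (u : Vx) (t : ℕ) (f : Vx → M) :
    ∑ v ∈ LV t, f (g.1 (u ++ v)) = ∑ v ∈ LV t, f (g.1 u ++ v) := by
  refine Finset.sum_bij' (fun v _ => (g.1 (u ++ v)).drop u.length)
    (fun v _ => ((g⁻¹).1 (g.1 u ++ v)).drop u.length) ?_ ?_ ?_ ?_ ?_
  · intro v hv; rw [mem_LV] at hv ⊢; simp [tr_len, hv]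
  · intro v hv; rw [mem_LV] at hv ⊢
    rw [List.length_drop, tr_len, List.length_append, tr_len, hv]; omega
  · intro v _
    rw [← tr_append', tr_inv_ap, List.drop_left]
  · intro v _
    have := tr_append' g⁻¹ (g.1 u) v
    rw [tr_inv_ap, tr_len] at this
    rw [← this, tr_ap_inv, ← tr_len g u, List.drop_left]
  · intro v _
    rw [← tr_append']

theorem tr_nil (g : Tr) : g.1 [] = [] := List.length_eq_zero_iff.1 (tr_len g [])

theorem sum_level {M : Type} [AddCommMonoid M] (g : Tr) (t : ℕ) (f : Vx → M) :
    ∑ v ∈ LV t, f (g.1 v) = ∑ v ∈ LV t, f v := by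
  simpa [tr_nil] using sum_cyl g [] t f

/-- `g` fixes the level `b` -/
def St (b : ℕ) (g : Tr) : Prop := ∀ u : Vx, u.length = b → g.1 u = u

theorem St.one (b : ℕ) : St b 1 := fun _ _ => rfl

theorem St.mul {b : ℕ} {g h : Tr} (hg : St b g) (hh : St b h) : St b (g * h) := fun u hu => by
  rw [tr_mul, hh u hu, hg u hu]

theorem St.inv {b : ℕ} {g : Tr} (hg : St b g) : St b g⁻¹ := fun u hu => by
  conv_lhs => rw [← hg u hu]
  exact tr_inv_ap g u

theorem St.conj {b : ℕ} {g : Tr} (hg : St b g) (h : Tr) : St b (h⁻¹ * g * h) := fun u hu => by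
  rw [tr_mul, tr_mul, hg _ (by rw [tr_len, hu]), tr_inv_ap]

theorem St.take {b : ℕ} {g : Tr} (hg : St b g) {u : Vx} (hu : b ≤ u.length) :
    (g.1 u).take b = u.take b := by
  rw [tr_take, hg _ (by simp [hu])]

theorem St.mono {b c : ℕ} {g : Tr} (hg : St b g) (h : c ≤ b) : St c g := fun u hu => by
  have h1 := hg (u ++ List.replicate (b - c) false) (by simp; omega)
  have h2 := congrArg (List.take c) h1
  rwa [tr_take, ← hu, List.take_left] at h2

theorem St.zero (g : Tr) : St 0 g := fun u hu => by
  rw [List.length_eq_zero_iff.1 hu, tr_nil]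

variable (ω : ℕ → Fin 3)

/-- the section of `g` at the vertex `u` of level `n` is given by the word `w` -/
def SecW (n : ℕ) (g : Tr) (u : Vx) (w : Word) : Prop :=
  ∀ v, g.1 (u ++ v) = g.1 u ++ run (sh n ω) w v

variable {ω}

theorem SecW.one (n : ℕ) (u : Vx) : SecW ω n 1 u [] := fun _ => rfl

theorem SecW.mul {n : ℕ} {g h : Tr} {u : Vx} {w w' : Word} (hg : SecW ω n g u w)
    (hh : SecW ω n h (g.1 u) w') : SecW ω n (h * g) u (w ++ w') := fun v => by
  rw [tr_mul, hg, hh, run_append]; rfl

theorem letFun_invol (ω : ℕ → Fin 3) (x : Option (Fin 3)) (v : Vx) :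
    letFun ω x (letFun ω x v) = v := by
  cases x with
  | none => exact flipFun_invol v
  | some s => exact genFun_invol s ω v

theorem run_rev (ω : ℕ → Fin 3) (w : Word) (v : Vx) : run ω w.reverse (run ω w v) = v := by
  induction w generalizing v with
  | nil => rfl
  | cons x w ih => simp [run, run_append, ih, letFun_invol]

theorem run_rev' (ω : ℕ → Fin 3) (w : Word) (v : Vx) : run ω w (run ω w.reverse v) = v := by
  simpa using run_rev ω w.reverse v

theorem SecW.inv {n : ℕ} {g : Tr} {u : Vx} {w : Word} (hg : SecW ω n g u w) :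
    SecW ω n g⁻¹ (g.1 u) w.reverse := fun v => by
  have := hg (run (sh n ω) w.reverse v)
  rw [run_rev'] at this
  rw [← this, tr_inv_ap, tr_inv_ap]

theorem SecW.congr {n : ℕ} {g : Tr} {u : Vx} {w w' : Word} (hg : SecW ω n g u w)
    (h : ∀ v, run (sh n ω) w v = run (sh n ω) w' v) : SecW ω n g u w' := fun v => by
  rw [hg, h]

theorem SecW.red {n : ℕ} {g : Tr} {u : Vx} {w : Word} (hg : SecW ω n g u w) :
    SecW ω n g u (red w) := hg.congr fun v => (run_red _ w v).symm

theorem SecW.step {n : ℕ} {g : Tr} {u : Vx} {w : Word} (hg : SecW ω n g u w) (δ : Bool) :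
    SecW ω (n + 1) g (u ++ [δ]) (MP_fbbd83_al.red (sec (ω n) w δ)) := fun v => by
  rw [List.append_assoc, hg, hg, List.singleton_append, run_cons, run_cons, run_nil, run_red,
    shift_sh, sh_apply_zero]
  simp

theorem SecW.act {n : ℕ} {g : Tr} {u : Vx} {w : Word} (hg : SecW ω n g u w) :
    actF g.1 u = par w := by
  unfold actF
  rw [hg, run_cons, run_nil]
  simp

theorem secW_evT (ω : ℕ → Fin 3) (w : Word) : SecW ω 0 (evT ω w) [] w := fun v => by
  rw [tr_nil]; exact evP_apply ω w v

/-- number of letters other than `a` and `z` -/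
def cB (z : Fin 3) : Word → ℕ
  | [] => 0
  | none :: w => cB z w
  | some s :: w => cB z w + if s = z then 0 else 1

theorem cB_append (z : Fin 3) (w w' : Word) : cB z (w ++ w') = cB z w + cB z w' := by
  induction w with
  | nil => simp [cB]
  | cons x w ih => cases x <;> simp [cB, ih]; omega

theorem cntA_append (w w' : Word) : cntA (w ++ w') = cntA w + cntA w' := by
  induction w with
  | nil => simp [cntA]
  | cons x w ih => cases x <;> simp [cntA, ih]; omega

theorem cB_reverse (z : Fin 3) (w : Word) : cB z w.reverse = cB z w := by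
  induction w with
  | nil => rfl
  | cons x w ih => cases x <;> simp [cB, cB_append, ih]

theorem cntA_reverse (w : Word) : cntA w.reverse = cntA w := by
  induction w with
  | nil => rfl
  | cons x w ih => cases x <;> simp [cntA, cntA_append, ih]

theorem cB_le_cntS (z : Fin 3) (w : Word) : cB z w ≤ cntS w := by
  induction w with
  | nil => exact le_rfl
  | cons x w ih =>
    cases x <;> simp only [cB, cntS]
    · exact ih
    · split_ifs <;> omega

theorem par_of_cntA (w : Word) (h : cntA w = 0) : par w = false := by
  induction w with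
  | nil => rfl
  | cons x w ih =>
    cases x
    · simp [cntA] at h
    · exact ih h

theorem par_append (w w' : Word) : par (w ++ w') = xor (par w) (par w') := by
  induction w with
  | nil => simp [par]
  | cons x w ih => cases x <;> simp [par, ih]

theorem par_reverse (w : Word) : par w.reverse = par w := by
  induction w with
  | nil => rfl
  | cons x w ih => cases x <;> simp [par, par_append, ih]

theorem third_cB (z s t : Fin 3) (h : s ≠ t) :
    (if third s t = z then 0 else 1) ≤ (if s = z then 0 else 1) + (if t = z then 0 else 1) := by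
  revert z s t; decide

theorem cB_red (z : Fin 3) (w : Word) : cB z (red w) ≤ cB z w := by
  induction w with
  | nil => exact le_rfl
  | cons x w ih =>
    have : red (x :: w) = push x (red w) := rfl
    rw [this]
    generalize red w = r at ih
    rcases x with _ | s <;> rcases r with _ | ⟨_ | t, r⟩ <;> simp only [push, cB] at ih ⊢ <;>
      try omega
    by_cases h : s = t
    · simp only [h, if_true]; omega
    · simp only [h, if_false, cB]
      have := third_cB z s t h
      omega

theorem cntA_red (w : Word) : cntA (red w) ≤ cntA w := by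
  induction w with
  | nil => exact le_rfl
  | cons x w ih =>
    have : red (x :: w) = push x (red w) := rfl
    rw [this]
    generalize red w = r at ih
    rcases x with _ | s <;> rcases r with _ | ⟨_ | t, r⟩ <;> simp only [push, cntA] at ih ⊢ <;>
      try omega
    split_ifs
    · omega
    · simp only [cntA]; omega

theorem cB_sec (z i : Fin 3) (w : Word) :
    cB z (sec i w false) + cB z (sec i w true) = cB z w := by
  induction w with
  | nil => rfl
  | cons x w ih =>
    cases x with
    | none => simp only [sec, cB, Bool.not_false, Bool.not_true]; omega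
    | some s => simp only [sec]; split_ifs <;> simp only [cB] <;> omega

theorem cntA_sec (i : Fin 3) (w : Word) :
    cntA (sec i w false) + cntA (sec i w true) ≤ cB (inact i) w := by
  induction w with
  | nil => exact le_rfl
  | cons x w ih =>
    cases x with
    | none => simp only [sec, cB, Bool.not_false, Bool.not_true]; omega
    | some s =>
      simp only [sec]
      split_ifs with h
      · rw [col_iff] at h
        simp only [cntA, cB, h, if_false]; omega
      · simp only [cntA, cB]; omega

theorem length_sec (i : Fin 3) (w : Word) (δ : Bool) : (sec i w δ).length ≤ cntS w := by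
  induction w generalizing δ with
  | nil => exact le_rfl
  | cons x w ih =>
    cases x with
    | none => exact ih _
    | some s =>
      cases δ
      · have := ih false
        simp only [sec]; split_ifs <;> simp [cntS] <;> omega
      · have := ih true
        simp [sec, cntS]; omega

variable (ω)

/-- iterated reduced sections -/
def dsec : ℕ → Word → Vx → Word
  | _, w, [] => w
  | n, w, δ :: v => dsec (n + 1) (red (sec (ω n) w δ)) v

variable {ω}

theorem SecW.dsec {g : Tr} (v : Vx) : ∀ {n : ℕ} {u : Vx} {w : Word}, SecW ω n g u w →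
    SecW ω (n + v.length) g (u ++ v) (dsec ω n w v) := by
  induction v with
  | nil => intro n u w h; simpa [Pl.dsec] using h
  | cons δ v ih =>
    intro n u w h
    have := ih (h.step δ)
    rw [List.append_assoc] at this
    rw [List.length_cons, show n + (v.length + 1) = n + 1 + v.length by ring]
    exact this

theorem dsec_nil (n : ℕ) (v : Vx) : dsec ω n [] v = [] := by
  induction v generalizing n with
  | nil => rfl
  | cons δ v ih => exact ih _

theorem dsec_append (v v' : Vx) : ∀ (n : ℕ) (w : Word),
    dsec ω n w (v ++ v') = dsec ω (n + v.length) (dsec ω n w v) v' := by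
  induction v with
  | nil => intro n w; rfl
  | cons δ v ih =>
    intro n w
    simp only [List.cons_append, dsec, ih, List.length_cons]
    congr 1; ring

theorem sum_cB_dsec (z : Fin 3) (t : ℕ) : ∀ (n : ℕ) (w : Word),
    ∑ v ∈ LV t, cB z (dsec ω n w v) ≤ cB z w := by
  induction t with
  | zero => intro n w; simp [sum_LV_zero, dsec]
  | succ t ih =>
    intro n w
    rw [sum_LV_succ]
    have h1 := ih (n + 1) (red (sec (ω n) w false))
    have h2 := ih (n + 1) (red (sec (ω n) w true))
    have := cB_red z (sec (ω n) w false)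
    have := cB_red z (sec (ω n) w true)
    have := cB_sec z (ω n) w
    simp only [dsec]; omega

theorem sum_cntA_dsec (z : Fin 3) (t : ℕ) : ∀ (n : ℕ) (w : Word), inact (ω (n + t)) = z →
    ∑ v ∈ LV (t + 1), cntA (dsec ω n w v) ≤ cB z w := by
  induction t with
  | zero =>
    intro n w hz
    rw [sum_LV_succ, sum_LV_zero, sum_LV_zero]
    have := cntA_red (sec (ω n) w false)
    have := cntA_red (sec (ω n) w true)
    have := cntA_sec (ω n) w
    rw [add_zero] at hz
    rw [hz] at this
    simp only [dsec]; omega
  | succ t ih =>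
    intro n w hz
    rw [sum_LV_succ]
    have hz' : inact (ω (n + 1 + t)) = z := by rw [← hz]; congr 2; ring
    have h1 := ih (n + 1) (red (sec (ω n) w false)) hz'
    have h2 := ih (n + 1) (red (sec (ω n) w true)) hz'
    have := cB_red z (sec (ω n) w false)
    have := cB_red z (sec (ω n) w true)
    have := cB_sec z (ω n) w
    simp only [dsec]; omega

theorem length_dsec (v : Vx) : ∀ (n : ℕ) (w : Word), Alt w →
    2 ^ v.length * ((dsec ω n w v).length - 1) ≤ w.length - 1 := by
  induction v with
  | nil => intro n w _; simp [dsec]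
  | cons δ v ih =>
    intro n w hw
    have h1 := ih (n + 1) _ (alt_red (sec (ω n) w δ))
    have h2 := length_red (sec (ω n) w δ)
    have h3 := length_sec (ω n) w δ
    have h4 := (alt_cnt w hw).1.1
    have h5 := length_eq_cnt w
    simp only [dsec, List.length_cons, pow_succ]
    rw [mul_comm (2 ^ v.length) 2, mul_assoc]
    omega

end Pool.Agent.MP_fbbd83_al.Pl
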