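import Pool.Agent.MP_fbbd83_al.Pl.Low

/-! Balls depend only on an initial segment of the sequence; the lower bound for all sequences. -/

namespace Pool.Agent.MP_fbbd83_al.Pl

def NC (ω : ℕ → Fin 3) : Prop := ∀ n s, ∃ k, n ≤ k ∧ col (ω k) s = true

theorem nc_of (ω : ℕ → Fin 3) (h : ¬ ∃ n c, ∀ m ≥ n, ω m = c) : NC ω := by
  intro n s
  by_contra hc
  push Not at hc
  refine h ⟨n, inact s, fun m hm => ?_⟩
  have := hc m hm
  generalize ω m = i at this
  clear hc
  revert i s; decide

theorem genFun_act (s : Fin 3) (k : ℕ) : ∀ ω : ℕ → Fin 3, col (ω k) s = true →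
    genFun s (List.replicate k true ++ [false, false]) ω = List.replicate k true ++ [false, true] := by
  induction k with
  | zero => intro ω h; simp [genFun, h, flipFun]
  | succ k ih => intro ω h; simp [List.replicate_succ, genFun, ih (shift ω) h]

theorem short_trivial {ω : ℕ → Fin 3} (h : NC ω) (w : Word) (hl : w.length ≤ 1)
    (hw : ∀ v, run ω w v = v) : w = [] := by
  match w, hl with
  | [], _ => rfl
  | [none], _ => simpa [run, letFun, flipFun] using hw [false]
  | [some s], _ =>
    obtain ⟨k, _, hk⟩ := h 0 s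
    have := hw (List.replicate k true ++ [false, false])
    simp [run, letFun, genFun_act s k ω hk] at this

theorem trivial_transfer (n : ℕ) : ∀ (ω ω' : ℕ → Fin 3), NC ω → (∀ k < n, ω k = ω' k) →
    ∀ w : Word, Alt w → w.length ≤ n + 1 → (∀ v, run ω w v = v) → ∀ v, run ω' w v = v := by
  induction n with
  | zero =>
    intro ω ω' h _ w _ hl hw v
    rw [short_trivial h w hl hw]; rfl
  | succ n ih =>
    intro ω ω' h he w ha hl hw v
    by_cases h1 : w.length ≤ 1
    · rw [short_trivial h w h1 hw]; rfl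
    cases v with
    | nil => exact run_nil _ _
    | cons δ v =>
      have h2 : ∀ v, xor δ (par w) = δ ∧ run (shift ω) (sec (ω 0) w δ) v = v := fun v => by
        have := hw (δ :: v)
        rwa [run_cons, List.cons.injEq] at this
      have h3 := length_red (sec (ω 0) w δ)
      have h4 := length_sec (ω 0) w δ
      have h5 := (alt_cnt w ha).1.1
      have h6 := length_eq_cnt w
      have := ih (shift ω) (shift ω') (fun n s => by
        obtain ⟨k, h1, h2⟩ := h (n + 1) s
        exact ⟨k - 1, by omega, by simpa [shift, Nat.sub_add_cancel (show 1 ≤ k by omega)] using h2⟩)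
        (fun k hk => he (k + 1) (by omega)) _ (alt_red (sec (ω 0) w δ)) (by omega)
        (fun v => by rw [run_red]; exact (h2 v).2) v
      rw [run_red] at this
      rw [run_cons, (h2 v).1, ← he 0 (by omega), this]

theorem growth_transfer {ω ω' : ℕ → Fin 3} (h : NC ω) {n m : ℕ} (he : ∀ k < n, ω k = ω' k)
    (hm : 2 * m ≤ n) : growth (gens ω') m ≤ growth (gens ω) m := by
  classical
  rw [growth_eq, growth_eq]
  have hw : ∀ g, InBall ω' m g → ∃ w : Word, w.length ≤ m ∧ evP ω' w = g := fun _ hg => hg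
  choose! wd h1 h2 using hw
  refine Set.ncard_le_ncard_of_injOn (fun g => evP ω (wd g)) (fun g hg => ⟨_, h1 g hg, rfl⟩)
    (fun g hg g' hg' e => ?_) (ball_finite ω m)
  have a1 := h1 g hg; have a2 := h1 g' hg'
  have a3 := length_red (wd g ++ (wd g').reverse)
  have a4 := trivial_transfer n ω ω' h he _ (alt_red (wd g ++ (wd g').reverse))
    (by simp at a3; omega) (fun v => by
      have e' : evP ω (wd g) = evP ω (wd g') := e
      rw [run_red, ← evP_apply, evP_append, evP_reverse, e']; simp)
  have a5 : evP ω' (wd g ++ (wd g').reverse) = 1 := by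
    ext1 v; rw [evP_apply, ← run_red, a4]; rfl
  rw [evP_append, evP_reverse, h2 g hg, h2 g' hg'] at a5
  exact (inv_mul_eq_one.1 a5).symm

theorem ell_congr {ω ω' : ℕ → Fin 3} (k : ℕ) (he : ∀ j < k, ω j = ω' j) : ell ω k = ell ω' k := by
  induction k with
  | zero => rfl
  | succ k ih =>
    funext s
    simp only [ell, ih (fun j hj => he j (by omega)), he k (by omega)]

theorem exists_rich (ω : ℕ → Fin 3) (n : ℕ) : ∃ ω', Rich ω' ∧ ∀ k < n, ω k = ω' k := by
  refine ⟨fun k => if k < n then ω k else ⟨k / 4 % 3, Nat.mod_lt _ (by norm_num)⟩,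
    fun s m => ⟨12 * (m + n) + 4 * (2 - s), by omega, fun t ht => ?_⟩, fun k hk => by simp [hk]⟩
  simp only
  rw [if_neg (by omega)]
  have : (12 * (m + n) + 4 * (2 - s) + t) / 4 % 3 = 2 - s := by have := s.2; omega
  simp only [this]
  rcases fin3_cases s with rfl | rfl | rfl <;> rfl

theorem lower_all {ω : ℕ → Fin 3} (h : NC ω) {K Λ : ℕ} (hΛ : 2048 * K ^ 4 ≤ 2 ^ Λ) :
    Real.exp (2 ^ K / 4) ≤ growth (gens ω)
      ((3 * (17 * (28 * K + (7 * Λ + 4) + 9)) + 9 * K) * lenSum ω (K + (7 * Λ + 4))) := by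
  set m := (3 * (17 * (28 * K + (7 * Λ + 4) + 9)) + 9 * K) * lenSum ω (K + (7 * Λ + 4)) with hm
  obtain ⟨ω', h1, h2⟩ := exists_rich ω (2 * m + (K + (7 * Λ + 4)))
  have h3 := lower_rich h1 hΛ
  have h4 : lenSum ω' (K + (7 * Λ + 4)) = lenSum ω (K + (7 * Λ + 4)) := by
    unfold lenSum; rw [ell_congr _ (fun j hj => h2 j (by omega))]
  rw [h4] at h3
  exact h3.trans (by exact_mod_cast growth_transfer h h2 (by omega))

end Pool.Agent.MP_fbbd83_al.Pl
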